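import Pool.Agent.Lib.FBC.X3.Blue
import Pool.Agent.Lib.FBC.NoBS
import Pool.Agent.Lib.FBC.Sand

/-!
Aperiodicity: every language word has two diverging extensions.
-/

namespace Pool.Agent.Lib.FBC.X3

open Forest

namespace AP

variable {G : Type} [Group G] {d : Dg G} {Y : Forest d} {s : Flow Y} {x y : Y.V} {ρ : ℕ → Y.V}

/-- the unique ray of language words that extend `[x, y]` -/
structure Ray (s : Flow Y) (x y : Y.V) (ρ : ℕ → Y.V) : Prop where
  dist : ∀ n, Y.dist x (ρ n) = n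
  mono : ∀ i j, i ≤ j → Y.btw x (ρ i) (ρ j)
  lang : ∀ n, Lang s x (ρ n)
  ext : ∀ n, Y.dist x y ≤ n → Y.btw x y (ρ n)
  uniq : ∀ u, Lang s x u → Y.btw x y u → u = ρ (Y.dist x u)

lemma exists_ray (A : LangAPI s) (h : Lang s x y)
    (H : ∀ u v, Lang s x u → Lang s x v → Y.btw x y u → Y.btw x y v → Y.btw x u v ∨ Y.btw x v u) :
    ∃ ρ, Ray s x y ρ := by
  have h1 : ∀ n : ℕ, ∃ u b, Lang s x b ∧ Y.btw x y b ∧ Y.btw x u b ∧ Y.dist x u = n := fun n => by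
    obtain ⟨a, b, h1, h2, -, h3⟩ := A.ext x y h n
    obtain ⟨u, h4, h5⟩ := exists_btw_dist h2.2.lev3 (h3.trans h2.2.dist_le')
    exact ⟨u, b, A.sub a b x b h1 ⟨h2.1, btw_right h2.2.lev3⟩, h2.2, h4, h5⟩
  choose ρ b h1 h2 h3 h4 using h1
  have key : ∀ u c n, Lang s x c → Y.btw x y c → Y.btw x u c →
      ∃ c', Y.btw x u c' ∧ Y.btw x (ρ n) c' := fun u c n k1 k2 k3 =>
    (H c (b n) k1 (h1 n) k2 (h2 n)).elim (fun t => ⟨_, t.trans_left k3, h3 n⟩)
      fun t => ⟨_, k3, t.trans_left (h3 n)⟩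
  refine ⟨ρ, h4, fun i j hij => ?_, fun n => A.sub _ _ _ _ (h1 n) ⟨btw_left (h3 n).lev3, h3 n⟩,
    fun n hn => (h2 n).of_dist_le (h3 n) (by rwa [h4]), fun u k1 k2 => ?_⟩
  · obtain ⟨c, k1, k2⟩ := key (ρ i) (b i) j (h1 i) (h2 i) (h3 i)
    exact k1.of_dist_le k2 (by rwa [h4, h4])
  · obtain ⟨c, t1, t2⟩ := key u u (Y.dist x u) k1 k2 (btw_right k2.lev3)
    exact t1.eq_of_dist t2 (h4 _).symm

lemma Ray.btw (R : Ray s x y ρ) {i j k : ℕ} (h : i ≤ j) (h' : j ≤ k) : Y.btw (ρ i) (ρ j) (ρ k) :=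
  (R.mono j k h').trans_left' (R.mono i j h)

lemma Ray.dist' (R : Ray s x y ρ) {i j : ℕ} (h : i ≤ j) : i + Y.dist (ρ i) (ρ j) = j := by
  have := (R.mono i j h).dist_add
  rwa [R.dist, R.dist] at this

lemma Ray.inj (R : Ray s x y ρ) {i j : ℕ} (h : ρ i = ρ j) : i = j := by
  rw [← R.dist i, h, R.dist]

/-- `w` eventually translates the ray by `p` -/
def Tr (ρ : ℕ → Y.V) (w : G) (p : ℕ) : Prop := ∃ N, ∀ n ≥ N, w • ρ n = ρ (n + p)

lemma Tr.pow {w : G} {p : ℕ} (h : Tr ρ w p) : ∃ N, ∀ j : ℕ, ∀ n ≥ N, w ^ j • ρ n = ρ (n + j * p) := by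
  obtain ⟨N, h⟩ := h
  refine ⟨N, fun j n hn => ?_⟩
  induction j with
  | zero => simp
  | succ j ih => rw [pow_succ', mul_smul, ih, h _ (by omega), add_assoc, Nat.succ_mul]

lemma Ray.first (R : Ray s x y ρ) (A : LangAPI s) (h : Lang s x y) (hne : x ≠ y) :
    ∃ p, 0 < p ∧ ∃ w : G, Tr ρ w p := by
  obtain ⟨u, -, b, h1, h2, h3, h4⟩ := A.twice x y h hne
  have a1 : Y.btw x (u • x) b := h2.trans_right h3
  have a2 : Y.dist x y ≤ Y.dist x (u • x) := (h2.trans_right' h3).dist_le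
  have a3 := dist_pos h2.lev1 hne
  refine ⟨Y.dist x (u • x), by omega, u, Y.dist x y, fun n hn => ?_⟩
  set p := Y.dist x (u • x)
  have b1 := R.uniq b h1 h2
  have b2 : u • x = ρ p := by
    refine a1.eq_of_dist (b1 ▸ R.mono _ _ (a1.dist_le)) (R.dist _).symm
  have b0 := (a1.trans_right' h4).dist_add
  rw [Forest.dist_smul] at b0
  have b3 : u • y = ρ (p + Y.dist x y) :=
    (a1.trans_right h4).eq_of_dist (b1 ▸ R.mono _ _ (b0 ▸ (a1.trans_right h4).dist_le))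
      (by rw [R.dist, b0])
  have c1 : Lang s x (u⁻¹ • ρ (n + p)) := by
    have := A.smul u⁻¹ _ _ (A.sub _ _ (ρ p) _ (R.lang (n + p))
      ⟨R.mono _ _ (by omega), btw_right (R.mono p (n + p) (by omega)).lev2⟩)
    rwa [← b2, inv_smul_smul] at this
  have c2 : Y.btw x y (u⁻¹ • ρ (n + p)) := by
    rw [← btw_smul u, smul_inv_smul, b2, b3]
    exact R.btw (by omega) (by omega)
  have c3 := R.uniq _ c1 c2
  have c4 := R.dist' (i := p) (j := n + p) (by omega)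
  rw [← Forest.dist_smul u, smul_inv_smul, b2, show Y.dist (ρ p) (ρ (n + p)) = n by omega] at c3
  rw [← c3, smul_inv_smul]

/-- an expanding self-map of the ray -/
lemma Ray.expand (R : Ray s x y ρ) (A : LangAPI s) (hT : s.TT) (h : Lang s x y) (hne : x ≠ y) :
    ∃ (L : ℕ) (c : G) (φ : ℕ → ℕ), (∀ n ≥ Y.dist x y, s.σ^[L] (ρ n) = c • ρ (φ n)) ∧
      ∀ n ≥ Y.dist x y, ∀ k, φ n + 4 * k ≤ φ (n + k) := by
  obtain ⟨e, rfl, he⟩ := exists_step (A.legal _ _ h).1 hne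
  obtain ⟨L, c, hL, -, h1, h2⟩ := A.recur _ _ e h he
  have k1 : ∀ n ≥ Y.dist e.src y, Y.btw (s.σ^[L] e.src) (s.σ^[L] e.tgt) (s.σ^[L] (ρ n)) :=
    fun n hn => (A.legal _ _ (R.lang n)).sa_btw ((R.ext n hn).trans_left he.btw_tgt) L
  have k2 : ∀ n ≥ Y.dist e.src y, Y.btw (s.σ^[L] e.src) (c • e.src) (s.σ^[L] (ρ n)) :=
    fun n hn => (k1 n hn).trans_left h1
  refine ⟨L, c, fun n => Y.dist (c • e.src) (s.σ^[L] (ρ n)), fun n hn => ?_, fun n hn k => ?_⟩
  · have c1 := A.smul c⁻¹ _ _ (A.sub _ _ (c • e.src) _ (A.iter L _ _ (R.lang n))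
      ⟨k2 n hn, btw_right (k2 n hn).lev2⟩)
    rw [inv_smul_smul] at c1
    have c2 : Y.btw e.src y (c⁻¹ • s.σ^[L] (ρ n)) := by
      rw [← btw_smul c, smul_inv_smul]
      exact ((k1 n hn).trans_left' h1).trans_left h2
    have c3 := R.uniq _ c1 c2
    rw [← Forest.dist_smul c, smul_inv_smul] at c3
    rw [← c3, smul_inv_smul]
  · have l := A.legal _ _ (R.lang (n + k))
    have m := R.mono n (n + k) (by omega)
    have c1 := ((l.sa_btw m L).trans_left' (k2 n hn)).dist_add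
    have c2 := hT.sa_exp_iter (l.sa_sub m (btw_right l.1)) L
    have c3 := R.dist' (i := n) (j := n + k) (by omega)
    have c4 : 4 ≤ 4 ^ L := by
      simpa using Nat.pow_le_pow_right (n := 4) (by norm_num) hL
    rw [show Y.dist (ρ n) (ρ (n + k)) = k by omega] at c2
    have := Nat.mul_le_mul_right k c4
    simp only
    omega

lemma Ray.conj (R : Ray s x y ρ) {L D : ℕ} {c : G} {φ : ℕ → ℕ}
    (h1 : ∀ n ≥ D, s.σ^[L] (ρ n) = c • ρ (φ n)) (h2 : ∀ n ≥ D, ∀ k, φ n + 4 * k ≤ φ (n + k))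
    {w : G} {p : ℕ} (h : Tr ρ w p) : ∃ q, 4 * p ≤ q ∧ Tr ρ (c⁻¹ * w * c) q := by
  obtain ⟨N, h⟩ := h
  have k : ∀ n ≥ N + D, (c⁻¹ * w * c) • ρ (φ n) = ρ (φ (n + p)) := fun n hn => by
    rw [mul_smul, mul_smul, ← h1 n (by omega), ← s.iter_smul, h n (by omega), h1 _ (by omega),
      inv_smul_smul]
  have a1 := h2 (N + D) (by omega) p
  refine ⟨φ (N + D + p) - φ (N + D), by omega, φ (N + D), fun m hm => ?_⟩
  have a2 := h2 (N + D) (by omega) m
  have a3 := h2 (N + D + p) (by omega) m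
  have b1 := (R.btw hm (show m ≤ φ (N + D + m) by omega)).smul (c⁻¹ * w * c)
  have b2 := Forest.dist_smul (c⁻¹ * w * c) (a := ρ (φ (N + D))) (b := ρ m)
  have b3 := Forest.dist_smul (c⁻¹ * w * c) (a := ρ (φ (N + D))) (b := ρ (φ (N + D + m)))
  rw [k _ le_rfl] at b1 b2 b3
  rw [k (N + D + m) (by omega), add_right_comm (N + D) m] at b1 b3
  have c1 := R.dist' hm
  have c2 := R.dist' (show φ (N + D) ≤ φ (N + D + m) by omega)
  have c3 := R.dist' (show φ (N + D + p) ≤ φ (N + D + p + m) by omega)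
  have c4 := R.dist' (show φ (N + D + p) ≤ m + (φ (N + D + p) - φ (N + D)) by omega)
  exact b1.eq_of_dist (R.btw (by omega) (by omega)) (by omega)

end AP

open AP

theorem stAP (hLANG : St_LANG) : St_AP := by
  classical
  intro G _ d hd Y s hT x y h hne
  have A := hLANG G d hd.surj Y s hT
  by_contra hc
  obtain ⟨ρ, R⟩ := exists_ray A h fun u v h1 h2 h3 h4 => by
    by_contra t
    rw [not_or] at t
    exact hc ⟨u, v, h1, h2, h3, h4, t⟩
  have ex := R.first A h hne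
  obtain ⟨hp, w, hw⟩ := Nat.find_spec ex
  have hmin := fun m => Nat.find_min ex (m := m)
  set p := Nat.find ex
  obtain ⟨L, c, φ, h1, h2⟩ := R.expand A hT h hne
  obtain ⟨q, hq, N', h3⟩ := R.conj h1 h2 hw
  obtain ⟨N, h4⟩ := hw.pow
  have e := Nat.div_add_mod' q p
  have k : ∀ n ≥ N + N', ((w ^ (q / p))⁻¹ * (c⁻¹ * w * c)) • ρ n = ρ (n + q % p) := fun n hn => by
    rw [mul_smul, h3 n (by omega), inv_smul_eq_iff, h4 _ _ (by omega)]
    congr 1
    omega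
  have r0 : q % p = 0 := by
    by_contra t
    exact hmin _ (Nat.mod_lt q hp) ⟨Nat.pos_of_ne_zero t, _, _, k⟩
  simp only [r0, add_zero] at k e
  have e1 : (w ^ (q / p))⁻¹ * (c⁻¹ * w * c) = 1 := by
    by_contra t
    have := R.inj (fix_unique t (k _ le_rfl) (k (N + N' + 1) (by omega))
      (R.mono _ _ (by omega)).lev2)
    omega
  have e2 : ¬ IsOfFinOrder w := fun t => by
    obtain ⟨n, t1, t2⟩ := t.exists_pow_eq_one
    have := h4 n N le_rfl
    rw [t2, one_smul] at this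
    have := R.inj this
    have := Nat.mul_pos t1 hp
    omega
  have e3 : 4 ≤ q / p := (Nat.le_div_iff_mul_le hp).2 hq
  have := no_bs hd.lerf e2 (c := c) (j := (q / p : ℕ))
    (by rw [zpow_natCast]; exact (inv_mul_eq_one.1 e1).symm)
  omega

end Pool.Agent.Lib.FBC.X3
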