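import Pool.Agent.Lib.FBC.FGG

/-!
Finite generation of the kernel of a character from an equivariant map that raises heights, and
growth of heights along chains when all cycles are positive.
-/

namespace Pool.Agent.Lib.FBC.Push

open Pool.Agent.Lib.MP_288210_al (LERF)

/-- a uniform constant on a finite set -/
lemma unif {α : Type*} {S : Set α} (hS : S.Finite) (P : α → ℕ → Prop)
    (mono : ∀ x C C', C ≤ C' → P x C → P x C') (ex : ∀ x, ∃ C, P x C) :
    ∃ C, ∀ x ∈ S, P x C := by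
  choose f hf using ex
  obtain ⟨C, hC⟩ := (hS.image f).bddAbove
  exact ⟨C, fun x hx => mono x _ _ (hC ⟨x, hx, rfl⟩) (hf x)⟩

variable {H : Type} [Group H] {V : Type} [MulAction H V]

/-- an equivariant height function -/
lemma exists_ht (ψ : Dg H) (h : ∀ (z : H) (x : V), z • x = x → ψ z = 1) :
    ∃ ht : V → ℤ, ∀ (z : H) x, ht (z • x) = dg ψ z + ht x := by
  have ex : ∀ x : V, ∃ z : H, z • (Quotient.mk (MulAction.orbitRel H V) x).out = x := fun x =>
    (MulAction.orbitRel H V).symm (Quotient.mk_out (s := MulAction.orbitRel H V) x)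
  choose k hk using ex
  refine ⟨fun x => dg ψ (k x), fun z x => ?_⟩
  have e : Quotient.mk (MulAction.orbitRel H V) (z • x) = Quotient.mk _ x :=
    Quotient.sound ⟨z, rfl⟩
  have h1 := hk (z • x)
  rw [e] at h1
  have h2 := h ((k (z • x))⁻¹ * (z * k x)) (Quotient.mk (MulAction.orbitRel H V) x).out (by
    rw [mul_smul, mul_smul, hk x, inv_smul_eq_iff, h1])
  rw [map_mul, map_inv, inv_mul_eq_one, map_mul] at h2
  simp [dg, h2]

section

variable (R : V → V → Prop) (ht : V → ℤ)

/-- connected inside the slab of heights between `a` and `b` -/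
def Con (a b : ℤ) : V → V → Prop :=
  Relation.ReflTransGen fun p q => R p q ∧ a ≤ ht p ∧ ht p ≤ b ∧ a ≤ ht q ∧ ht q ≤ b

variable {R ht}

lemma Con.mono {a b a' b' : ℤ} {x y : V} (h : Con R ht a b x y) (ha : a' ≤ a) (hb : b ≤ b') :
    Con R ht a' b' x y := by
  induction h with
  | refl => exact .refl
  | tail _ e ih => exact ih.tail ⟨e.1, by omega, by omega, by omega, by omega⟩

lemma Con.trans {a b : ℤ} {x y z : V} (h : Con R ht a b x y) (h' : Con R ht a b y z) :
    Con R ht a b x z := Relation.ReflTransGen.trans h h'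

lemma Con.symm (hs : ∀ x y, R x y → R y x) {a b : ℤ} {x y : V} (h : Con R ht a b x y) :
    Con R ht a b y x := by
  induction h with
  | refl => exact .refl
  | tail _ e ih => exact .head ⟨hs _ _ e.1, e.2.2.2.1, e.2.2.2.2, e.2.1, e.2.2.1⟩ ih

lemma Con.smul {ψ : Dg H} (hi : ∀ (g : H) x y, R x y → R (g • x) (g • y))
    (hh : ∀ (z : H) x, ht (z • x) = dg ψ z + ht x) {a b : ℤ} {x y : V} (h : Con R ht a b x y)
    (g : H) : Con R ht (dg ψ g + a) (dg ψ g + b) (g • x) (g • y) := by
  induction h with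
  | refl => exact .refl
  | tail _ e ih =>
    refine ih.tail ⟨hi _ _ _ e.1, ?_⟩
    rw [hh, hh]; omega

lemma exists_con {a : ℤ} {x y : V}
    (h : Relation.ReflTransGen (fun p q => R p q ∧ a ≤ ht p ∧ a ≤ ht q) x y) :
    ∃ C : ℕ, Con R ht a (a + C) x y := by
  induction h with
  | refl => exact ⟨0, .refl⟩
  | @tail p q _ e ih =>
    obtain ⟨C, ih⟩ := ih
    exact ⟨C + (ht p - a).toNat + (ht q - a).toNat, (ih.mono le_rfl (by omega)).tail
      ⟨e.1, by omega, by omega, by omega, by omega⟩⟩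

lemma exists_con' {a : ℤ} {x y : V} (h : Relation.ReflTransGen R x y) :
    ∃ C : ℕ, Con R ht (a - C) (a + C) x y := by
  induction h with
  | refl => exact ⟨0, .refl⟩
  | @tail p q _ e ih =>
    obtain ⟨C, ih⟩ := ih
    exact ⟨C + (ht p - a).natAbs + (ht q - a).natAbs, (ih.mono (by omega) (by omega)).tail
      ⟨e, by omega, by omega, by omega, by omega⟩⟩

end

lemma dg_ker {ψ : Dg H} {g : H} : g ∈ ψ.ker ↔ dg ψ g = 0 := Iff.rfl

/-- the stabilizer in the kernel of the component of `x` in a slab -/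
def band (ψ : Dg H) (R : V → V → Prop) (ht : V → ℤ) (hs : ∀ x y, R x y → R y x)
    (hi : ∀ (g : H) x y, R x y → R (g • x) (g • y))
    (hh : ∀ (z : H) x, ht (z • x) = dg ψ z + ht x) (a b : ℤ) (x : V) : Subgroup H where
  carrier := {g | dg ψ g = 0 ∧ Con R ht a b x (g • x)}
  one_mem' := ⟨by simp [dg], by rw [one_smul]; exact .refl⟩
  mul_mem' := by
    rintro g k ⟨h1, h2⟩ ⟨h3, h4⟩
    refine ⟨dg_ker.1 (ψ.ker.mul_mem h1 h3), h2.trans ?_⟩
    simpa [h1, mul_smul] using h4.smul hi hh g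
  inv_mem' := by
    rintro g ⟨h1, h2⟩
    have h3 : dg ψ g⁻¹ = 0 := dg_ker.1 (ψ.ker.inv_mem h1)
    exact ⟨h3, by simpa [h3] using (h2.symm hs).smul hi hh g⁻¹⟩

variable {ψ : Dg H} {R : V → V → Prop} {ht : V → ℤ} {hs : ∀ x y, R x y → R y x}
  {hi : ∀ (g : H) x y, R x y → R (g • x) (g • y)} {hh : ∀ (z : H) x, ht (z • x) = dg ψ z + ht x}

lemma mem_band {a b : ℤ} {x : V} {g : H} :
    g ∈ band ψ R ht hs hi hh a b x ↔ dg ψ g = 0 ∧ Con R ht a b x (g • x) := Iff.rfl

lemma band_fg {T : Set (V × V)} (hT : T.Finite) (hR : ∀ x y, R x y → ∃ k : H, (k • x, k • y) ∈ T)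
    (hst : ∀ x : V, (MulAction.stabilizer H x).FG) (a b : ℤ) (x : V) :
    (band ψ R ht hs hi hh a b x).FG := by
  set R' : V → V → Prop := fun p q =>
    (R p q ∧ a ≤ ht p ∧ ht p ≤ b ∧ a ≤ ht q ∧ ht q ≤ b) ∧ Con R ht a b x p with hR'
  have mem : ∀ (n : H) p, dg ψ n = 0 → Con R ht a b x p → Con R ht a b x (n • p) →
      n ∈ band ψ R ht hs hi hh a b x := fun n p h0 h1 h2 =>
    ⟨h0, h2.trans (by simpa [h0] using (h1.symm hs).smul hi hh n)⟩
  have st : ∀ p, Con R ht a b x p →
      (band ψ R ht hs hi hh a b x ⊓ MulAction.stabilizer H p).FG := fun p hp => by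
    rw [inf_eq_right.2 fun n (hn : n • p = p) =>
      mem n p (by have := hh n p; rw [hn] at this; omega) hp (by rwa [hn])]
    exact hst p
  have ex : ∀ t : (V × V) × ℤ, ∃ u : V × V, (Con R ht a b x u.1 ∧ Con R ht a b x u.2) ∧
      ∀ p q, R' p q → ht p = t.2 → ∀ k : H, (k • p, k • q) = t.1 →
        ht u.1 = t.2 ∧ ∃ k' : H, (k' • u.1, k' • u.2) = t.1 := fun t => by
    by_cases h : ∃ p q, R' p q ∧ ht p = t.2 ∧ ∃ k : H, (k • p, k • q) = t.1
    · obtain ⟨p, q, h1, h2, h3⟩ := h
      exact ⟨(p, q), ⟨h1.2, h1.2.tail h1.1⟩, fun _ _ _ _ _ _ => ⟨h2, h3⟩⟩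
    · exact ⟨(x, x), ⟨.refl, .refl⟩, fun p q h1 h2 k h3 => (h ⟨p, q, h1, h2, k, h3⟩).elim⟩
  choose u hu hu' using ex
  refine fgg _ R' x (u '' T ×ˢ Set.Icc a b) ((hT.prod (Set.finite_Icc a b)).image u)
    (fun k hk => eqvGen_of_rtg ?_) (fun p q h => ?_) (st x .refl) ?_
  · have : ∀ y, Con R ht a b x y → Relation.ReflTransGen R' x y := fun y hy => by
      induction hy with
      | refl => exact .refl
      | tail h e ih => exact ih.tail ⟨e, h⟩
    exact this _ hk.2
  · obtain ⟨k, hk⟩ := hR p q h.1.1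
    obtain ⟨h1, k', h2⟩ := hu' ((k • p, k • q), ht p) p q h rfl k rfl
    obtain ⟨h3, h4⟩ := Prod.ext_iff.1 h2
    have h5 : (k'⁻¹ * k) • p = (u ((k • p, k • q), ht p)).1 := by
      rw [mul_smul, inv_smul_eq_iff]; exact h3.symm
    have h6 : (k'⁻¹ * k) • q = (u ((k • p, k • q), ht p)).2 := by
      rw [mul_smul, inv_smul_eq_iff]; exact h4.symm
    refine ⟨k'⁻¹ * k, mem _ p ?_ h.2 (h5 ▸ (hu _).1), _, ⟨hk, h.1.2.1, h.1.2.2.1⟩,
      Prod.ext h5.symm h6.symm⟩
    have := hh (k'⁻¹ * k) p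
    rw [h5, h1] at this
    omega
  · rintro _ ⟨t, -, rfl⟩
    exact ⟨st _ (hu t).1, st _ (hu t).2⟩

/-- PUSH.  A LERF group acts on a connected graph with finitely many orbits of edges and finitely
generated stabilizers.  If some equivariant map raises the height of vertices and of edges, then
the kernel of the character is finitely generated. -/
theorem push_fg (hL : LERF H) (ψ : Dg H) (R : V → V → Prop) (hs : ∀ x y, R x y → R y x)
    (hi : ∀ (g : H) x y, R x y → R (g • x) (g • y)) (o : V)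
    (conn : ∀ x, Relation.ReflTransGen R o x) (T : Set (V × V)) (hT : T.Finite)
    (hR : ∀ x y, R x y → ∃ k : H, (k • x, k • y) ∈ T)
    (hst : ∀ x : V, (MulAction.stabilizer H x).FG) (ht : V → ℤ)
    (hh : ∀ (z : H) x, ht (z • x) = dg ψ z + ht x) (φ : V → V)
    (hφ : ∀ (g : H) x, φ (g • x) = g • φ x) (hup : ∀ x, ht x + 1 ≤ ht (φ x))
    (hedge : ∀ x y, R x y → Relation.ReflTransGen (fun p q => R p q ∧
      min (ht x) (ht y) + 1 ≤ ht p ∧ min (ht x) (ht y) + 1 ≤ ht q) (φ x) (φ y)) :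
    ψ.ker.FG := by
  classical
  have conn' : ∀ x y, Relation.ReflTransGen R x y := fun x y => by
    refine .trans ?_ (conn y)
    induction conn x with
    | refl => exact .refl
    | tail _ e ih => exact .head (hs _ _ e) ih
  set S : Set V := insert o (Prod.snd '' T) with hS
  have hSf : S.Finite := (hT.image _).insert o
  have hV : ∀ x, ∃ k : H, k • x ∈ S := fun x => by
    rcases (conn x).cases_tail with rfl | ⟨y, -, e⟩
    · exact ⟨1, by simp [hS]⟩
    · obtain ⟨k, hk⟩ := hR _ _ e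
      exact ⟨k, Or.inr ⟨_, hk, rfl⟩⟩
  obtain ⟨C₁, h₁⟩ := unif hSf
    (fun x C => Con R ht (ht x - C) (ht x + C) x (φ x) ∧ ht (φ x) ≤ ht x + C)
    (fun x C C' e h => ⟨h.1.mono (by omega) (by omega), by omega⟩) fun x => by
      obtain ⟨C, h⟩ := exists_con' (ht := ht) (a := ht x) (conn' x (φ x))
      exact ⟨C + (ht (φ x) - ht x).toNat, h.mono (by omega) (by omega), by omega⟩
  obtain ⟨C₂, h₂⟩ := unif hT
    (fun t C => R t.1 t.2 → Con R ht (min (ht t.1) (ht t.2) + 1) (min (ht t.1) (ht t.2) + C)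
      (φ t.1) (φ t.2) ∧ ht t.2 ≤ ht t.1 + C)
    (fun t C C' e h r => ⟨(h r).1.mono le_rfl (by omega), by have := (h r).2; omega⟩) fun t => by
      by_cases r : R t.1 t.2
      · obtain ⟨C, h⟩ := exists_con (hedge _ _ r)
        exact ⟨C + 1 + (ht t.2 - ht t.1).toNat, fun _ => ⟨h.mono le_rfl (by omega), by omega⟩⟩
      · exact ⟨0, fun r' => (r r').elim⟩
  obtain ⟨C, hC₁, hC₂⟩ : ∃ C : ℕ, C₁ ≤ C ∧ C₂ ≤ C := ⟨C₁ + C₂, by omega, by omega⟩
  have inv : ∀ k : H, dg ψ k⁻¹ = - dg ψ k := fun k => by simp [dg]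
  have g₁ : ∀ x, Con R ht (ht x - C) (ht x + C) x (φ x) ∧ ht (φ x) ≤ ht x + C := fun x => by
    obtain ⟨k, hk⟩ := hV x
    obtain ⟨e1, e2⟩ := h₁ _ hk
    have := e1.smul hi hh k⁻¹
    rw [hφ, inv_smul_smul, inv_smul_smul, hh, inv] at this
    rw [hφ, hh, hh] at e2
    exact ⟨this.mono (by omega) (by omega), by omega⟩
  have g₂ : ∀ x y, R x y → Con R ht (min (ht x) (ht y) + 1) (min (ht x) (ht y) + C) (φ x) (φ y) ∧
      ht y ≤ ht x + C := fun x y r => by
    obtain ⟨k, hk⟩ := hR x y r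
    obtain ⟨e1, e2⟩ := h₂ _ hk (hi k _ _ r)
    have := e1.smul hi hh k⁻¹
    simp only at this e2
    rw [hφ, hφ, inv_smul_smul, inv_smul_smul, hh, hh, inv] at this
    rw [hh, hh] at e2
    exact ⟨this.mono (by omega) (by omega), by omega⟩
  set P : ℤ → V → V := fun a x => if ht x ≤ a + C then φ x else x with hP
  have hPs : ∀ a (g : H) x, dg ψ g = 0 → P a (g • x) = g • P a x := fun a g x e => by
    simp only [hP, hh, e, zero_add, hφ]
    split_ifs <;> rfl
  have step : ∀ (a b : ℤ) x y, a + 3 * C ≤ b → Con R ht a b x y →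
      Con R ht (a + 1) b (P a x) (P a y) := by
    intro a b x y hb h
    induction h with
    | refl => exact .refl
    | @tail p q _ e ih =>
      refine ih.trans ?_
      obtain ⟨r, e1, e2, e3, e4⟩ := e
      have a1 := g₂ p q r
      have a2 := (g₂ q p (hs _ _ r)).2
      simp only [hP]
      split_ifs with c1 c2 c2
      · exact a1.1.mono (by omega) (by omega)
      · exact (a1.1.mono (by omega) (by omega)).trans
          (((g₁ q).1.symm hs).mono (by omega) (by omega))
      · exact ((g₁ p).1.mono (by omega) (by omega)).trans (a1.1.mono (by omega) (by omega))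
      · exact .single ⟨r, by omega, e2, by omega, e4⟩
  set a₀ : ℤ := ht o - C with ha₀
  let x : ℕ → V := fun n => Nat.rec o (fun n y => P (a₀ + n) y) n
  have x0 : x 0 = o := rfl
  have xs : ∀ n, x (n + 1) = P (a₀ + n) (x n) := fun _ => rfl
  have hx : ∀ n : ℕ, a₀ + n ≤ ht (x n) ∧ ht (x n) ≤ a₀ + n + 2 * C := fun n => by
    induction n with
    | zero => rw [x0]; omega
    | succ n ih =>
      have := hup (x n)
      have := (g₁ (x n)).2
      rw [xs]
      simp only [hP]
      split_ifs <;> omega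
  let B : ℕ → Subgroup H := fun n => band ψ R ht hs hi hh (a₀ + n) (a₀ + n + 3 * C) (x n)
  have hB : Monotone B := monotone_nat_of_le_succ fun n g hg => ⟨hg.1, by
    have := step _ _ _ _ le_rfl hg.2
    rw [hPs _ _ _ hg.1, ← xs] at this
    exact this.mono (by push_cast; omega) (by push_cast; omega)⟩
  have hN : ∀ g ∈ ψ.ker, ∃ n, g ∈ B n := fun g hg => by
    have hg0 : dg ψ g = 0 := hg
    obtain ⟨m, hm⟩ := exists_con' (ht := ht) (a := a₀) (conn (g • o))
    have h1 : ∀ j : ℕ, Con R ht (a₀ - j) (a₀ + m + 3 * C) o (g • o) →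
        Con R ht a₀ (a₀ + m + 3 * C) o (g • o) := fun j => by
      induction j with
      | zero => simp
      | succ j ih =>
        intro h
        have := step _ _ _ _ (by omega) h
        have e : P (a₀ - (j + 1 : ℕ)) o = o := if_neg (by omega)
        rw [hPs _ _ _ hg0, e] at this
        exact ih (this.mono (by omega) le_rfl)
    have h2 : ∀ n ≤ m, Con R ht (a₀ + n) (a₀ + m + 3 * C) (x n) (g • x n) := fun n hn => by
      induction n with
      | zero => simpa [x0] using h1 m (hm.mono le_rfl (by omega))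
      | succ n ih =>
        have := step _ _ _ _ (by omega) (ih (by omega))
        rw [hPs _ _ _ hg0, ← xs] at this
        exact this.mono (by push_cast; omega) le_rfl
    exact ⟨m, hg0, h2 m le_rfl⟩
  choose k hk using hV
  have : Finite S := hSf
  obtain ⟨t, htt⟩ := Finite.exists_infinite_fiber (fun n : ℕ =>
    ((⟨k (x n) • x n, hk _⟩, ⟨ht (x n) - (a₀ + n), by have := hx n; constructor <;> omega⟩) :
      S × Set.Icc (0 : ℤ) (2 * C)))
  have hinf := Set.infinite_coe_iff.1 htt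
  obtain ⟨i, hi'⟩ := hinf.nonempty
  have : ψ.ker = B i := le_antisymm (fun g hg => by
    obtain ⟨n, hn⟩ := hN g hg
    obtain ⟨j, hj, hlt⟩ := hinf.exists_gt (max n i)
    have e := hj.trans hi'.symm
    have e1 : k (x j) • x j = k (x i) • x i := congrArg (fun t => t.1.1) e
    have e2 : ht (x j) - (a₀ + j) = ht (x i) - (a₀ + i) := congrArg (fun t => t.2.1) e
    set u := (k (x j))⁻¹ * k (x i) with hu
    have e3 : u • x i = x j := by rw [hu, mul_smul, inv_smul_eq_iff, e1]
    have e4 := hh u (x i)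
    rw [e3] at e4
    have tr : ∀ b ∈ B j, u⁻¹ * b * u ∈ B i := fun b hb => ⟨by
      have := hb.1
      simp only [dg, map_mul, map_inv, toAdd_mul, toAdd_inv] at this ⊢
      omega, by
      have := hb.2.smul hi hh u⁻¹
      rw [← e3, inv_smul_smul, inv, ← mul_smul, ← mul_smul] at this
      exact this.mono (by omega) (by omega)⟩
    have := noasc hL (band_fg hT hR hst _ _ _) (t := u)
      (fun b hb => tr b (hB (by omega : i ≤ j) hb)) _ (tr g (hB (by omega : n ≤ j) hn))
    simpa [mul_assoc] using this) fun g hg => hg.1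
  rw [this]
  exact band_fg hT hR hst _ _ _

/-- Chains in a graph with finitely many orbits of vertices.  If steps lower the height by at most
`C` and cycles raise it by at least `ε`, then a chain of length `n` raises it by about
`ε n / m`. -/
theorem grow {α ι Z : Type*} [Finite ι] (c : α → ι) (tr : Z → α → α) (w : Z → ℤ) (h : α → ℤ)
    (Q : ℕ → α → α → Prop) (orb : ∀ x y, c x = c y → ∃ z, y = tr z x)
    (hh : ∀ z x, h (tr z x) = w z + h x) (inv : ∀ n z x y, Q n x y → Q n (tr z x) (tr z y))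
    (refl : ∀ x, Q 0 x x) (zero : ∀ x y, Q 0 x y → x = y)
    (dec : ∀ n x y, Q (n + 1) x y → ∃ u, Q 1 x u ∧ Q n u y)
    (comp : ∀ n x u y, Q 1 x u → Q n u y → Q (n + 1) x y) (C : ℕ)
    (hC : ∀ x y, Q 1 x y → h x ≤ h y + C) (ε : ℕ)
    (cyc : ∀ n z x, 0 < n → Q n x (tr z x) → ε ≤ w z) :
    ∃ m : ℕ, 0 < m ∧ ∀ n x y, Q n x y → (ε * n : ℤ) ≤ m * (h y - h x) + ε * m + m * m * C := by
  have comp' : ∀ n k x u y, Q n x u → Q k u y → Q (k + n) x y := fun n k => by
    induction n with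
    | zero => intro x u y h1 h2; rwa [zero _ _ h1]
    | succ n ih =>
      intro x u y h1 h2
      obtain ⟨v, h3, h4⟩ := dec _ _ _ h1
      exact comp _ _ _ _ h3 (ih _ _ _ h4 h2)
  have low : ∀ n x y, Q n x y → h x ≤ h y + n * C := fun n => by
    induction n with
    | zero => intro x y e; simp [zero _ _ e]
    | succ n ih =>
      intro x y e
      obtain ⟨v, h3, h4⟩ := dec _ _ _ e
      have := hC _ _ h3
      have := ih _ _ h4
      push_cast; linarith
  have := Fintype.ofFinite ι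
  refine ⟨Fintype.card ι + 1, Nat.succ_pos _, fun n => ?_⟩
  set m := Fintype.card ι + 1 with hm
  induction n using Nat.strong_induction_on with
  | _ n ih =>
  intro x y e
  by_cases hn : n ≤ m
  · have h1 := low _ _ _ e
    have h2 : (n : ℤ) ≤ m := by exact_mod_cast hn
    have h3 : (n : ℤ) * C ≤ m * C := by gcongr
    have h4 : (ε : ℤ) * n ≤ ε * m := by gcongr
    have h5 : (0 : ℤ) ≤ m * (h y - h x + m * C) := mul_nonneg (by positivity) (by linarith)
    linarith
  have ex : ∀ r v, ∃ u, Q (r + 1) v y → Q 1 v u ∧ Q r u y := fun r v => by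
    by_cases q : Q (r + 1) v y
    · obtain ⟨u, hu⟩ := dec _ _ _ q
      exact ⟨u, fun _ => hu⟩
    · exact ⟨v, fun q' => (q q').elim⟩
  choose nx hnx using ex
  let s : ℕ → α := fun k => Nat.rec x (fun k v => nx (n - (k + 1)) v) k
  have ss : ∀ k, s (k + 1) = nx (n - (k + 1)) (s k) := fun _ => rfl
  have s1 : ∀ k ≤ n, Q (n - k) (s k) y := fun k hk => by
    induction k with
    | zero => exact e
    | succ k ih' =>
      have := ih' (by omega)
      rw [show n - k = n - (k + 1) + 1 by omega] at this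
      exact (hnx _ _ this).2
  have s2 : ∀ i d, i + d ≤ n → Q d (s i) (s (i + d)) := fun i d hd => by
    induction d with
    | zero => exact refl _
    | succ d ih' =>
      have := s1 (i + d) (by omega)
      rw [show n - (i + d) = n - (i + d + 1) + 1 by omega] at this
      rw [add_comm d 1]
      exact comp' _ _ _ _ _ (ih' (by omega)) (by rw [add_comm 1 d]; exact (hnx _ _ this).1)
  obtain ⟨i, j, hij, hc⟩ : ∃ i j : Fin m, i < j ∧ c (s i) = c (s j) := by
    obtain ⟨i, j, h1, h2⟩ := Fintype.exists_ne_map_eq_of_card_lt (fun i : Fin m => c (s i))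
      (by simp [hm])
    rcases lt_or_gt_of_ne h1 with h3 | h3
    exacts [⟨i, j, h3, h2⟩, ⟨j, i, h3, h2.symm⟩]
  obtain ⟨z, hz⟩ := orb _ _ hc
  have hij' : (i : ℕ) < j := hij
  have hj := j.2
  have c1 := s2 i (j - i) (by omega)
  rw [show (i : ℕ) + (j - i) = j by omega, hz] at c1
  have c2 := cyc _ _ _ (by omega) c1
  have c3 := inv _ z _ _ (s2 0 i (by omega))
  rw [zero_add, ← hz] at c3
  have c4 := ih _ (by omega) _ _ (comp' _ _ _ _ _ c3 (s1 j (by omega)))
  have c5 : h (tr z (s 0)) = w z + h x := hh z x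
  have c6 : (n : ℤ) - m ≤ ((n - j + i : ℕ) : ℤ) := by omega
  have c7 : (ε : ℤ) * (n - m) ≤ ε * ((n - j + i : ℕ) : ℤ) := by gcongr
  have c8 : (m : ℤ) * ε ≤ m * w z := by gcongr
  rw [c5] at c4
  linarith

end Pool.Agent.Lib.FBC.Push
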