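import Pool.Agent.Lib.FBC.Blue0
import Pool.Agent.Lib.FBC.LH
import Pool.Agent.Lib.FBC.EM
import Pool.Agent.Lib.FBC.X3.Push

/-!
A class that is positive on all forward cycles has finitely generated kernel.
-/

namespace Pool.Agent.Lib.FBC

open Forest

variable {G : Type} [Group G] {d : Dg G} {Y : Forest d} {s : Flow Y}

namespace Push

lemma fg_stab (L : Subgroup G) [L.FiniteIndex] {V : Type} [MulAction G V] (a : V)
    (h : (MulAction.stabilizer G a).FG) : (MulAction.stabilizer L a).FG := by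
  have h1 := fg_inf_of_finiteIndex L _ h
  have e : (MulAction.stabilizer L a).map L.subtype = L ⊓ MulAction.stabilizer G a := by
    ext x
    exact ⟨by rintro ⟨y, hy, rfl⟩; exact ⟨y.2, hy⟩, fun hx => ⟨⟨x, hx.1⟩, hx.2, rfl⟩⟩
  rw [← e, ← Group.fg_iff_subgroup_fg] at h1
  rw [← Group.fg_iff_subgroup_fg]
  exact Group.fg_of_surjective
    (f := ((MulAction.stabilizer L a).equivMapOfInjective _ L.subtype_injective).symm.toMonoidHom)
    (MulEquiv.surjective _)

lemma exists_desc (hT : s.TT) (n : ℕ) (e : Y.Dir) : ∃ e', s.Desc n e e' := by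
  induction n with
  | zero => exact ⟨e, Forest.cross_self e⟩
  | succ n ih =>
    obtain ⟨e', h⟩ := ih
    obtain ⟨e'', -, -, -, -, h', -⟩ := hT.prim e' hT.ne.some
    exact ⟨e'', by rw [add_comm]; exact hT.lh_trans h h'.1⟩

/-- heights of the two ends of a dart differ by a bounded amount -/
lemma ht_dart (L : Subgroup G) [L.FiniteIndex] (ψ : Dg L) (ht : Y.V → ℤ)
    (hh : ∀ (z : L) x, ht (z • x) = dg ψ z + ht x) :
    ∃ C : ℕ, ∀ e : Y.Dir, ht e.src ≤ ht e.tgt + C := by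
  obtain ⟨S, hS⟩ := finite_dir_orbits (Y := Y) L
  obtain ⟨C, hC⟩ := unif S.finite_toSet (fun e C => ht e.src ≤ ht e.tgt + C)
    (fun e C C' _ _ => by omega) fun e => ⟨(ht e.src - ht e.tgt).toNat, by omega⟩
  refine ⟨C, fun e => ?_⟩
  obtain ⟨g, hg, h⟩ := hS e
  have := hC _ h
  have h1 := hh ⟨g, hg⟩ e.src
  have h2 := hh ⟨g, hg⟩ e.tgt
  rw [src_tr, tgt_tr] at this
  change ht (g • _) = _ at h1 h2
  omega

/-- growth of heights along descendants when all cycles have weight at least `ε` -/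
theorem desc_grow (hT : s.TT) (L : Subgroup G) [L.FiniteIndex] (ψ : Dg L) (ht : Y.V → ℤ)
    (hh : ∀ (z : L) x, ht (z • x) = dg ψ z + ht x) (ε : ℕ)
    (cyc : ∀ (z : L) (n : ℕ) (e : Y.Dir), 0 < n → s.Desc n e (e.tr z) → ε ≤ dg ψ z) :
    ∃ m C : ℕ, 0 < m ∧ ∀ n e e', s.Desc n e e' →
      (ε * n : ℤ) ≤ m * (ht e'.src - ht e.src) + C := by
  obtain ⟨S, hS⟩ := finite_dir_orbits (Y := Y) L
  obtain ⟨C, hC⟩ := unif S.finite_toSet
    (fun e C => ∀ e', s.Desc 1 e e' → ht e.src ≤ ht e'.src + C)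
    (fun e C C' _ h e' h' => by have := h e' h'; omega) fun e => by
      obtain ⟨C, hC⟩ := unif (s.finite_desc 1 e) (fun e' C => ht e.src ≤ ht e'.src + C)
        (fun e C C' _ _ => by omega) fun e' => ⟨(ht e.src - ht e'.src).toNat, by omega⟩
      exact ⟨C, hC⟩
  choose k hk hk' using hS
  have hs : ∀ (z : L) (e : Y.Dir), ht (e.tr (z : G)).src = dg ψ z + ht e.src := fun z e => by
    rw [src_tr]; exact hh z _
  obtain ⟨m, hm, h⟩ := grow (fun e : Y.Dir => (⟨e.tr (k e), hk' e⟩ : S))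
    (fun (z : L) (e : Y.Dir) => e.tr (z : G)) (fun z => dg ψ z) (fun e => ht e.src) s.Desc
    (fun x y e => ⟨⟨(k y)⁻¹ * k x, L.mul_mem (L.inv_mem (hk y)) (hk x)⟩, by
      have e' : x.tr (k x) = y.tr (k y) := congrArg Subtype.val e
      show y = x.tr _
      rw [← tr_tr, e', tr_tr, inv_mul_cancel, tr_one]⟩)
    hs (fun n z x y e => e.lh_tr z) Forest.cross_self (fun x y e => (Flow.lh_desc_zero e).symm)
    (fun n x y e => s.cover_dir n e) (fun n x u y e e' => hT.lh_trans e e') C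
    (fun x y e => by
      have := hC _ (hk' x) _ (e.lh_tr (k x))
      have h1 := hs ⟨k x, hk x⟩ x
      have h2 := hs ⟨k x, hk x⟩ y
      simp only at h1 h2 ⊢
      omega) ε fun n z x hn e => cyc z n x hn e
  exact ⟨m, ε * m + m * m * C, hm, fun n e e' q => by
    have := h n e e' q
    push_cast; linarith⟩

lemma geo_path {a b : Y.V} (h : Y.lev a = Y.lev b) : Relation.ReflTransGen
    (fun p q => ∃ e : Y.Dir, Y.Cross a b e ∧ e.src = p ∧ e.tgt = q) a b := by
  have : Y.btw a a b → _ := dir_ind (P := fun x => Y.btw a x b → Relation.ReflTransGen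
    (fun p q => ∃ e : Y.Dir, Y.Cross a b e ∧ e.src = p ∧ e.tgt = q) x b) (fun _ => .refl)
    (fun e he ih t => .head ⟨e, he.extend_left t, rfl, rfl⟩ (ih (he.extend_left t).btw_tgt)) h
  exact this (btw_left h)

lemma rtg_imp {α : Type*} {R R' : α → α → Prop} (h : ∀ x y, R x y → R' x y) {x y : α}
    (e : Relation.ReflTransGen R x y) : Relation.ReflTransGen R' x y := by
  induction e with
  | refl => exact .refl
  | tail _ e ih => exact ih.tail (h _ _ e)

end Push

open Push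

theorem stASC (hFGV : St_FGV) : St_ASC := by
  intro G _ d hF Y s hT L hL ψ hE hcyc
  obtain ⟨ht, hh⟩ := exists_ht (V := Y.V) ψ fun z x e => hE z ⟨x, e⟩
  obtain ⟨C₁, h₁⟩ := ht_dart L ψ ht hh
  obtain ⟨m, C, hm, hg⟩ := desc_grow hT L ψ ht hh 1 fun z n e hn q => hcyc z n e hn q
  set n := m * (C₁ + 1) + C with hn
  have up : ∀ e e', s.Desc n e e' → ht e.src + 1 ≤ ht e'.src ∧ ht e.src + 1 ≤ ht e'.tgt := by
    intro e e' q
    have h1 := hg n e e' q
    have h2 := h₁ e'
    have h3 : (m : ℤ) * (C₁ + 1) ≤ m * (ht e'.src - ht e.src) := by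
      rw [hn] at h1; push_cast at h1; linarith
    have := le_of_mul_le_mul_left h3 (by exact_mod_cast hm)
    omega
  have hup : ∀ x, ht x + 1 ≤ ht (s.σ^[n] x) := fun x => by
    obtain ⟨e, rfl⟩ := exists_dir_at hF.surj hT.ne x
    obtain ⟨e', q⟩ := exists_desc hT n e
    obtain ⟨e'', h1, h2⟩ := exists_step q.lev q.ne
    exact h1 ▸ (up e e'' h2).1
  set R : Y.V → Y.V → Prop := fun x y => Adj x y ∨ y = s.σ x ∨ x = s.σ y with hR
  have hs : ∀ x y, R x y → R y x := fun x y e => e.imp Adj.symm Or.symm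
  have c1 : ∀ x y, Y.lev x = Y.lev y → Relation.ReflTransGen R x y := fun x y e =>
    rtg_imp (fun _ _ => Or.inl) (conn' e)
  have c2 : ∀ k x, Relation.ReflTransGen R x (s.σ^[k] x) ∧
      Relation.ReflTransGen R (s.σ^[k] x) x := fun k x => by
    induction k with
    | zero => exact ⟨.refl, .refl⟩
    | succ k ih =>
      rw [Function.iterate_succ_apply']
      exact ⟨ih.1.tail (.inr (.inl rfl)), .head (.inr (.inr rfl)) ih.2⟩
  obtain ⟨S, hS⟩ := finite_dir_orbits (Y := Y) L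
  obtain ⟨S', hS'⟩ := finite_vert_orbits (Y := Y) hF.surj hT.ne L
  refine push_fg (hF.lerf.of_injective L.subtype L.subtype_injective) ψ R hs (fun g x y e => ?_)
    (Y.en hT.ne.some false) (fun x => ?_)
    ((fun e : Y.Dir => (e.src, e.tgt)) '' S ∪ ((fun a => (a, s.σ a)) '' S' ∪
      (fun a => (s.σ a, a)) '' S'))
    ((S.finite_toSet.image _).union ((S'.finite_toSet.image _).union (S'.finite_toSet.image _)))
    (fun x y e => ?_) (fun x => fg_stab L x (hFGV G d hF.fg Y x)) ht hh s.σ^[n]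
    (fun g x => s.iter_smul n g x) hup fun x y e => ?_
  · rcases e with e | rfl | rfl
    exacts [.inl (e.smul g), .inr (.inl (s.σ_smul g _).symm), .inr (.inr (s.σ_smul g _).symm)]
  · rcases le_total 0 (Y.lev x) with h | h
    · exact (c2 (Y.lev x).toNat _).1.trans (c1 _ _ (by rw [s.lev_iter, Y.lev_en]; omega))
    · exact (c1 _ _ (by rw [s.lev_iter, Y.lev_en]; omega)).trans (c2 (-Y.lev x).toNat _).2
  · rcases e with e' | rfl | rfl
    · obtain ⟨e, rfl, rfl⟩ := adj_iff.1 e'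
      obtain ⟨g, hg, h⟩ := hS e
      exact ⟨⟨g, hg⟩, .inl ⟨_, h, by simp⟩⟩
    · obtain ⟨g, hg, h⟩ := hS' x
      exact ⟨⟨g, hg⟩, .inr (.inl ⟨_, h, by simp⟩)⟩
    · obtain ⟨g, hg, h⟩ := hS' y
      exact ⟨⟨g, hg⟩, .inr (.inr ⟨_, h, by simp⟩)⟩
  · have hx := hup x
    have hy := hup y
    rcases e with e₀ | rfl | rfl
    · obtain ⟨e, rfl, rfl⟩ := adj_iff.1 e₀
      refine rtg_imp ?_ (geo_path (s.lev_iter_eq n (lev_src_tgt e)))
      rintro _ _ ⟨e', q, rfl, rfl⟩
      have := up e e' q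
      exact ⟨.inl (adj_dir e'), by omega, by omega⟩
    · exact .single ⟨.inr (.inl (Function.Commute.iterate_self _ n _)), by omega, by omega⟩
    · exact .single ⟨.inr (.inr (Function.Commute.iterate_self _ n _)), by omega, by omega⟩

end Pool.Agent.Lib.FBC
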