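import Pool.Agent.Lib.FBC.Blue0
import Pool.Agent.Lib.FBC.Sand

/-!
A nonzero class on the boundary of the cone has infinitely generated kernel.
-/

namespace Pool.Agent.Lib.FBC.CURT

open Forest FBC.Flow

variable {G : Type} [Group G] {d : Dg G} {Y : Forest d} {s : Flow Y}

/-- a function on the group that extends `ψ` -/
lemma exists_pot (L : Subgroup G) (ψ : Dg L) :
    ∃ Ψ : G → ℤ, ∀ (h : L) g, Ψ (h * g) = dg ψ h + Ψ g := by
  have hm : ∀ g : G, g * (QuotientGroup.mk g⁻¹ : G ⧸ L).out ∈ L := fun g => by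
    simpa using QuotientGroup.eq.1 (QuotientGroup.out_eq' (QuotientGroup.mk g⁻¹ : G ⧸ L)).symm
  refine ⟨fun g => dg ψ ⟨_, hm g⟩, fun h g => ?_⟩
  have e : (QuotientGroup.mk ((h : G) * g)⁻¹ : G ⧸ L) = QuotientGroup.mk g⁻¹ := by
    rw [mul_inv_rev]; exact QuotientGroup.mk_mul_of_mem _ (L.inv_mem h.2)
  rw [← dg_mul]
  exact congrArg (dg ψ) (Subtype.ext (by simp only [e, Subgroup.coe_mul, mul_assoc]))

lemma pot_ind {β : Type} (hT : s.TT) (o : Y.Dir → β) (Ψ : Y.Dir → ℤ) (B : ℕ)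
    (h1 : ∀ x y, s.Desc 1 x y → Ψ x - B ≤ Ψ y)
    (h2 : ∀ n x y, 0 < n → s.Desc n x y → o x = o y → Ψ x ≤ Ψ y) (x : Y.Dir) (n : ℕ) :
    ∀ y, s.Desc n x y → ∃ S : Finset β, Ψ x - B * S.card ≤ Ψ y ∧
      ∀ b ∈ S, ∃ v m, o v = b ∧ s.Desc m v y ∧ Ψ x - B * S.card ≤ Ψ v := by
  classical
  induction n with
  | zero => exact fun y h => ⟨∅, by simp [lh_desc_zero h], by simp⟩
  | succ n ih =>
    intro y h
    obtain ⟨e, a1, a2⟩ := s.cover_dir 1 (a := s.σ^[n] x.src) (b := s.σ^[n] x.tgt) (e' := y)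
      (by simpa only [Desc, Function.iterate_succ_apply', Function.iterate_zero, id] using h)
    obtain ⟨S, b1, b2⟩ := ih e a1
    by_cases hy : o y ∈ S
    · obtain ⟨v, m, c1, c2, c3⟩ := b2 _ hy
      refine ⟨S, c3.trans (h2 _ _ _ (by omega) (hT.lh_trans c2 a2) c1), fun b hb => ?_⟩
      obtain ⟨v, m, c1, c2, c3⟩ := b2 _ hb
      exact ⟨v, _, c1, hT.lh_trans c2 a2, c3⟩
    · have c0 := h1 _ _ a2
      have c4 : Ψ x - B * (insert (o y) S).card ≤ Ψ y := by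
        rw [Finset.card_insert_of_notMem hy]; push_cast; linarith
      refine ⟨insert (o y) S, c4, fun b hb => ?_⟩
      rcases Finset.mem_insert.1 hb with rfl | hb
      · exact ⟨y, 0, rfl, cross_self y, c4⟩
      · obtain ⟨v, m, c1, c2, c3⟩ := b2 _ hb
        refine ⟨v, _, c1, hT.lh_trans c2 a2, ?_⟩
        rw [Finset.card_insert_of_notMem hy]; push_cast; nlinarith

/-- the potential drops a bounded amount along descendants -/
lemma pot_low (hT : s.TT) (L : Subgroup G) [L.FiniteIndex] (ψ : Dg L) (Ψ : G → ℤ)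
    (hΨ : ∀ (h : L) g, Ψ (h * g) = dg ψ h + Ψ g)
    (hp : ∀ (z : L) (n : ℕ) (e : Y.Dir), 0 < n → s.Desc n e (e.tr z) → 0 ≤ dg ψ z) :
    ∃ C : ℤ, ∀ n x y, s.Desc n x y → Ψ x.1.g - C ≤ Ψ y.1.g := by
  obtain ⟨S, hS⟩ := finite_dir_orbits (Y := Y) L
  have hf : {p : Y.Dir × Y.Dir | p.1 ∈ S ∧ s.Desc 1 p.1 p.2}.Finite :=
    (S.finite_toSet.biUnion fun e _ => (s.finite_desc 1 e).image fun e' => (e, e')).subset
      fun p hp => Set.mem_biUnion hp.1 ⟨p.2, hp.2, rfl⟩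
  obtain ⟨B, hB⟩ := (hf.image fun p => (Ψ p.1.1.g - Ψ p.2.1.g).toNat).bddAbove
  have := Fintype.ofFinite (G ⧸ L)
  refine ⟨B * Fintype.card ((G ⧸ L) × Y.I × Bool), fun n x y h => ?_⟩
  refine (pot_ind hT (fun e => ((QuotientGroup.mk e.1.g⁻¹ : G ⧸ L), e.1.i, e.2))
    (fun e => Ψ e.1.g) B (fun x y h => ?_) (fun n x y hn h e => ?_) x n y h).elim
    fun T ⟨h1, _⟩ => ?_
  rotate_right
  · have : (T.card : ℤ) ≤ Fintype.card ((G ⧸ L) × Y.I × Bool) := by exact_mod_cast T.card_le_univ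
    nlinarith
  · obtain ⟨g, hg, hx⟩ := hS x
    have := hB ⟨(x.tr g, y.tr g), ⟨hx, h.lh_tr g⟩, rfl⟩
    have e1 := hΨ ⟨g, hg⟩ x.1.g
    have e2 := hΨ ⟨g, hg⟩ y.1.g
    simp only [tr_fst, smul_g] at this e1 e2
    omega
  · simp only [Prod.mk.injEq, QuotientGroup.eq, inv_inv] at e
    have hz : y.1.g * x.1.g⁻¹ ∈ L := by simpa using L.inv_mem e.1
    have e1 : x.tr (y.1.g * x.1.g⁻¹) = y := Prod.ext (eq_smul_of_i e.2.1).symm e.2.2
    have e2 := hp ⟨_, hz⟩ n x hn (by rwa [e1])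
    have e3 := hΨ ⟨_, hz⟩ x.1.g
    simp only [inv_mul_cancel_right] at e3
    omega

section tree

variable {a : Y.Dir} {f : G}

lemma pow_mem (hH : (a.tr f).H ⊆ a.H) {x : Y.V} (hx : x ∈ a.H) (k : ℕ) : f ^ k • x ∈ a.H := by
  induction k with
  | zero => simpa using hx
  | succ k ih => rw [pow_succ', mul_smul]; exact hH ((smul_mem_H f).2 ih)

lemma cross_of {g : G} {x y : Y.V} (l : Y.lev y = Y.lev x) (hx : g • x ∈ a.H) (hy : g • y ∉ a.H) :
    a.tr g⁻¹ ∈ {e | Y.Cross y x e} := by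
  have : Y.Cross (g • y) (g • x) a :=
    ⟨mem_rv_H_of_not (by rw [← H_lev hx, lev_smul', lev_smul', l]) hy, hx⟩
  simpa using this.smul g⁻¹

lemma absorb (hf : ¬ IsOfFinOrder f) (hH : (a.tr f).H ⊆ a.H) {y : Y.V}
    (l : Y.lev y = Y.lev a.src) : ∃ k : ℕ, f ^ k • y ∈ a.H := by
  by_contra hc
  push Not at hc
  obtain ⟨i, j, h1, h2⟩ := (finite_tr_mem a (finite_cross y a.tgt)).exists_lt_map_eq_of_forall_mem
    (f := fun k : ℕ => (f ^ k)⁻¹)
    fun k => cross_of (l.trans (lev_src_tgt a)) (pow_mem hH (tgt_mem_H a) k) (hc k)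
  exact h1.ne (injective_pow_iff_not_isOfFinOrder.2 hf (inv_injective h2))

lemma alt (hf : ¬ IsOfFinOrder f) (hH : (a.tr f).H ⊆ a.H) {w : G} (hw : dg d w = 0) {y : Y.V}
    (l : Y.lev y = Y.lev a.src) : (∃ k : ℕ, ∀ m : ℕ, (f ^ k * w ^ m) • y ∈ a.H) ∨
      ∃ p : ℕ, 0 < p ∧ ∃ q : ℤ, f ^ p = w ^ q := by
  refine or_iff_not_imp_left.2 fun hc => ?_
  push Not at hc
  obtain ⟨k0, hk⟩ := absorb hf hH l
  have key : ∀ k : ℕ, ∃ j : ℕ, a.tr (f ^ (k + k0) * w ^ j)⁻¹ ∈ {e | Y.Cross (w • y) y e} := by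
    intro k
    obtain ⟨m, hm⟩ := hc (k + k0)
    induction m with
    | zero => exact (hm (by simpa [pow_add, mul_smul] using pow_mem hH hk k)).elim
    | succ m ih =>
      by_cases t : (f ^ (k + k0) * w ^ m) • y ∈ a.H
      · exact ⟨m, cross_of (by simp [lev_smul', hw]) t (by rwa [← mul_smul, mul_assoc, ← pow_succ])⟩
      · exact ih t
  choose j hj using key
  obtain ⟨i, i', h1, h2⟩ := (finite_tr_mem a (finite_cross (w • y) y)).exists_lt_map_eq_of_forall_mem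
    (f := fun k : ℕ => (f ^ (k + k0) * w ^ j k)⁻¹) hj
  obtain ⟨p, rfl⟩ := Nat.exists_eq_add_of_lt h1
  refine ⟨p + 1, by omega, (j i : ℤ) - j (i + p + 1), ?_⟩
  have h3 := inv_injective h2
  rw [show i + p + 1 + k0 = i + k0 + (p + 1) by omega, pow_add _ _ (p + 1), mul_assoc,
    mul_right_inj] at h3
  rw [zpow_sub, zpow_natCast, zpow_natCast, h3, mul_inv_cancel_right]

end tree

/-- every half-tree contains a half-tree that is pushed into itself -/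
lemma exists_hyp (hT : s.TT) (L : Subgroup G) [L.FiniteIndex] (q : Y.Dir) :
    ∃ (a : Y.Dir) (f : L), (f : G) ≠ 1 ∧ dg d f = 0 ∧ (a.tr (f : G)).H ⊆ a.H ∧ a.H ⊆ q.H := by
  obtain ⟨S, hS⟩ := finite_dir_orbits (Y := Y) L
  choose γ h1 h2 using hS
  obtain ⟨x, y, -, a2, -, a4⟩ := hT.legal_ext q (S.card + 1)
  obtain ⟨k, b1, k', b2, b3, b4⟩ := Finset.exists_ne_map_eq_of_card_lt_of_maps_to
    (s := sep q.tgt y) (t := S) a4 (f := fun k => Dir.tr (γ (k, k.sd q.tgt)) (k, k.sd q.tgt))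
    fun k _ => h2 _
  have key : ∀ e e' : Y.Dir, Y.Cross q.tgt y e → Y.Cross q.tgt y e' → e.1 ≠ e'.1 →
      e.tr (γ e) = e'.tr (γ e') → e'.H ⊆ e.H → ∃ (a : Y.Dir) (f : L), (f : G) ≠ 1 ∧ dg d f = 0 ∧
        (a.tr (f : G)).H ⊆ a.H ∧ a.H ⊆ q.H := by
    intro e e' c1 c2 c3 c4 c5
    have c6 : e.tr ((γ e')⁻¹ * γ e) = e' := by rw [← tr_tr, c4, tr_inv_tr]
    refine ⟨e, ⟨_, L.mul_mem (L.inv_mem (h1 e')) (h1 e)⟩, fun t => c3 ?_, ?_, c6.symm ▸ c5,
      H_subset (c1.btw_src.mem_H (tgt_mem_H q) a2.2) (c1.extend_left a2.btw2).1⟩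
    · rw [← c6, show (γ e')⁻¹ * γ e = 1 from t, tr_one]
    · have := c2.lev_src
      rw [← c6, src_tr, lev_smul', c1.lev_src] at this
      simpa using this.symm
  exact ((cross_of_mem b1).nested (cross_of_mem b2)).elim
    (key _ _ (cross_of_mem b2) (cross_of_mem b1) b3.symm b4.symm)
    (key _ _ (cross_of_mem b1) (cross_of_mem b2) b3 b4)

/-- no level preserving element commutes with a subgroup of finite index -/
lemma no_central (hT : s.TT) (hd : Function.Surjective d) (L : Subgroup G) [L.FiniteIndex] {u : G}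
    (h1 : u ≠ 1) (h2 : dg d u = 0) (h3 : ∀ g ∈ L, g * u = u * g) : False := by
  obtain ⟨S, hS⟩ := finite_vert_orbits hd hT.ne L
  obtain ⟨D, hD⟩ : ∃ D, ∀ x : Y.V, Y.dist x (u • x) ≤ D := by
    refine ⟨S.sup fun x => Y.dist x (u • x), fun x => ?_⟩
    obtain ⟨g, hg, hx⟩ := hS x
    refine le_trans ?_ (Finset.le_sup (f := fun x => Y.dist x (u • x)) hx)
    simp only [← mul_smul, ← h3 g hg]
    rw [mul_smul, Forest.dist_smul]
  have l : ∀ x : Y.V, Y.lev (u • x) = Y.lev x := fun x => by simp [lev_smul', h2]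
  have key : ∀ (e : Y.Dir) x, x ∈ e.rv.H → D + 1 ≤ Y.dist x e.src → x ∈ (e.tr u).rv.H := by
    intro e x a1 a2
    refine mem_rv_H_of_not (by rw [src_tr, l, rv_H_lev a1]) fun t => ?_
    have a3 : Y.Cross (u • x) x (e.tr u) := ⟨by rw [rv_tr]; exact (smul_mem_H u).2 a1, t⟩
    have a4 := a3.btw_src.dist_le
    have a5 := hD x
    rw [src_tr, Forest.dist_smul, Forest.dist_comm (u • x)] at a4
    omega
  obtain ⟨e, -⟩ := exists_dir_lev hd hT.ne.some 0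
  obtain ⟨x, y, a1, a2, a3, a4⟩ := hT.legal_ext e (D + 1)
  have a5 : Y.Cross x y (e.tr u) := ⟨key e x a2.1 a3, by
    simpa [← rv_tr] using key e.rv y (by simpa using a2.2) (by rwa [src_rv, Forest.dist_comm])⟩
  have a6 := a1.sa_sub a2.btw_src a5.btw_src
  have a7 := dist_pos a6.1 fun t => h1 (eq_one_of_tr (congrArg Prod.fst (step_unique a2 a5 t).symm))
  have a8 := hT.sa_exp_iter a6 D
  have a9 := hD (s.σ^[D] e.src)
  have a10 : D < 4 ^ D := Nat.lt_pow_self (by norm_num)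
  rw [src_tr, iter_smul] at a8
  rw [src_tr] at a7
  nlinarith

/-- the class is unbounded on every half-tree -/
lemma high (hF : FC d) (hT : s.TT) (L : Subgroup G) [L.FiniteIndex] (ψ : Dg L) (T : Finset L)
    (hL : Subgroup.closure (T : Set L) = ⊤) {w : L} (w1 : dg d w = 0) (w2 : 0 < dg ψ w)
    (q : Y.Dir) : ∃ x : Y.V, ∀ C : ℤ, ∃ h : L, C ≤ dg ψ h ∧ (h : G) • x ∈ q.H := by
  obtain ⟨a, f, f1, f2, f3, f4⟩ := exists_hyp hT L q
  have hf : ¬ IsOfFinOrder (f : G) := fun t =>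
    let ⟨n, hn, e⟩ := isOfFinOrder_iff_pow_eq_one.1 t; f1 (hF.torsionFree hn e)
  refine ⟨a.src, fun C => ?_⟩
  rcases le_or_gt 0 (dg ψ f) with hp | hp
  · obtain ⟨k, hk⟩ := absorb hf f3 (y := (w : G) ^ C.toNat • a.src) (by simp [lev_smul', w1])
    refine ⟨f ^ k * w ^ C.toNat, ?_, f4 (by simpa [mul_smul] using hk)⟩
    have : C ≤ C.toNat := Int.self_le_toNat C
    simp only [dg_mul, dg_pow]
    nlinarith [mul_nonneg (Int.natCast_nonneg k) hp, Int.natCast_nonneg C.toNat]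
  by_contra hc
  have key : ∀ g : L, ∃ p : ℕ, 0 < p ∧ Commute g (f ^ p) := by
    intro g
    rcases alt hf f3 (w := (g * f⁻¹ * g⁻¹ : L)) (y := a.src) (by simp [f2]) rfl with
      ⟨k, hk⟩ | ⟨p, h1, r, h2⟩
    · refine (hc ⟨f ^ k * (g * f⁻¹ * g⁻¹) ^ (k + C.toNat), ?_, f4 (by simpa using hk _)⟩).elim
      have : C ≤ C.toNat := Int.self_le_toNat C
      simp only [dg_mul, dg_pow, dg_inv]
      push_cast
      nlinarith [Int.natCast_nonneg C.toNat]
    · have h3 : f ^ p = (g * f⁻¹ * g⁻¹) ^ r := Subtype.ext (by simpa using h2)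
      have h4 := congrArg (dg ψ) h3
      simp only [dg_mul, dg_pow, dg_inv, dg_zpow] at h4
      obtain rfl : r = -p := by
        refine mul_right_cancel₀ hp.ne ?_
        linarith
      refine ⟨p, h1, ?_⟩
      rw [conj_zpow, inv_zpow', neg_neg, zpow_natCast] at h3
      exact mul_inv_eq_iff_eq_mul.1 h3.symm
  choose p h1 h2 using key
  have h3 : 0 < ∏ g ∈ T, p g := Finset.prod_pos fun g _ => h1 g
  refine no_central hT hF.surj L (u := (f : G) ^ ∏ g ∈ T, p g)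
    (fun t => f1 (hF.torsionFree h3 t)) (by simp [f2]) fun g hg => ?_
  have h4 : Subgroup.closure (T : Set L) ≤ Subgroup.centralizer {f ^ ∏ g ∈ T, p g} := by
    refine (Subgroup.closure_le _).2 fun g hg => Subgroup.mem_centralizer_singleton_iff.2 ?_
    obtain ⟨c, hc⟩ := Finset.dvd_prod_of_mem p hg
    rw [hc, pow_mul]
    exact (h2 g).pow_right c
  simpa using congrArg Subtype.val
    (Subgroup.mem_centralizer_singleton_iff.1 (h4 (hL ▸ Subgroup.mem_top (⟨g, hg⟩ : L))))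

/-- high translates of two vertices are on the same side -/
lemma same (L : Subgroup G) (ψ : Dg L) (Ψ : G → ℤ) (hΨ : ∀ (h : L) g, Ψ (h * g) = dg ψ h + Ψ g)
    (ι : ℕ → Y.Dir) (c : ℤ) (hc : ∀ e : Y.Dir, e.src ∉ s.LH ι → e.tgt ∈ s.LH ι → Ψ e.1.g ≤ c)
    (u v : Y.V) : ∀ᶠ C in Filter.atTop, ∀ h : L, C ≤ dg ψ h →
      ((h : G) • u ∈ s.LH ι ↔ (h : G) • v ∈ s.LH ι) := by
  have l : Y.lev (s.σ^[(Y.lev v - Y.lev u).toNat] u) =
      Y.lev (s.σ^[(Y.lev u - Y.lev v).toNat] v) := by simp only [lev_iter]; omega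
  obtain ⟨m, hm⟩ := ((sep (s.σ^[(Y.lev v - Y.lev u).toNat] u)
    (s.σ^[(Y.lev u - Y.lev v).toNat] v)).finite_toSet.image fun k => Ψ k.g).bddBelow
  refine (Filter.eventually_gt_atTop (c - m)).mono fun C hC h hh => ?_
  have := const_of_sep (fun x => (h : G) • x ∈ s.LH ι) l fun k hk => ?_
  · rwa [← iter_smul, ← iter_smul, iter_mem_LH, iter_mem_LH, eq_iff_iff] at this
  have h1 := hm ⟨k, hk, rfl⟩
  have h2 := hΨ h k.g
  have h3 := hc (Dir.tr h (k, false))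
  have h4 := hc (Dir.tr h (k, true))
  simp only [src_tr, tgt_tr, tr_fst, smul_g] at h1 h3 h4
  exact propext ⟨fun t => by_contra fun t' => by have := h4 t' t; omega,
    fun t => by_contra fun t' => by have := h3 t' t; omega⟩

theorem stCURT : St_CURT := by
  classical
  rintro G _ d hF Y s hT L hL ψ - hp ⟨z, n, e, hn, hz, z0⟩ hψ ⟨S, hS⟩
  obtain ⟨Ψ, hΨ⟩ := exists_pot L ψ
  obtain ⟨B, hB⟩ := pot_low hT L ψ Ψ hΨ hp
  replace z0 : dg ψ z = 0 := by simp [dg, z0]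
  -- the itinerary
  have nx : ∀ x : {x : Y.Dir // ∃ (r : ℕ) (g : L), dg ψ g = 0 ∧ s.Desc r x (e.tr g)},
      ∃ y : {x : Y.Dir // ∃ (r : ℕ) (g : L), dg ψ g = 0 ∧ s.Desc r x (e.tr g)},
        s.Desc 1 x.1 y.1 := by
    rintro ⟨x, r, g, h1, h2⟩
    have h3 := hT.lh_trans h2 (hz.lh_tr g)
    obtain ⟨m, hm⟩ : ∃ m, n + r = m + 1 := ⟨n + r - 1, by omega⟩
    rw [hm, tr_tr] at h3
    obtain ⟨y, a1, a2⟩ := s.cover_dir m h3
    exact ⟨⟨y, m, g * z, by simp [h1, z0], a2⟩, a1⟩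
  choose F hF' using nx
  obtain ⟨ι, h1, h2⟩ : ∃ ι : ℕ → Y.Dir, s.Itin ι ∧ ∀ k, Ψ (ι k).1.g ≤ Ψ e.1.g + B := by
    refine ⟨fun k => (F^[k] ⟨e, 0, 1, dg_one, (tr_one e).symm ▸ cross_self e⟩).1, fun k => ?_,
      fun k => ?_⟩
    · simpa only [Function.iterate_succ_apply'] using hF' _
    · obtain ⟨r, g, a1, a2⟩ := (F^[k] ⟨e, 0, 1, dg_one, (tr_one e).symm ▸ cross_self e⟩).2
      have a3 := hB _ _ _ a2
      have a4 := hΨ g e.1.g
      simp only [tr_fst, smul_g] at a3 ⊢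
      omega
  have h3 := same L ψ Ψ hΨ ι (Ψ e.1.g + B + B) fun c a1 a2 => by
    obtain ⟨k, m, a3⟩ := h1.desc_of_enter hT a1 a2
    have a4 := hB _ _ _ (a3 0)
    have a5 := h2 (m + 0)
    omega
  -- a generator of the image
  obtain ⟨t, t1, t2⟩ : ∃ t : L, 0 < dg ψ t ∧ ∀ h : L, ∃ j : ℤ, dg ψ h = j * dg ψ t := by
    obtain ⟨⟨_, t, rfl⟩, ht⟩ := IsCyclic.exists_generator (α := ψ.range)
    have a1 : ∀ h : L, ∃ j : ℤ, dg ψ h = j * dg ψ t := fun h => by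
      obtain ⟨j, hj⟩ := ht ⟨_, h, rfl⟩
      exact ⟨j, by simpa [dg] using congrArg (fun x => x.1.toAdd) hj.symm⟩
    rcases lt_trichotomy 0 (dg ψ t) with a2 | a2 | a2
    · exact ⟨t, a2, a1⟩
    · refine (hψ (MonoidHom.ext fun h => MonoidHom.mem_ker.1 (mem_ker_iff.2 ?_))).elim
      obtain ⟨j, hj⟩ := a1 h
      simp [hj, ← a2]
    · exact ⟨t⁻¹, by simpa using a2, fun h => let ⟨j, hj⟩ := a1 h; ⟨-j, by simp [hj]⟩⟩
  have h4 : Subgroup.closure ((insert t S : Finset L) : Set L) = ⊤ := by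
    refine eq_top_iff.2 fun h _ => ?_
    obtain ⟨j, hj⟩ := t2 h
    have a1 : h * t ^ (-j) ∈ Subgroup.closure (S : Set L) := hS ▸ mem_ker_iff.2 (by simp [hj])
    simpa using mul_mem (Subgroup.closure_mono (by simp) a1) (zpow_mem (Subgroup.subset_closure
      (show t ∈ ((insert t S : Finset L) : Set L) by simp)) j)
  have dz : dg d z = n := by
    have := hz.lh_lev
    rwa [src_tr, lev_smul', add_right_inj] at this
  have h5 := high hF hT L ψ _ h4 (w := t ^ n * z ^ (- dg d t)) (by simp [dz, mul_comm])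
    (by simp [z0, hn, t1])
  obtain ⟨q₁, -, a1⟩ := h1.exists_H_subset hT hF.surj 0
  obtain ⟨q₂, -, a2⟩ := h1.rv.exists_H_subset hT hF.surj 0
  obtain ⟨x, hx⟩ := h5 q₁
  obtain ⟨y, hy⟩ := h5 q₂
  obtain ⟨C, c1, c2⟩ := ((h3 x y).and ((Filter.eventually_all_finset (insert t S)).2
    fun g _ => h3 x ((g : G) • x))).exists
  simp only [← mul_smul, ← Subgroup.coe_mul] at c2
  have c3 : ∀ g ∈ Subgroup.closure (S : Set L), ∀ h : L, C ≤ dg ψ h →
      ((h : G) • x ∈ s.LH ι ↔ ((h * g : L) : G) • x ∈ s.LH ι) := by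
    intro g hg
    induction hg using Subgroup.closure_induction with
    | mem g hg => exact c2 g (by simp [Finset.mem_coe.1 hg])
    | one => simp
    | mul g g' hg _ i1 i2 =>
      rw [hS, mem_ker_iff] at hg
      exact fun h hh => (i1 h hh).trans (mul_assoc h g g' ▸ i2 (h * g) (by simpa [hg] using hh))
    | inv g hg i1 =>
      rw [hS, mem_ker_iff] at hg
      exact fun h hh => by simpa using (i1 (h * g⁻¹) (by simpa [hg] using hh)).symm
  have c4 : ∀ (j : ℕ) (h : L), C ≤ dg ψ h →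
      ((h : G) • x ∈ s.LH ι ↔ ((h * t ^ j : L) : G) • x ∈ s.LH ι) := by
    intro j h hh
    induction j with
    | zero => simp
    | succ j ih =>
      rw [pow_succ, ← mul_assoc]
      refine ih.trans (c2 t (by simp) _ ?_)
      simp only [dg_mul, dg_pow]
      nlinarith [mul_nonneg (Int.natCast_nonneg j) t1.le]
  have c5 : ∀ h h' : L, C ≤ dg ψ h → dg ψ h ≤ dg ψ h' →
      ((h : G) • x ∈ s.LH ι ↔ (h' : G) • x ∈ s.LH ι) := by
    intro h h' b1 b2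
    obtain ⟨j, hj⟩ := t2 (h⁻¹ * h')
    simp only [dg_mul, dg_inv] at hj
    obtain ⟨j, rfl⟩ := Int.eq_ofNat_of_zero_le (show 0 ≤ j by nlinarith)
    have b3 : dg ψ (h * t ^ j) = dg ψ h' := by simp only [dg_mul, dg_pow]; omega
    have b4 := c3 ((h * t ^ j)⁻¹ * h') (hS ▸ mem_ker_iff.2 (by rw [dg_mul, dg_inv, b3]; simp))
      (h * t ^ j) (by omega)
    rw [mul_inv_cancel_left] at b4
    exact (c4 j h b1).trans b4
  obtain ⟨h, b1, b2⟩ := hx C
  obtain ⟨h', b3, b4⟩ := hy C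
  refine h1.LH_disj ((c1 h' b3).1 ?_) (a2 b4)
  exact (le_total (dg ψ h) (dg ψ h')).elim (fun t => (c5 _ _ b1 t).1 (a1 b2))
    fun t => (c5 _ _ b3 t).2 (a1 b2)

end Pool.Agent.Lib.FBC.CURT
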