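import Pool.Agent.Lib.FBC.Sand
import Pool.Agent.Lib.FBC.T2.Leg

/-!
Branching of train track forests, and wandering limit half-spaces.
-/

namespace Pool.Agent.Lib.FBC.Wand

open Forest Pool.Agent.Lib.FBC.Flow Filter Pointwise

variable {G : Type} [Group G] {d : Dg G} {Y : Forest d} {s : Flow Y}

/-- no vertex has three darts -/
def Thin (Y : Forest d) : Prop :=
  ∀ a b c : Y.Dir, a.src = b.src → a.src = c.src → a = b ∨ a = c ∨ b = c

lemma Thin.next (h : Thin Y) {e a b : Y.Dir} {x y : Y.V} (h1 : a.src = e.tgt) (h2 : b.src = e.tgt)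
    (h3 : Y.Cross e.src x a) (h4 : Y.Cross e.src y b) : a = b := by
  rcases h a b e.rv (h1.trans h2.symm) h1 with t | t | t
  · exact t
  · exact (not_mem_H_both (e := a) (by rw [t]; exact src_mem_rv_H e) h3.1).elim
  · exact (not_mem_H_both (e := b) (by rw [t]; exact src_mem_rv_H e) h4.1).elim

lemma Thin.legal (h : Thin Y) (hT : s.TT) {a b : Y.V} (l : Y.lev a = Y.lev b) : s.LegalP a b := by
  refine dir_ind (P := fun a => s.LegalP a b) (T2.lp_refl b) (fun e he ih => ?_) l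
  by_cases t : e.tgt = b
  · exact t ▸ s.sa_legal_dir e
  obtain ⟨u, u1, u2⟩ := exists_step ih.1 t
  obtain ⟨c, -, c1, -, c3⟩ := hT.sa_anc e e.1.i
  obtain ⟨v, v1, v2⟩ := exists_step (Cross.btw_tgt c1).lev2 c3
  have v3 := v2.extend_left (Cross.btw2 c1)
  obtain rfl := h.next u1 v1 (u2.extend_left he.btw2) v3
  refine T2.lp_over hT ((hT.legal c).sa_sub (Cross.btw_src c1)
    ((Cross.btw_src c1).trans_right v3.btw_tgt)) ih ?_ u2.btw_tgt ?_
  · exact u1 ▸ v3.btw1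
  · exact u1 ▸ src_ne_tgt u

lemma Thin.free (h : Thin Y) (hG : FC d) (hI : Nonempty Y.I) {u : G} {x : Y.V} (e : u • x = x) :
    u = 1 := by
  obtain ⟨a, rfl⟩ := exists_dir_at hG.surj hI x
  rcases h a (a.tr u) ((a.tr u).tr u) (by simp [e]) (by simp [e]) with t | t | t
  · exact eq_one_of_tr (congrArg Prod.fst t.symm)
  · rw [tr_tr] at t
    exact hG.torsionFree two_pos (by rw [sq]; exact eq_one_of_tr (congrArg Prod.fst t.symm))
  · exact eq_one_of_tr (congrArg Prod.fst t.symm)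

lemma Thin.line (h : Thin Y) {a b c : Y.V} (l : Y.lev a = Y.lev b) (l' : Y.lev a = Y.lev c) :
    Y.btw a b c ∨ Y.btw b a c ∨ Y.btw a c b := by
  obtain ⟨m, m1, m2, m3⟩ := exists_med l l'
  by_contra H
  simp only [not_or] at H
  obtain ⟨u, u1, u2⟩ := exists_step m1.lev1.symm (by rintro rfl; exact H.2.1 m2)
  obtain ⟨v, v1, v2⟩ := exists_step m1.lev2 (by rintro rfl; exact H.1 m3)
  obtain ⟨w, w1, w2⟩ := exists_step m3.lev2 (by rintro rfl; exact H.2.2 m1)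
  rcases h u v w (u1.trans v1.symm) (u1.trans w1.symm) with rfl | rfl | rfl
  · exact not_mem_H_both (m1.mem_H u2.2 v2.2) u2.1
  · exact not_mem_H_both (m3.mem_H u2.2 w2.2) u2.1
  · exact not_mem_H_both (m2.mem_H v2.2 w2.2) v2.1

lemma lev_pow {u : G} (hu : dg d u = 0) (k : ℕ) (x : Y.V) : Y.lev x = Y.lev (u ^ k • x) := by
  simp [lev_smul', hu]

lemma Thin.far (h : Thin Y) (hG : FC d) (hI : Nonempty Y.I) {u : G} (hu : dg d u = 0) (h1 : u ≠ 1)
    (x : Y.V) (k : ℕ) : k ≤ Y.dist x (u ^ k • x) := by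
  have ne : ∀ (j : ℕ) (y : Y.V), 0 < j → y ≠ u ^ j • y := fun j y hj e =>
    h1 (hG.torsionFree hj (h.free hG hI e.symm))
  have l1 : ∀ y : Y.V, Y.lev y = Y.lev (u • y) := fun y => by simpa using lev_pow hu 1 y
  have n1 : ∀ y : Y.V, y ≠ u • y := fun y => by simpa using ne 1 y one_pos
  have ax : ∀ y : Y.V, Y.btw y (u • y) (u • u • y) := fun y => by
    have e : Y.dist (u • y) (u • u • y) = Y.dist y (u • y) := Forest.dist_smul _ _ _
    have n2 : y ≠ u • u • y := by simpa only [sq, mul_smul] using ne 2 y two_pos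
    rcases h.line (l1 y) ((l1 y).trans (l1 _)) with t | t | t
    · exact t
    · exact (n2 (t.eq_right (by rw [e, Forest.dist_comm]))).elim
    · exact (n2 (t.eq_left (by rw [← e, Forest.dist_comm]))).elim
  have key : ∀ j : ℕ, Y.btw x (u ^ j • x) (u • u ^ j • x) ∧ j ≤ Y.dist x (u ^ j • x) := by
    intro j
    induction j with
    | zero => simpa using btw_left (l1 x)
    | succ j ih =>
      rw [pow_succ', mul_smul]
      have := ih.1.dist_add
      have := dist_pos (l1 _) (n1 (u ^ j • x))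
      exact ⟨ih.1.glue' (ax _) (n1 _), by omega⟩
  exact (key k).2

lemma dist_pow_le {u : G} (hu : dg d u = 0) (x : Y.V) (k : ℕ) :
    Y.dist x (u ^ k • x) ≤ k * Y.dist x (u • x) := by
  induction k with
  | zero => simp
  | succ k ih =>
    have := Forest.dist_triangle (lev_pow hu k x) (b := u ^ (k + 1) • x)
      ((lev_pow hu k x).symm.trans (lev_pow hu _ x))
    rw [pow_succ, mul_smul, Forest.dist_smul] at this
    rw [pow_succ, mul_smul]
    nlinarith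

/-- An expanding train track forest branches. -/
theorem not_thin (hG : FC d) (hT : s.TT) : ¬ Thin Y := fun h => by
  obtain ⟨i⟩ := hT.ne
  obtain ⟨e, e', hne, hi, hi', h1, h2⟩ := hT.prim (⟨1, i⟩, false) i
  obtain ⟨u, hu⟩ : ∃ u : G, e'.1 = u • e.1 := ⟨_, eq_smul_of_i (hi.trans hi'.symm)⟩
  have u1 : u ≠ 1 := by rintro rfl; exact hne (by simp [hu])
  have u0 : dg d u = 0 := by
    have := h1.1.lh_lev.trans h2.1.lh_lev.symm
    rw [lev_src, lev_src, hu, smul_g, dg_mul] at this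
    omega
  set D := Y.dist e.src (u • e.src)
  obtain ⟨c, -, hc⟩ := exists_dir_lev hG.surj i (Y.lev e.src - (D + 1 : ℕ))
  have l : Y.lev (s.σ^[D + 1] c.src) = Y.lev e.src := by rw [lev_iter, hc]; ring
  set k := 2 * Y.dist (s.σ^[D + 1] c.src) e.src + 1 with hk
  have a1 := hT.sa_exp_iter (h.legal hT (lev_pow u0 k c.src)) (D + 1)
  have a2 := h.far hG ⟨i⟩ u0 u1 c.src k
  have a3 := dist_pow_le u0 e.src k
  have a4 := Forest.dist_triangle l (b := u ^ k • s.σ^[D + 1] c.src) (l.symm.trans (lev_pow u0 k _))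
  have a5 := Forest.dist_triangle (lev_pow u0 k e.src) (b := u ^ k • s.σ^[D + 1] c.src)
    ((lev_pow u0 k _).symm.trans (l.symm.trans (lev_pow u0 k _)))
  rw [Forest.dist_smul, Forest.dist_comm e.src (s.σ^[D + 1] c.src)] at a5
  rw [iter_smul] at a1
  have a6 : D + 1 < 4 ^ (D + 1) := Nat.lt_pow_self (by norm_num)
  have a7 : (D + 1) * k ≤ 4 ^ (D + 1) * Y.dist c.src (u ^ k • c.src) := Nat.mul_le_mul a6.le a2
  nlinarith

/-- Limit half-spaces are disjoint if each initial dart stays behind the other itinerary. -/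
lemma disjoint_LH (hT : s.TT) {ι ι' : ℕ → Y.Dir} (h : s.Itin ι) (h' : s.Itin ι')
    (l : Y.lev (ι 0).src = Y.lev (ι' 0).src)
    (h1 : ∀ n, s.σ^[n] (ι 0).src ∈ (ι' n).rv.H ∧ s.σ^[n] (ι 0).tgt ∈ (ι' n).rv.H)
    (h2 : ∀ n, s.σ^[n] (ι' 0).src ∈ (ι n).rv.H ∧ s.σ^[n] (ι' 0).tgt ∈ (ι n).rv.H) :
    Disjoint (s.LH ι) (s.LH ι') := by
  refine Set.disjoint_left.2 fun a ha ha' => ?_
  obtain ⟨z, z1, z2⟩ := ((h.high ha).and (h'.high ha')).exists
  rw [← l] at z2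
  generalize (z - Y.lev (ι 0).src).toNat = n at z1 z2
  have a1 := h.desc hT 0 n
  have a2 := h'.desc hT 0 n
  rw [zero_add] at a1 a2
  exact Set.disjoint_left.1 (H_disjoint ((Cross.btw_tgt a1).mem_H (h1 n).1 (h1 n).2)
    ((Cross.btw_tgt a2).mem_H (h2 n).1 (h2 n).2)) z1 z2

/-- Behind every dart there is an itinerary that never sees the opposite half-tree. -/
lemma exists_deep (hd : Function.Surjective d) (hT : s.TT) (e : Y.Dir) : ∃ ι : ℕ → Y.Dir,
    s.Itin ι ∧ (ι 0).src ∈ e.H ∧ (ι 0).tgt ∈ e.H ∧ ∀ b ∈ e.rv.H, ∀ n, s.σ^[n] b ∈ (ι n).rv.H := by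
  obtain ⟨C, hC⟩ := hT.sand1 hd
  obtain ⟨x, y, a1, a2, -, a4⟩ := hT.legal_ext e (C + 1)
  obtain ⟨q, q1, q2⟩ := exists_last a2.btw_tgt.lev2 (by rintro t; simp [t] at a4)
  obtain ⟨ι, h0, h⟩ := hT.exists_itin q
  have q3 := q2.dist_src
  have a5 := a1.sa_sub a2.btw_tgt (btw_right a1.1)
  refine ⟨ι, h, h0 ▸ q2.btw_src.mem_H (tgt_mem_H e) a2.2, by rw [h0, q1]; exact a2.2,
    fun b hb => hC _ y e.tgt b h.rv a5.lh_symm (h0 ▸ q2.symm) ?_ (Cross.btw_tgt ⟨hb, a2.2⟩).symm⟩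
  rw [h0, tgt_rv, Forest.dist_comm]
  rw [q1] at q3
  omega

lemma exists_three (hG : FC d) (hT : s.TT) : ∃ ι : Fin 3 → ℕ → Y.Dir, (∀ i, s.Itin (ι i)) ∧
    (∀ i, Y.lev (ι i 0).src = Y.lev (ι 0 0).src) ∧
    ∀ i j, i ≠ j → Disjoint (s.LH (ι i)) (s.LH (ι j)) := by
  have h := not_thin hG hT
  simp only [Thin, not_forall, not_or] at h
  obtain ⟨a, b, c, h1, h2, h3, h4, h5⟩ := h
  let e : Fin 3 → Y.Dir := ![a, b, c]
  have e1 : ∀ i, (e i).src = a.src := fun i => by fin_cases i <;> simp [e, h1.symm, h2.symm]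
  have e2 : ∀ i j, i ≠ j → e i ≠ e j := fun i j => by
    fin_cases i <;> fin_cases j <;> simp [e, h3, h4, h5, Ne.symm h3, Ne.symm h4, Ne.symm h5]
  have e3 : ∀ i j, i ≠ j → ∀ x ∈ (e i).H, x ∈ (e j).rv.H := fun i j h x hx =>
    mem_rv_H_iff_btw.2 (e1 j ▸ e1 i ▸
      btw_of_turn ((e1 i).trans (e1 j).symm) (e2 i j h) hx (tgt_mem_H _))
  choose ι a1 a2 a3 a4 using fun i => exists_deep hG.surj hT (e i)
  have l : ∀ i, Y.lev (ι i 0).src = Y.lev a.src := fun i => by rw [(a2 i).1, e1]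
  exact ⟨ι, a1, fun i => (l i).trans (l 0).symm, fun i j h => disjoint_LH hT (a1 i) (a1 j)
    ((l i).trans (l j).symm) (fun n => ⟨a4 j _ (e3 i j h _ (a2 i)) n, a4 j _ (e3 i j h _ (a3 i)) n⟩)
    fun n => ⟨a4 i _ (e3 j i h.symm _ (a2 j)) n, a4 i _ (e3 j i h.symm _ (a3 j)) n⟩⟩

/-- Every finite set of vertices of one level can be moved into a given half-tree. -/
lemma exists_move (hd : Function.Surjective d) (hT : s.TT) (q : Y.Dir) {l : ℤ} {S : Set Y.V}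
    (hS : S.Finite) (hl : ∀ x ∈ S, Y.lev x = l) : ∃ g : G, ∀ x ∈ S, g • x ∈ q.H := by
  choose c c1 c2 using fun i : Y.I => exists_dir_lev hd i l
  obtain ⟨R, hR⟩ := ((hS.prod (Set.finite_univ (α := Y.I))).image fun p =>
    max (Y.dist (c p.2).src p.1) (Y.dist (c p.2).tgt p.1)).bddAbove
  obtain ⟨x, y, a1, a2, -, a4⟩ := hT.legal_ext q R
  obtain ⟨e, e1, -⟩ := exists_last a1.1 a2.ne
  obtain ⟨g, hg⟩ := exists_tr (c1 e.1.i)
  refine ⟨g, fun z hz => ?_⟩
  have b1 := hR ⟨(z, e.1.i), ⟨hz, trivial⟩, rfl⟩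
  have b2 : Y.dist y (g • z) ≤ R ∧ Y.lev y = Y.lev (g • z) := by
    rw [← e1]
    rcases hg with t | t <;> rw [t]
    · exact ⟨by simpa using (le_max_right _ _).trans b1, by
        rw [tgt_tr, lev_smul', lev_smul', ← lev_src_tgt, c2, hl z hz]⟩
    · exact ⟨by simpa using (le_max_left _ _).trans b1, by
        rw [tgt_rv, src_tr, lev_smul', lev_smul', c2, hl z hz]⟩
  refine mem_H_of_not (b2.2.symm.trans a2.2.1) fun t => ?_
  have := Cross.dist_eq (⟨t, a2.2⟩ : Y.Cross (g • z) y q)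
  rw [Forest.dist_comm] at this
  omega

/-- Every limit half-space contains two disjoint ones. -/
theorem two_inside (hG : FC d) (hT : s.TT) {ι : ℕ → Y.Dir} (h : s.Itin ι) :
    ∃ ι₁ ι₂ : ℕ → Y.Dir, s.Itin ι₁ ∧ s.Itin ι₂ ∧ s.LH ι₁ ⊆ s.LH ι ∧ s.LH ι₂ ⊆ s.LH ι ∧
      Disjoint (s.LH ι₁) (s.LH ι₂) := by
  obtain ⟨κ, a1, a2, a3⟩ := exists_three hG hT
  obtain ⟨q, -, hq⟩ := h.exists_H_subset hT hG.surj 0
  obtain ⟨g, hg⟩ := exists_move hG.surj hT q (Set.finite_range fun i => (κ i 0).tgt)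
    (by rintro _ ⟨i, rfl⟩; exact (lev_src_tgt _).symm.trans (a2 i))
  let μ : Fin 3 → ℕ → Y.Dir := fun i n => (κ i n).tr g
  have b1 : ∀ i, s.Itin (μ i) := fun i => (a1 i).tr g
  have b2 : ∀ i j, i ≠ j → Disjoint (s.LH (μ i)) (s.LH (μ j)) := fun i j t => by
    rw [← smul_LH, ← smul_LH]; exact Set.disjoint_smul_set.2 (a3 i j t)
  have b3 : ∀ i, g • (κ i 0).tgt ∈ s.LH (μ i) := fun i =>
    (smul_mem_LH g).2 ((a1 i).tgt_mem_LH hT 0)
  have b4 : ∀ i, g • (κ i 0).tgt ∈ s.LH ι := fun i => hq (hg _ ⟨i, rfl⟩)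
  have b5 : ∀ i, s.LH (μ i) ⊆ s.LH ι ∨ (ι 0).src ∈ s.LH (μ i) := fun i => by
    rcases (b1 i).nested' h hT with t | t | t | t
    · exact Or.inl t
    · obtain ⟨j, hj⟩ := exists_ne i
      exact (Set.disjoint_left.1 (b2 j i hj) (b3 j) (t (b4 j))).elim
    · exact (Set.disjoint_left.1 t (b3 i) (b4 i)).elim
    · exact Or.inr ((Set.eq_univ_iff_forall.1 t _).resolve_right
        ((h.not_mem_LH hT).2 (h.src_mem_LH hT 0)))
  have b6 : ∀ i j, i ≠ j → (ι 0).src ∈ s.LH (μ i) → (ι 0).src ∉ s.LH (μ j) :=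
    fun i j t h => Set.disjoint_left.1 (b2 i j t) h
  rcases b5 0 with t0 | t0 <;> rcases b5 1 with t1 | t1
  · exact ⟨_, _, b1 0, b1 1, t0, t1, b2 0 1 (by decide)⟩
  · exact ⟨_, _, b1 0, b1 2, t0, (b5 2).resolve_right (b6 1 2 (by decide) t1), b2 0 2 (by decide)⟩
  · exact ⟨_, _, b1 1, b1 2, t1, (b5 2).resolve_right (b6 0 2 (by decide) t0), b2 1 2 (by decide)⟩
  · exact (b6 0 1 (by decide) t0 t1).elim

/-- the push of a vertex to the level `l` -/
def up (s : Flow Y) (l : ℤ) (x : Y.V) : Y.V := s.σ^[(l - Y.lev x).toNat] x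

/-- the scale at level `l` -/
noncomputable def nu (s : Flow Y) (c : Y.Dir) (l : ℤ) : ℝ :=
  Y.dist (s.σ^[l.toNat] c.src) (s.σ^[l.toNat] c.tgt)

/-- the limit pseudo-distance of `x` and `y` is at most `r` -/
def Bd (s : Flow Y) (c : Y.Dir) (x y : Y.V) (r : ℝ) : Prop :=
  ∀ᶠ l : ℤ in atTop, (Y.dist (up s l x) (up s l y) : ℝ) ≤ r * nu s c l

variable {c : Y.Dir} {x y z : Y.V} {r r' : ℝ}

lemma lev_up {l : ℤ} (h : Y.lev x ≤ l) : Y.lev (up s l x) = l := by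
  rw [up, lev_iter]; omega

lemma nu_mul (hT : s.TT) {l m : ℤ} (h : 0 ≤ l) (hm : 1 ≤ m) : 2 * nu s c l ≤ nu s c (l + m) := by
  have := hT.sa_exp_iter (hT.sa_iter_dir c l.toNat) m.toNat
  rw [← Function.iterate_add_apply, ← Function.iterate_add_apply,
    show m.toNat + l.toNat = (l + m).toNat by omega] at this
  have h2 : 2 ≤ 4 ^ m.toNat := le_trans (by norm_num) (Nat.pow_le_pow_right (by norm_num)
    (show 1 ≤ m.toNat by omega))
  unfold nu
  exact_mod_cast (Nat.mul_le_mul_right _ h2).trans this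

lemma nu_pos (hT : s.TT) (l : ℤ) : 0 < nu s c l := by
  have := hT.sa_exp_iter (s.sa_legal_dir c) l.toNat
  rw [dist_src_tgt, mul_one] at this
  unfold nu
  exact_mod_cast lt_of_lt_of_le (by positivity) this

lemma Bd.symm (h : Bd s c x y r) : Bd s c y x r := h.mono fun l e => by rwa [Forest.dist_comm]

lemma Bd.le (hT : s.TT) (h : Bd s c x y r) (e : r ≤ r') : Bd s c x y r' :=
  h.mono fun l t => t.trans (mul_le_mul_of_nonneg_right e (nu_pos hT l).le)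

lemma Bd.trans (h : Bd s c x y r) (h' : Bd s c y z r') : Bd s c x z (r + r') := by
  filter_upwards [h, h', eventually_ge_atTop (Y.lev x), eventually_ge_atTop (Y.lev y),
    eventually_ge_atTop (Y.lev z)] with l a1 a2 a3 a4 a5
  have : (Y.dist (up s l x) (up s l z) : ℝ) ≤ Y.dist (up s l x) (up s l y) +
      Y.dist (up s l y) (up s l z) := by
    exact_mod_cast Forest.dist_triangle ((lev_up a3).trans (lev_up a4).symm)
      ((lev_up a4).trans (lev_up a5).symm)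
  linarith

lemma Bd.half (hT : s.TT) {t : G} (ht : 0 < dg d t) (hr : 0 ≤ r) (h : Bd s c x y r) :
    Bd s c (t • x) (t • y) (r / 2) := by
  filter_upwards [(tendsto_atTop_add_const_right _ (-dg d t) tendsto_id).eventually h,
    eventually_ge_atTop (dg d t)] with l a1 a2
  have e : ∀ z : Y.V, up s l (t • z) = t • up s (l + -dg d t) z := fun z => by
    rw [up, up, iter_smul, lev_smul']; congr 3; ring
  have := nu_mul (c := c) hT (l := l + -dg d t) (by omega) ht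
  rw [neg_add_cancel_right] at this
  rw [e, e, Forest.dist_smul]
  simp only [id] at a1
  nlinarith

lemma Bd.pow (hT : s.TT) {t : G} (ht : 0 < dg d t) (hr : 0 ≤ r) (h : Bd s c x y r) (n : ℕ) :
    Bd s c (t ^ n • x) (t ^ n • y) (r / 2 ^ n) := by
  induction n with
  | zero => simpa using h
  | succ n ih =>
    rw [pow_succ', mul_smul, mul_smul, pow_succ, ← div_div]
    exact ih.half hT ht (by positivity)

lemma exists_bd (hT : s.TT) (c : Y.Dir) (x y : Y.V) : ∃ r, 0 ≤ r ∧ Bd s c x y r := by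
  obtain ⟨Λ, -, hΛ⟩ := hT.ratio
  obtain ⟨m, m0, m1, m2⟩ : ∃ m : ℤ, 0 ≤ m ∧ Y.lev x ≤ m ∧ Y.lev y ≤ m :=
    ⟨max 0 (max (Y.lev x) (Y.lev y)), by omega⟩
  refine ⟨Λ * Y.dist (up s m x) (up s m y), by positivity, ?_⟩
  filter_upwards [eventually_ge_atTop m] with l hl
  have e : ∀ z : Y.V, Y.lev z ≤ m → up s l z = s.σ^[(l - m).toNat] (up s m z) := fun z hz => by
    rw [up, up, ← Function.iterate_add_apply]; congr 1; omega
  have a1 := (s.it (l - m).toNat).lip_of_dir (fun e => hΛ (l - m).toNat e c)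
    ((lev_up (s := s) m1).trans (lev_up (s := s) m2).symm)
  have a2 := hT.sa_exp_iter (hT.sa_iter_dir c (l - m).toNat) m.toNat
  rw [← Function.iterate_add_apply, ← Function.iterate_add_apply,
    show m.toNat + (l - m).toNat = l.toNat by omega] at a2
  have a3 := (Nat.le_mul_of_pos_left _ (by positivity)).trans a2
  rw [e x m1, e y m2, nu, mul_right_comm]
  exact_mod_cast a1.trans (Nat.mul_le_mul_right _ (Nat.mul_le_mul_left _ a3))

lemma Bd.orbit (hT : s.TT) {t : G} (ht : 0 < dg d t) (hr : 0 ≤ r) (h : Bd s c x (t • x) r)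
    (k : ℕ) : Bd s c x (t ^ k • x) (2 * r) := by
  induction k with
  | zero =>
    refine Eventually.of_forall fun l => ?_
    have := nu_pos (c := c) hT l
    simp only [pow_zero, one_smul, Forest.dist_self, Nat.cast_zero]
    positivity
  | succ k ih =>
    rw [pow_succ', mul_smul]
    exact (h.trans (ih.half hT ht (by positivity))).le hT (by linarith)

/-- some forward orbit of `t` returns to `B` infinitely often -/
def Rec (t : G) (B : Set Y.V) : Prop := ∃ x, ∃ᶠ n : ℕ in atTop, t ^ n • x ∈ B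

lemma Rec.mono {t : G} {B B' : Set Y.V} (h : Rec t B) (e : B ⊆ B') : Rec t B' :=
  let ⟨x, hx⟩ := h; ⟨x, hx.mono fun _ t => e t⟩

/-- All forward orbits converge to one point of the limit pseudo-metric. -/
lemma Rec.close (hT : s.TT) {t : G} (ht : 0 < dg d t) {B B' : Set Y.V} (h : Rec t B)
    (h' : Rec t B') (c : Y.Dir) : ∃ x ∈ B, ∃ y ∈ B', Bd s c x y (1 / 2) := by
  obtain ⟨x, hx⟩ := h
  obtain ⟨y, hy⟩ := h'
  obtain ⟨r, r0, hr⟩ := exists_bd hT c x y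
  obtain ⟨q, q0, hq⟩ := exists_bd hT c y (t • y)
  obtain ⟨N, hN⟩ := pow_unbounded_of_one_lt (2 * (r + 2 * q)) (one_lt_two (α := ℝ))
  obtain ⟨n, n1, n2⟩ := frequently_atTop.1 hx N
  obtain ⟨m, m1, m2⟩ := frequently_atTop.1 hy n
  obtain ⟨k, rfl⟩ := Nat.exists_eq_add_of_le m1
  refine ⟨_, n2, _, m2, ?_⟩
  rw [pow_add, mul_smul]
  refine ((hr.trans (hq.orbit hT ht q0 k)).pow hT ht (by positivity) n).le hT ?_
  have := pow_le_pow_right₀ (one_le_two (α := ℝ)) n1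
  rw [div_le_iff₀ (by positivity)]
  linarith

/-- Two limit half-spaces at positive distance. -/
lemma exists_sep (hd : Function.Surjective d) (hT : s.TT) : ∃ (c : Y.Dir) (ι ι' : ℕ → Y.Dir),
    s.Itin ι ∧ s.Itin ι' ∧ ∀ x ∈ s.LH ι, ∀ y ∈ s.LH ι', ¬ Bd s c x y (1 / 2) := by
  obtain ⟨i⟩ := hT.ne
  obtain ⟨c, -, hc⟩ := exists_dir_lev hd i 0
  have key : ∀ c : Y.Dir, Y.lev c.src = 0 → ∃ ι, s.Itin ι ∧ ∀ y ∈ s.LH ι, ∀ᶠ l : ℤ in atTop,
      Y.btw (s.σ^[l.toNat] c.src) (s.σ^[l.toNat] c.tgt) (up s l y) := by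
    intro c hc
    obtain ⟨x, y, a1, a2, -, a4⟩ := hT.legal_ext c 1
    obtain ⟨q, q1, q2⟩ := exists_step a2.btw_tgt.lev2 (by rintro t; simp [t] at a4)
    obtain ⟨ι, h0, h⟩ := hT.exists_itin q
    refine ⟨ι, h, fun z hz => (h.high hz).mono fun l hl => ?_⟩
    rw [h0, q1, ← lev_src_tgt, hc, sub_zero] at hl
    have b1 := h.desc hT 0 l.toNat
    rw [zero_add, h0] at b1
    have b2 := a1.sa_sub a2.btw_src (btw_right a1.1)
    have b3 := b2.lh_cross (q2.extend_left a2.btw2) b1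
    have b4 := (b2.sa_btw a2.btw2 l.toNat).trans_right'
      ((a1.sa_sub a2.btw_tgt (btw_right a1.1)).lh_cross q2 b1).btw_tgt
    exact (Cross.btw_tgt ⟨b3.1, hl⟩).trans_left b4
  obtain ⟨ι, a1, a2⟩ := key c.rv (by rw [src_rv, ← lev_src_tgt, hc])
  obtain ⟨ι', b1, b2⟩ := key c hc
  refine ⟨c, ι, ι', a1, b1, fun x hx y hy h => ?_⟩
  obtain ⟨l, ⟨c1, c2⟩, c3⟩ := (((a2 x hx).and (b2 y hy)).and h).exists
  rw [src_rv, tgt_rv] at c1
  have p := nu_pos (c := c) hT l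
  have ne : s.σ^[l.toNat] c.src ≠ s.σ^[l.toNat] c.tgt := fun e => by simp [nu, e] at p
  have : nu s c l ≤ Y.dist (up s l x) (up s l y) := by
    unfold nu
    exact_mod_cast (c1.symm.glue c2 ne).dist_mid (c1.symm.glue' c2 ne)
  linarith

lemma freq_mul {p : ℕ → Prop} {J : ℕ} (hJ : 0 < J) (h : ∃ᶠ n in atTop, p (J * n)) :
    ∃ᶠ n in atTop, p n := by
  refine frequently_atTop.2 fun N => ?_
  obtain ⟨n, h1, h2⟩ := frequently_atTop.1 h N
  exact ⟨J * n, h1.trans (Nat.le_mul_of_pos_left _ hJ), h2⟩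

lemma smul_pow_sub {t : G} {B : Set Y.V} (h : ∀ x ∈ B, t • x ∈ B) (n : ℕ) :
    ∀ x ∈ B, t ^ n • x ∈ B := by
  induction n with
  | zero => simp
  | succ n ih => exact fun x hx => by rw [pow_succ', mul_smul]; exact h _ (ih x hx)

/-- A non-recurrent limit half-space is wandering or expanded by a power of `t`. -/
lemma wand_or (hT : s.TT) {t : G} {ι : ℕ → Y.Dir} (h : s.Itin ι) (hR : ¬ Rec t (s.LH ι)) :
    (∀ j : ℤ, j ≠ 0 → Disjoint (t ^ j • s.LH ι) (s.LH ι)) ∨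
      ∃ J : ℕ, 0 < J ∧ ∀ x ∈ s.LH ι, (t ^ J)⁻¹ • x ∈ s.LH ι := by
  refine or_iff_not_imp_right.2 fun H => ?_
  have key : ∀ J : ℕ, 0 < J → Disjoint (t ^ J • s.LH ι) (s.LH ι) := by
    intro J hJ
    have := (h.tr (t ^ J)).nested' h hT
    rw [← smul_LH] at this
    rcases this with e | e | e | e
    · refine (hR ⟨(ι 0).tgt, freq_mul hJ (Frequently.of_forall fun n => ?_)⟩).elim
      rw [pow_mul]
      exact smul_pow_sub (fun x hx => e (Set.smul_mem_smul_set hx)) n _ (h.tgt_mem_LH hT 0)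
    · exact (H ⟨J, hJ, fun x hx => Set.mem_smul_set_iff_inv_smul_mem.1 (e hx)⟩).elim
    · exact e
    · refine (hR ⟨(ι 0).tgt, frequently_atTop.2 fun N => ?_⟩).elim
      rcases Set.eq_univ_iff_forall.1 e (t ^ (J + N) • (ι 0).tgt) with e | e
      · rw [pow_add, mul_smul, Set.smul_mem_smul_set_iff] at e
        exact ⟨N, le_rfl, e⟩
      · exact ⟨J + N, by omega, e⟩
  intro j hj
  obtain ⟨J, rfl | rfl⟩ := j.eq_nat_or_neg
  · rw [zpow_natCast]; exact key J (by omega)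
  · rw [← Set.disjoint_smul_set (a := t ^ J), ← mul_smul, zpow_neg, zpow_natCast, mul_inv_cancel,
      one_smul]
    exact (key J (by omega)).symm

/-- WAND: every element of positive degree has a wandering limit half-space. -/
theorem wand (hG : FC d) (hT : s.TT) {t : G} (ht : 0 < dg d t) : ∃ ι : ℕ → Y.Dir, s.Itin ι ∧
    ∀ j : ℤ, j ≠ 0 → Disjoint (t ^ j • s.LH ι) (s.LH ι) := by
  obtain ⟨ι, h, hR⟩ : ∃ ι, s.Itin ι ∧ ¬ Rec t (s.LH ι) := by
    obtain ⟨c, ι, ι', a1, a2, a3⟩ := exists_sep hG.surj hT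
    by_contra H
    push Not at H
    obtain ⟨x, hx, y, hy, e⟩ := (H ι a1).close hT ht (H ι' a2) c
    exact a3 x hx y hy e
  obtain ⟨ι₁, ι₂, a1, a2, a3, a4, a5⟩ := two_inside hG hT h
  rcases wand_or hT a1 fun e => hR (e.mono a3) with e | ⟨J, hJ, e⟩
  · exact ⟨ι₁, a1, e⟩
  rcases wand_or hT a2 fun e => hR (e.mono a4) with e' | ⟨J', hJ', e'⟩
  · exact ⟨ι₂, a2, e'⟩
  have key : ∀ {μ μ' : ℕ → Y.Dir} {g : G}, s.Itin μ → s.Itin μ' → s.LH μ ⊆ s.LH ι →
      s.LH μ' ⊆ s.LH ι → Disjoint (s.LH μ) (s.LH μ') → (∀ x ∈ s.LH μ, g⁻¹ • x ∈ s.LH μ) →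
      (∀ x ∈ s.LH μ', g⁻¹ • x ∈ s.LH μ') → g • (μ 0).tgt ∈ s.LH ι ∨ g⁻¹ • (ι 0).src ∈ s.LH μ := by
    intro μ μ' g b1 b2 b3 b4 b5 b6 b7
    have := (b1.tr g).nested' h hT
    rw [← smul_LH] at this
    have c1 := b1.tgt_mem_LH hT 0
    have c2 := b2.tgt_mem_LH hT 0
    rcases this with e | e | e | e
    · exact Or.inl (e (Set.smul_mem_smul_set c1))
    · exact (Set.disjoint_left.1 b5 (Set.mem_smul_set_iff_inv_smul_mem.1 (e (b4 c2)))
        (b7 _ c2)).elim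
    · exact (Set.disjoint_left.1 e (Set.mem_smul_set_iff_inv_smul_mem.2 (b6 _ c1)) (b3 c1)).elim
    · exact Or.inr (Set.mem_smul_set_iff_inv_smul_mem.1
        ((Set.eq_univ_iff_forall.1 e _).resolve_right ((h.not_mem_LH hT).2 (h.src_mem_LH hT 0))))
  have all : ∀ n : ℕ, t ^ (J * J' * n) • (ι₁ 0).tgt ∈ s.LH ι ∨
      t ^ (J * J' * n) • (ι₂ 0).tgt ∈ s.LH ι := fun n => by
    have b1 : ∀ x ∈ s.LH ι₁, (t ^ (J * J' * n))⁻¹ • x ∈ s.LH ι₁ := by
      rw [mul_assoc, pow_mul, ← inv_pow]; exact smul_pow_sub e _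
    have b2 : ∀ x ∈ s.LH ι₂, (t ^ (J * J' * n))⁻¹ • x ∈ s.LH ι₂ := by
      rw [mul_comm J, mul_assoc, pow_mul, ← inv_pow]; exact smul_pow_sub e' _
    rcases key a1 a2 a3 a4 a5 b1 b2 with c1 | c1
    · exact Or.inl c1
    · exact Or.inr ((key a2 a1 a4 a3 a5.symm b2 b1).resolve_right (Set.disjoint_left.1 a5 c1))
  rcases frequently_or_distrib.1 (Frequently.of_forall (f := atTop) all) with e | e
  exacts [(hR ⟨_, freq_mul (mul_pos hJ hJ') e⟩).elim, (hR ⟨_, freq_mul (mul_pos hJ hJ') e⟩).elim]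

end Pool.Agent.Lib.FBC.Wand
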