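import Pool.Agent.Lib.FBC.X3.Blue
import Pool.Agent.Lib.FBC.X3.WAND

/-!
Limit half-spaces seen from trajectories: a convex half-space and a wandering half-space.
-/

namespace Pool.Agent.Lib.FBC.X3

open Forest Pointwise

/-- Points whose trajectory passes beyond a long legal segment lie in the limit half-space. -/
lemma sv_LH (hSV : St_SV) {G : Type} [Group G] {d : Dg G} (hd : Function.Surjective d)
    {Y : Forest d} {s : Flow Y} (hT : s.TT) {D : ℕ} {π : ℤ → Y.V → Y.V} (h : Traj s D π)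
    (h' : TrueUp s π) : ∃ E : ℕ, ∀ (ι : ℕ → Y.Dir) (y x : Y.V), s.Itin ι →
      Y.lev (ι 0).src = 0 → s.LegalP (ι 0).src y → y ∈ (ι 0).H → E ≤ Y.dist (ι 0).tgt y →
      Y.btw (ι 0).src y (π 0 x) → x ∈ s.LH ι := by
  obtain ⟨E, hE⟩ := hSV G d hd Y s hT D
  refine ⟨E, fun ι y x h1 h2 h3 h4 h5 h6 => h1.mem_LH.2 ⟨0, fun n _ k e => ?_⟩⟩
  have a1 := hE _ _ y n (fun k => π k x) h3 (mem_H_iff_btw.1 h4) h5 h6 fun k _ =>
    ⟨by simp [h.lev], by simpa using h.po k x⟩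
  have a2 := h1.desc hT 0 n
  rw [zero_add] at a2
  rw [← h' x k, e, h2, zero_add]
  exact Cross.mem_H a2 a1

theorem stDB (hSV : St_SV) : St_DB := by
  intro G _ d hd Y s hT D π h h' r hr N
  obtain ⟨E, hE⟩ := sv_LH hSV hd hT h h'
  obtain ⟨p, hp, l⟩ := hr.leg N (E + 1 + E)
  have R := hr.ray
  obtain ⟨ι, h0, hι⟩ := hT.exists_itin (r (p + E))
  refine ⟨p + (E + 1 + E), s.LH ι, fun x hx => hE ι (r (p + (E + 1 + E))).src x hι ?_ ?_ ?_ ?_ ?_,
    fun x hx => mem_H_of_not ((h.lev 0 x).trans (hr.lev N).symm) fun t =>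
      hι.LH_disj hx (hE _ (r p).src x hι.rv ?_ ?_ ?_ ?_ ?_), fun m e e' h1 h2 h3 => ?_⟩
  any_goals simp only [h0, src_rv, tgt_rv, R.tgt]
  · exact hr.lev _
  · exact l.sa_sub (R.btw3 (by omega) (by omega)) (btw_right l.1)
  · exact R.src_mem (by omega)
  · rw [R.dist_sub (by omega)]; omega
  · exact R.btw (by omega) hx
  · exact hr.lev _
  · exact l.sa_sub (R.btw3 (by omega) (by omega)) (btw_left l.1)
  · exact R.src_rv (by omega)
  · rw [Forest.dist_comm, R.dist_sub (by omega)]; omega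
  · exact (R.btw_of_cross t (R.src_mem (Nat.lt_succ_of_le (Nat.le_add_right p E))) hp le_rfl).symm
  · obtain ⟨N₁, a1⟩ := hι.mem_LH.1 h2
    obtain ⟨N₂, a2⟩ := hι.mem_LH.1 h3
    refine hι.mem_LH.2 ⟨max N₁ N₂, fun n hn k e₀ => ?_⟩
    have l1 := h1.lh_lev
    have b := (hT.sa_iter_dir e m).sa_btw (Cross.btw_src h1) k
    rw [← Function.iterate_add_apply, ← Function.iterate_add_apply] at b
    exact b.mem_H (a1 n (le_of_max_le_left hn) _ (by push_cast; omega))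
      (a2 n (le_of_max_le_right hn) _ (by rw [← lev_src_tgt]; push_cast; omega))

theorem stWANT (hSV : St_SV) : St_WANT := by
  intro G _ d hG Y s hT D π h h' t ht
  obtain ⟨E, hE⟩ := sv_LH hSV hG.surj hT h h'
  obtain ⟨ι, h1, h2⟩ := Wand.wand hG hT ht
  obtain ⟨a, n, e⟩ : ∃ (a : ℤ) (n : ℕ), Y.lev (ι 0).src + n + a * dg d t = 0 := by
    generalize Y.lev (ι 0).src = l
    have : 0 ≤ |l| * dg d t - l := by nlinarith [abs_nonneg l, le_abs_self l]
    exact ⟨-|l|, (|l| * dg d t - l).toNat, by rw [Int.toNat_of_nonneg this]; ring⟩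
  have h3 := (h1.shift n).tr (t ^ a)
  have l : Y.lev ((ι (0 + n)).tr (t ^ a)).src = 0 := by
    rw [src_tr, lev_smul', zero_add, h1.lev, dg_zpow, e]
  obtain ⟨x, y, a1, a2, -, a4⟩ := hT.legal_ext ((ι (0 + n)).tr (t ^ a)) E
  obtain ⟨w, w1, w2⟩ := exists_last a2.btw_src.lev2 (Cross.ne ⟨src_mem_rv_H _, a2.2⟩)
  have key : ∀ z, π 0 z ∈ w.H → (t ^ a)⁻¹ • z ∈ s.LH ι := fun z hz => by
    have := hE _ y z h3 l (a1.sa_sub a2.btw_src (btw_right a1.1)) a2.2 a4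
      (w1 ▸ Cross.btw_tgt ⟨w2.1, hz⟩)
    rwa [← Flow.smul_LH, Flow.LH_shift, Set.mem_smul_set_iff_inv_smul_mem] at this
  refine ⟨w, w2.lev_src.symm.trans l, fun j hj z b1 b2 =>
    Set.disjoint_left.1 (h2 j hj) (Set.smul_mem_smul_set (key z b1)) ?_⟩
  have := key _ b2
  rwa [← mul_smul, ← zpow_neg, ← zpow_add, add_comm, zpow_add, zpow_neg, mul_smul] at this

end Pool.Agent.Lib.FBC.X3
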