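import Pool.Agent.Lib.FBC.X3.Blue

/-!
A language word through a block that leaves a given long segment on both sides.
-/

namespace Pool.Agent.Lib.FBC.X3

open Forest

namespace DEV

variable {G : Type} [Group G] {d : Dg G} {Y : Forest d}

/-- the conclusion for one block -/
def P (s : Flow Y) (β : ℕ) (p q : Y.V) : Prop :=
  ∀ a b, Seg Y a b p q → β ≤ Y.dist a p → β ≤ Y.dist q b → ∃ x y e₁ e₄, Lang s x y ∧
    Seg Y x y p q ∧ Y.Cross a p e₁ ∧ x ∈ e₁.H ∧ ¬ Y.btw a x b ∧ Y.Cross q b e₄ ∧ y ∉ e₄.H ∧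
      ¬ Y.btw a y b

lemma P.mono {s : Flow Y} {β β' : ℕ} {p q : Y.V} (h : P s β p q) (e : β ≤ β') : P s β' p q :=
  fun a b h1 h2 h3 => h a b h1 (e.trans h2) (e.trans h3)

lemma P.of_smul {s : Flow Y} (L : LangAPI s) {β : ℕ} {p q : Y.V} (g : G)
    (h : P s β (g • p) (g • q)) : P s β p q := by
  intro a b h1 h2 h3
  obtain ⟨x, y, e₁, e₄, t1, t2, t3, t4, t5, t6, t7, t8⟩ :=
    h (g • a) (g • b) ⟨h1.1.smul g, h1.2.smul g⟩ (by simpa using h2) (by simpa using h3)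
  refine ⟨g⁻¹ • x, g⁻¹ • y, e₁.tr g⁻¹, e₄.tr g⁻¹, L.smul _ _ _ t1,
    ⟨by simpa using t2.1.smul g⁻¹, by simpa using t2.2.smul g⁻¹⟩, by simpa using t3.smul g⁻¹,
    by simpa using t4, fun t => t5 (by simpa using t.smul g), by simpa using t6.smul g⁻¹,
    by simpa using t7, fun t => t8 (by simpa using t.smul g)⟩

/-- one of boundedly many extensions leaves every given geodesic -/
lemma dev {s : Flow Y} (A : ∀ x y, Lang s x y → x ≠ y → ∃ u v, Lang s x u ∧ Lang s x v ∧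
    Y.btw x y u ∧ Y.btw x y v ∧ ¬ Y.btw x u v ∧ ¬ Y.btw x v u) {x y : Y.V} (h : Lang s x y)
    (hne : x ≠ y) : ∃ u : Bool → Y.V, (∀ i, Lang s x (u i) ∧ Y.btw x y (u i)) ∧
      ∀ b, ∃ i, ¬ Y.btw x (u i) b := by
  obtain ⟨u, v, h1, h2, h3, h4, h5, h6⟩ := A x y h hne
  refine ⟨fun i => if i then u else v, fun i => by cases i <;> simp [*], fun b => ?_⟩
  by_cases t : Y.btw x u b
  · exact ⟨false, fun t' => (t.total t').elim h5 h6⟩
  · exact ⟨true, t⟩

lemma exists_P {s : Flow Y} (L : LangAPI s)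
    (A : ∀ x y, Lang s x y → x ≠ y → ∃ u v, Lang s x u ∧ Lang s x v ∧
      Y.btw x y u ∧ Y.btw x y v ∧ ¬ Y.btw x u v ∧ ¬ Y.btw x v u) {p q : Y.V} (h : Lang s p q)
    (hne : p ≠ q) : ∃ β, P s β p q := by
  obtain ⟨u, hu, hu'⟩ := dev A (L.symm _ _ h) hne.symm
  have ne : ∀ i, u i ≠ q := fun i t => hne (t ▸ (hu i).2).eq_of_self
  choose v hv hv' using fun i => dev A (L.symm _ _ (hu i).1) (ne i)
  refine ⟨(Finset.univ.sup fun i => Y.dist (u i) p) +
    (Finset.univ.sup fun k : Bool × Bool => Y.dist q (v k.1 k.2)) + 1, fun a b h1 h2 h3 => ?_⟩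
  obtain ⟨i, hi⟩ := hu' a
  obtain ⟨j, hj⟩ := hv' i b
  have b1 : Y.dist (u i) p ≤ _ := Finset.le_sup (f := fun i => Y.dist (u i) p) (Finset.mem_univ i)
  have b2 : Y.dist q (v i j) ≤ _ :=
    Finset.le_sup (f := fun k : Bool × Bool => Y.dist q (v k.1 k.2)) (Finset.mem_univ (i, j))
  have xpq : Y.btw (u i) p q := (hu i).2.symm
  have xqy : Y.btw (u i) q (v i j) := (hv i j).2
  have pqy : Y.btw p q (v i j) := xqy.trans_left' xpq
  have apq : Y.btw a p q := h1.1.trans_right' h1.2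
  have aqb : Y.btw a q b := h1.1.trans_right h1.2
  have xqb : Y.btw (u i) q b := xpq.glue' h1.2 hne
  obtain ⟨e₁, rfl, he₁⟩ := exists_step h1.1.lev1 (by rintro rfl; simp at h2)
  obtain ⟨e₄, rfl, he₄⟩ := exists_last h1.2.lev2 (by rintro rfl; simp at h3)
  refine ⟨u i, v i j, e₁, e₄, (hv i j).1, ⟨xqy.trans_left xpq, pqy⟩, he₁, ?_, fun t => ?_, he₄,
    fun t => ?_, fun t => ?_⟩
  · refine mem_H_of_not (xpq.lev1.trans h1.1.lev1.symm) fun t => ?_
    have := (Cross.btw_src ⟨t, he₁.2⟩).dist_le'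
    omega
  · rcases t.total aqb with r | r
    · exact hi r.symm
    · exact hne (apq.antisymm (r.trans_right' xpq.symm))
  · have := (Cross.btw_tgt ⟨he₄.1, t⟩).dist_le
    omega
  · rcases t.total aqb with r | r
    · rcases r.total' apq with r' | r'
      · exact hne (r'.antisymm pqy.symm)
      · exact hj (r'.antisymm pqy ▸ xqb)
    · exact hj (xqb.trans_right (t.trans_left' r))

end DEV

open DEV in
theorem stDEV (hLANG : St_LANG) (hAP : St_AP) : St_DEV := by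
  intro G _ d hF Y s hT m
  have L := hLANG G d hF.surj Y s hT
  have key : ∀ ε : Y.Dir, ∃ β, P s β (s.σ^[m] ε.src) (s.σ^[m] ε.tgt) := fun ε => by
    have l := (hT.sa_iter_dir ε m).1
    refine exists_P L (hAP G d hF Y s hT) ⟨m, ε, btw_left l, btw_right l⟩ fun t => ?_
    have := hT.sa_exp_iter (s.sa_legal_dir ε) m
    rw [t, Forest.dist_self, dist_src_tgt] at this
    have := Nat.pow_pos (n := m) (show 0 < 4 by norm_num)
    omega
  choose β hβ using key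
  obtain ⟨S, hS⟩ := finite_dir_orbits (Y := Y) ⊤
  refine ⟨S.sup β, ?_⟩
  rintro a b _ _ ε rfl rfl
  obtain ⟨g, -, hg⟩ := hS ε
  have := (hβ (ε.tr g)).mono (Finset.le_sup hg)
  rw [src_tr, tgt_tr, s.iter_smul, s.iter_smul] at this
  exact P.of_smul L g this a b

end Pool.Agent.Lib.FBC.X3
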