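import Pool.Agent.Lib.FBC.X3.Blue

/-!
A class that is one on a loxodromic element and grows slowly along a relation.
-/

namespace Pool.Agent.Lib.FBC.X3

open Pool.Agent.Lib.MP_288210_al (LERF)
open Forest Eta

theorem stETAA (hEXC : St_EXC) (hPPA : St_PPA) : St_ETAA := by
  intro G _ X _ K A s Dm Dp o R T hL hK ai hs hm hp hw ho hR hT hRA
  classical
  have hQ : (K ⊔ Subgroup.zpowers s).FG :=
    hK.sup ⟨{s}, by rw [Finset.coe_singleton, Subgroup.zpowers_eq_closure]⟩
  obtain ⟨H, hH, hQH, hE⟩ := hEXC G X K _ A (insert (o, s • o) T) hL le_sup_left hQ ai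
  have hl : K ≤ H := le_sup_left.trans hQH
  have hsH : s ∈ H := hQH (Subgroup.mem_sup_right (Subgroup.mem_zpowers s))
  have hS : ∀ k ∈ K, ∀ g, k * g ∈ (H : Set G) ↔ g ∈ (H : Set G) := fun k hk g =>
    H.mul_mem_cancel_left (hl hk)
  have PP := hPPA G X K s Dm Dp hs (Set.disjoint_left.2 fun x h1 h2 => hm x h1 (hp h2)) hw
  refine ⟨H, ai.eta hl o, hsH, Phi K A H o, hH, ?_, fun h x => ai.ht hl o h x, fun x y hxy => ?_⟩
  · have o1 : s • o ∈ A := hp ((hs o).1 fun t => ho 1 K.one_mem (by simpa using .inl t))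
    have o2 : s⁻¹ • o ∉ A := hm _ (by_contra fun t => ho 1 K.one_mem (by
      simpa using .inr (by simpa using (hs _).1 t)))
    have cr : ∀ g ∈ H, Sp A (g • o) (g • s • o) → g ∈ K ∨ g * s ∈ K := by
      intro g hg sp
      rcases (PP g ((hE _ (Finset.mem_insert_self _ _)).1 g hg sp) o ho).2 with
        t | t | ⟨k, hk, t | t⟩
      · exact .inl t
      · exact .inr t
      · rw [mul_assoc, mul_smul, mul_smul, mul_smul] at t
        exact (sp (iff_of_false (fun u => hm _ t.1 (ai.inv k hk _ u))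
          fun u => hm _ t.2 (ai.inv k hk _ u))).elim
      · rw [mul_assoc, mul_smul, mul_smul, mul_smul] at t
        exact (sp (iff_of_true ((ai.iff hk _).1 (hp t.1)) ((ai.iff hk _).1 (hp t.2)))).elim
    have nd : ∀ g ∈ (H : Set G), g • o ∈ A → g • s • o ∉ A → ∃ k ∈ K, k * g ∈ (∅ : Finset G) := by
      intro g hg h1 h2
      rcases cr g hg (fun t => h2 (t.1 h1)) with t | t
      · exact (h2 (ai.inv g t _ o1)).elim
      · refine (o2 ((ai.iff t _).1 ?_)).elim
        simpa [mul_smul] using h1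
    obtain ⟨t, t1, t2, t3, t4⟩ : ∃ t ∈ H, t • o ∉ A ∧ t • s • o ∈ A ∧
        ∀ g ∈ (H : Set G), g • s • o ∈ A → g • o ∉ A → ∃ k ∈ K, k * g ∈ ({t} : Finset G) := by
      by_cases h0 : o ∈ A
      · refine ⟨s⁻¹, H.inv_mem hsH, o2, by simpa using h0, fun g hg h1 h2 => ?_⟩
        rcases cr g hg (fun t => h2 (t.2 h1)) with t | t
        · exact (h2 (ai.inv g t _ h0)).elim
        · exact ⟨_, K.inv_mem t, by simp⟩
      · refine ⟨1, H.one_mem, by simpa using h0, by simpa using o1, fun g hg h1 h2 => ?_⟩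
        rcases cr g hg (fun t => h2 (t.2 h1)) with t | t
        · exact ⟨_, K.inv_mem t, by simp⟩
        · exact (h0 ((ai.iff t _).1 (by rwa [mul_smul]))).elim
    have l1 := ai.le hS o (s • o) {t} ∅ (by simpa using ⟨t1, t2, t3⟩) (by simp) nd
    have l2 := ai.le hS (s • o) o ∅ {t} (by simp) (by simp) t4
    rw [ai.neg] at l2
    rw [ai.dg_eta hl o o]
    simp only [Finset.card_singleton, Finset.card_empty] at l1 l2
    show Phi K A H o (s • o) = 1
    omega
  · have mid : ∀ g : G, g • y ∈ A → g • x ∉ A → ∀ k ∈ K, k • g • y ∉ Dm ∪ Dp := by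
      rintro g h1 h2 k hk (t | t)
      · exact hm _ t (ai.inv k hk _ h1)
      · exact h2 ((ai.iff hk _).1 (hRA _ _ (hR k _ _ (hR g _ _ hxy)) t))
    obtain ⟨t, ht⟩ : ∃ t : G, ∀ g ∈ (H : Set G), g • y ∈ A → g • x ∉ A →
        ∃ k ∈ K, k * g ∈ ({t} : Finset G) := by
      by_cases h : ∃ t ∈ H, t • y ∈ A ∧ t • x ∉ A
      · obtain ⟨t, t1, t2, t3⟩ := h
        refine ⟨t, fun g hg h1 h2 => ⟨t * g⁻¹, ?_, by simp⟩⟩
        obtain ⟨g₀, h0⟩ := hT x y hxy
        have e : t * g₀⁻¹ * (g * g₀⁻¹)⁻¹ = t * g⁻¹ := by group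
        have := (hE _ (Finset.mem_insert_of_mem h0)).2 (g * g₀⁻¹) (t * g₀⁻¹)
          (by simp only [mul_smul, inv_smul_smul]; exact fun u => h2 (u.2 h1))
          (by simp only [mul_smul, inv_smul_smul]; exact fun u => t3 (u.2 t2))
          (e ▸ H.mul_mem t1 (H.inv_mem hg))
        rw [e] at this
        rcases (PP _ this (g • y) (mid g h1 h2)).1 with u | ⟨k, hk, u⟩
        · exact u
        · exact (mid t t2 t3 k hk (by simpa [mul_smul] using u)).elim
      · exact ⟨1, fun g hg h1 h2 => (h ⟨g, hg, h1, h2⟩).elim⟩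
    have l := ai.le hS y x ∅ {t} (by simp) (by simp) ht
    have := ai.add H o x y
    rw [ai.neg] at l
    simp only [Finset.card_singleton, Finset.card_empty] at l
    omega

end Pool.Agent.Lib.FBC.X3
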