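import Pool.Agent.Lib.FBC.X3.Blue

/-!
A class that vanishes on a power of `t` but not on a conjugate.
-/

namespace Pool.Agent.Lib.FBC.X3

open Pool.Agent.Lib.MP_288210_al (LERF)
open Forest Eta

namespace ETAV

variable {G : Type} [Group G] {X : Type} [MulAction G X]

/-- points of the orbit of `o` given by normal forms that end with a power of `s` -/
inductive I1 (K : Subgroup G) (s : G) (o : X) : X → Prop
  | base (a : ℤ) : I1 K s o (s ^ a • o)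
  | step (y : X) (k : G) (a : ℤ) : I1 K s o y → k ∈ K → k ≠ 1 → a ≠ 0 → I1 K s o (s ^ a • k • y)

lemma zpow_inv {K : Subgroup G} {s : G} {o : X} (a : ℤ) (z : X)
    (hz : ∃ k ∈ K, ∃ y, I1 K s o y ∧ z = k • y) :
    ∃ k ∈ K, ∃ y, I1 K s o y ∧ s ^ a • z = k • y := by
  obtain ⟨k, hk, y, hy, rfl⟩ := hz
  by_cases ha : a = 0
  · exact ⟨k, hk, y, hy, by simp [ha]⟩
  by_cases h1 : k = 1
  · subst h1
    cases hy with
    | base b => exact ⟨1, hk, _, .base (a + b), by simp [zpow_add, mul_smul]⟩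
    | step y k b hy hk' h1 hb =>
      by_cases hab : a + b = 0
      · exact ⟨k, hk', y, hy, by rw [one_smul, ← mul_smul, ← zpow_add, hab]; simp⟩
      · exact ⟨1, hk, _, .step y k (a + b) hy hk' h1 hab, by simp [zpow_add, mul_smul]⟩
  · exact ⟨1, K.one_mem, _, .step y k a hy hk h1 ha, by simp⟩

lemma orbit (K : Subgroup G) (s : G) (o : X) {q : G} (hq : q ∈ K ⊔ Subgroup.zpowers s) :
    ∃ k ∈ K, ∃ y, I1 K s o y ∧ q • o = k • y := by
  let W : Set X := {z | ∃ k ∈ K, ∃ y, I1 K s o y ∧ z = k • y}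
  let S : Subgroup G :=
    { carrier := {g | ∀ z ∈ W, g • z ∈ W ∧ g⁻¹ • z ∈ W}
      one_mem' := fun z hz => by simpa using hz
      mul_mem' := fun {a b} ha hb z hz => by
        rw [mul_inv_rev, mul_smul, mul_smul]
        exact ⟨(ha _ (hb z hz).1).1, (hb _ (ha z hz).2).2⟩
      inv_mem' := fun {a} ha z hz => by
        rw [inv_inv]
        exact (ha z hz).symm }
  have hK : ∀ k ∈ K, ∀ z ∈ W, k • z ∈ W := by
    rintro k hk _ ⟨k', hk', y, hy, rfl⟩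
    exact ⟨k * k', K.mul_mem hk hk', y, hy, (mul_smul _ _ _).symm⟩
  have hS : K ⊔ Subgroup.zpowers s ≤ S := by
    refine sup_le (fun k hk z hz => ⟨hK k hk z hz, hK _ (K.inv_mem hk) z hz⟩) ?_
    rintro _ ⟨a, rfl⟩ z hz
    exact ⟨zpow_inv a z hz, by rw [← zpow_neg]; exact zpow_inv (-a) z hz⟩
  exact (hS hq o ⟨1, K.one_mem, _, .base 0, by simp⟩).1

lemma miss {K : Subgroup G} {t : G} {B : Set X} {b : X} (hb : b ∈ B)
    (hB : ∀ j : ℤ, j ≠ 0 → ∀ x ∈ B, t ^ j • x ∉ B)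
    (hK : ∀ k ∈ K, ∀ x, x ∉ B → k • x ∉ B → k = 1) {y : X} (hy : I1 K (t ^ 2) (t • b) y) :
    y ∉ B := by
  have e : ∀ a : ℤ, (t ^ 2) ^ a = t ^ (2 * a) := fun a => by
    rw [zpow_mul, zpow_ofNat]
  induction hy with
  | base a =>
    rw [e, ← mul_smul, ← zpow_add_one]
    exact hB _ (by omega) b hb
  | step y k a _ hk h1 ha ih =>
    rw [e]
    exact hB _ (by omega) _ (by_contra fun h => h1 (hK k hk y ih h))

lemma phi_zero {K : Subgroup G} {A : Set X} {S : Set G} {x y : X}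
    (h : ∀ g ∈ S, ¬ Sp A (g • x) (g • y)) : Phi K A S x y = 0 := by
  unfold Phi
  refine (finsum_congr fun c => ?_).trans finsum_zero
  split_ifs with hc
  · have := not_not.1 (h _ hc)
    by_cases h1 : c.out • x ∈ A
    · simp [jump, h1, this.1 h1]
    · simp [jump, h1, mt this.2 h1]
  · rfl

lemma reps (H : Subgroup G) [H.FiniteIndex] : ∃ R : Finset G,
    (∀ g, ∃ r ∈ R, g * r⁻¹ ∈ H) ∧ ∀ r ∈ R, ∀ r' ∈ R, r' * r⁻¹ ∈ H → r = r' := by
  classical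
  have : Finite (RC H) :=
    Finite.of_equiv _ (QuotientGroup.quotientRightRelEquivQuotientLeftRel H).symm
  have := Fintype.ofFinite (RC H)
  refine ⟨Finset.univ.image fun c : RC H => c.out, fun g => ?_, ?_⟩
  · exact ⟨_, Finset.mem_image_of_mem _ (Finset.mem_univ (rc H g)), rc_eq.1 (rc_out _)⟩
  · intro r hr r' hr' e
    obtain ⟨c, -, rfl⟩ := Finset.mem_image.1 hr
    obtain ⟨c', -, rfl⟩ := Finset.mem_image.1 hr'
    rw [← rc_out c, ← rc_out c', rc_eq.2 e]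

end ETAV

open ETAV in
theorem stETAV (hEXC : St_EXC) : St_ETAV := by
  intro G _ X _ d K A t B x₀ hL hK hA hd ⟨b, hb⟩ hB hAB hKB ⟨Φ, Γ, hc, hΦ, hΓ, hΓ'⟩
  classical
  have hQ : (K ⊔ Subgroup.zpowers (t ^ 2)).FG :=
    hK.sup (by rw [Subgroup.zpowers_eq_closure]; exact ⟨{t ^ 2}, by simp⟩)
  obtain ⟨H, hH, hQH, hT⟩ := hEXC G X K _ A {(t • b, t ^ 2 • t • b)} hL le_sup_left hQ hA
  have hKH : K ≤ H := le_sup_left.trans hQH
  have ht2 : t ^ 2 ∈ K ⊔ Subgroup.zpowers (t ^ 2) :=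
    Subgroup.mem_sup_right (Subgroup.mem_zpowers _)
  have hout : ∀ q ∈ K ⊔ Subgroup.zpowers (t ^ 2), q • t • b ∉ A := fun q hq => by
    obtain ⟨k, hk, y, hy, e⟩ := orbit K (t ^ 2) (t • b) hq
    rw [e, hA.iff hk]
    exact fun h => miss hb hB hKB hy (hAB y h)
  have h0 : dg (hA.eta hKH x₀) ⟨t ^ 2, hQH ht2⟩ = 0 := by
    rw [hA.dg_eta hKH x₀ (t • b)]
    refine phi_zero fun g hg hs => hs ?_
    have hq := (hT _ (Finset.mem_singleton_self _)).1 g hg hs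
    refine iff_of_false (hout g hq) ?_
    rw [← mul_smul]
    exact hout _ (Subgroup.mul_mem _ hq ht2)
  obtain ⟨n, hn, -, hnc⟩ := Subgroup.exists_pow_mem_of_index_ne_zero
    (Subgroup.FiniteIndex.index_ne_zero (H := H.normalCore)) (t ^ 2)
  rw [← pow_mul] at hnc
  have hcj : ∀ r : G, r * t ^ (2 * n) * r⁻¹ ∈ H := fun r => hnc r
  have hx : t ^ (2 * n) ∈ H := by simpa using hcj 1
  have h1 : dg (hA.eta hKH x₀) ⟨t ^ (2 * n), hx⟩ = 0 := by
    have : (⟨t ^ (2 * n), hx⟩ : H) = ⟨t ^ 2, hQH ht2⟩ ^ n := Subtype.ext (by simp [pow_mul])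
    rw [this, dg_pow, h0, mul_zero]
  by_contra hV
  have h2 : ∀ r : G, Phi K A H (r • x₀) (r • t ^ (2 * n) • x₀) = 0 := fun r => by
    obtain ⟨j, hj⟩ := hd r
    have ha : r * t ^ (-j) ∈ d.ker := by
      rw [mem_ker_iff, dg_mul, dg_zpow, hj]; ring
    have e : r * t ^ (-j) * t ^ (2 * n) * (r * t ^ (-j))⁻¹ = r * t ^ (2 * n) * r⁻¹ := by
      rw [← zpow_natCast]; group
    have h3 : hA.eta hKH x₀ ⟨t ^ (2 * n), hx⟩ = hA.eta hKH x₀ ⟨_, hcj r⟩ := by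
      by_contra h3
      exact hV ⟨H, hH, hA.eta hKH x₀, _, 2 * n, _, _, ha, by omega, rfl, e.symm, h3,
        fun z ⟨x, hz⟩ => hA.eta_fix hKH x₀ hz⟩
    have h4 := hA.dg_eta hKH x₀ (r • x₀) ⟨_, hcj r⟩
    rw [dg, ← h3] at h4
    rw [← h1, dg, h4]
    simp [mul_smul]
  obtain ⟨R, hR, hR'⟩ := reps H
  have h5 := hA.transfer hKH (L' := (⊤ : Subgroup G)) R (fun g => iff_of_true trivial (hR g)) hR'
    x₀ (t ^ (2 * n) • x₀)
  rw [Finset.sum_eq_zero fun r _ => h2 r] at h5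
  have h6 := hA.le (S := (⊤ : Subgroup G)) (fun _ _ _ => Iff.rfl) x₀ (t • x₀) Γ Φ
    (fun g hg => ⟨trivial, hΓ g hg⟩) hΓ' fun g _ => hΦ g
  have h7 := hA.dg_eta (le_top : K ≤ ⊤) x₀ x₀ (⟨t, trivial⟩ ^ (2 * n))
  rw [dg_pow, hA.dg_eta le_top x₀ x₀] at h7
  simp only [SubgroupClass.coe_pow] at h7
  rw [h5] at h7
  have h8 : (0 : ℤ) < Phi K A (⊤ : Subgroup G) x₀ (t • x₀) := by omega
  have h9 : (0 : ℤ) < ((2 * n : ℕ) : ℤ) := by omega
  exact (mul_pos h9 h8).ne' h7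

end Pool.Agent.Lib.FBC.X3
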