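import Pool.Agent.Lib.FBC.X3.Blue
import Pool.Agent.Lib.FBC.NoBS

/-!
Excluding the translates of a wall outside a finitely generated subgroup.
-/

namespace Pool.Agent.Lib.FBC.X3

open Eta Pointwise

theorem stEXC : St_EXC := by
  intro G _ X _ K Q A T hG hKQ hQ hA
  have key : ∀ p : X × X, ∃ Φ : Set G, Φ.Finite ∧
      ∀ γ : G, Sp A (γ • p.1) (γ • p.2) → ∃ k ∈ K, k * γ ∈ Φ := fun p => by
    obtain ⟨T1, h1, e1⟩ := hA.fin p.1 p.2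
    obtain ⟨T2, h2, e2⟩ := hA.fin p.2 p.1
    refine ⟨T1 ∪ T2, h1.union h2, fun γ h => ?_⟩
    by_cases a : γ • p.1 ∈ A
    · obtain ⟨k, hk, e⟩ := e2 γ (fun b => h ⟨fun _ => b, fun _ => a⟩) a
      exact ⟨k, hk, Or.inr e⟩
    · obtain ⟨k, hk, e⟩ := e1 γ a (by_contra fun b => h ⟨fun c => (a c).elim, fun c => (b c).elim⟩)
      exact ⟨k, hk, Or.inl e⟩
  choose Φ hΦ e using key
  have hB : (⋃ p ∈ T, Φ p ∪ Φ p * (Φ p)⁻¹).Finite :=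
    T.finite_toSet.biUnion fun p _ => (hΦ p).union ((hΦ p).mul (hΦ p).inv)
  obtain ⟨H, h1, h2, -, h3⟩ := lerf_sep_le hG hQ (L₀ := ⊤) inferInstance le_top hB
  refine ⟨H, h1, h2, fun p hp => ⟨fun γ hγ s => ?_, fun γ γ' s s' hγ => ?_⟩⟩
  · obtain ⟨k, hk, a⟩ := e p γ s
    exact (Q.mul_mem_cancel_left (hKQ hk)).1
      (h3 _ (Set.mem_biUnion hp (Or.inl a)) (H.mul_mem (h2 (hKQ hk)) hγ))
  · obtain ⟨k, hk, a⟩ := e p γ s
    obtain ⟨k', hk', a'⟩ := e p γ' s'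
    have e1 : k' * γ' * (k * γ)⁻¹ = k' * (γ' * γ⁻¹) * k⁻¹ := by group
    have := h3 _ (Set.mem_biUnion hp (Or.inr (Set.mul_mem_mul a' (Set.inv_mem_inv.2 a))))
      (by rw [e1]; exact H.mul_mem (H.mul_mem (h2 (hKQ hk')) hγ) (H.inv_mem (h2 (hKQ hk))))
    rw [e1] at this
    exact (Q.mul_mem_cancel_left (hKQ hk')).1 ((Q.mul_mem_cancel_right (Q.inv_mem (hKQ hk))).1 this)

end Pool.Agent.Lib.FBC.X3
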