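import Pool.Agent.Lib.FBC.X3.Blue

/-!
One staircase that points out of a wandering set gives virtual homological independence.
-/

namespace Pool.Agent.Lib.FBC.X3

open Pool.Agent.Lib.MP_288210_al (LERF)

namespace KEYV

variable {G : Type} [Group G] {X : Type} [MulAction G X]

lemma exists_sub (d : Dg G) {n : ℤ} (hn : 0 < n) :
    ∃ H : Subgroup G, H.FiniteIndex ∧ ∀ g, g ∈ H ↔ n ∣ dg d g := by
  obtain ⟨m, rfl⟩ := Int.eq_ofNat_of_zero_le hn.le
  have : NeZero m := ⟨by omega⟩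
  refine ⟨((Int.castAddHom (ZMod m)).toMultiplicative.comp d).ker, inferInstance, fun g => ?_⟩
  rw [← ZMod.intCast_zmod_eq_zero_iff_dvd]
  rfl

lemma vht_up {d : Dg G} (H : Subgroup G) [H.FiniteIndex] {t : H}
    (h : VHT (d.comp H.subtype) {g | ∃ x : X, g • x = x} t) :
    VHT d {g | ∃ x : X, g • x = x} t := by
  obtain ⟨L, hL, η, a, N, x, y, h1, h2, h3, h4, h5, h6⟩ := h
  let e := L.equivMapOfInjective H.subtype H.subtype_injective
  refine ⟨L.map H.subtype, ⟨?_⟩, η.comp e.symm.toMonoidHom, a, N, e x, e y, h1, h2,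
    congrArg Subtype.val h3, congrArg Subtype.val h4, by simpa using h5, fun z hz => ?_⟩
  · rw [Subgroup.index_map_subtype]
    exact mul_ne_zero hL.1 Subgroup.FiniteIndex.index_ne_zero
  · obtain ⟨z, rfl⟩ := e.surjective z
    simpa using h6 z hz

lemma stairs_res {d : Dg G} {lev : X → ℤ} {I : Type} {c : I → G} {N W V : I → Set X} {o : X}
    (h : Stairs d lev c N W V o) (H : Subgroup G) (hk : d.ker ≤ H) (hc : ∀ i, c i ∈ H) :
    Stairs (d.comp H.subtype) lev (fun i => (⟨c i, hc i⟩ : H)) N W V o where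
  lev_smul g x := h.lev_smul g x
  deg := h.deg
  st i := ⟨(h.st i).sub, (h.st i).out, (h.st i).tail⟩
  disj := h.disj
  base := h.base
  cf i x y := (h.cf i x y).preimage (f := ((↑) : H → G)) Subtype.val_injective.injOn
  win := by
    obtain ⟨Z, hZ⟩ := h.win
    refine ⟨Z, fun x => ?_⟩
    obtain ⟨g, hg, z, hz, e⟩ := hZ x
    exact ⟨⟨g, hk hg⟩, hg, z, hz, fun h' hh' => e h' hh'⟩

end KEYV

open KEYV in
theorem stKEYV (hW : St_WALL) (hE : St_ETAV) : St_KEYV := by
  intro G _ X _ d lev c t N W V B x₀ hL hk hS hc ht htc h0 hinf hB hw hV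
  obtain ⟨H, hH, hm⟩ := exists_sub d ht
  have hkH : d.ker ≤ H := fun g hg => (hm g).2 (by simp [dg, show d g = 1 from hg])
  have hL' : LERF H := hL.of_injective H.subtype H.subtype_injective
  have hk' : (d.comp H.subtype).ker.FG := by
    have : Group.FG d.ker := (Group.fg_iff_subgroup_fg _).2 hk
    exact (Group.fg_iff_subgroup_fg _).1 (Group.fg_of_surjective
      (f := (Subgroup.subgroupOfEquivOfLe hkH).symm.toMonoidHom) (MulEquiv.surjective _))
  obtain ⟨K, A, hl, hT⟩ := hW H X Unit _ lev _ _ _ _ x₀ x₀ (t • x₀) hL' hk'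
    (stairs_res hS H hkH fun _ => (hm c).2 htc)
  refine vht_up H (t := ⟨t, (hm t).2 dvd_rfl⟩) (hE H X _ K A _ B x₀ hL' hl.fg hl.ai
    (fun g => (hm g).1 g.2) hB hw (fun x hx => by_contra fun e => ?_)
    (fun k hk x e e' => hl.wand k hk () () x (hV x e) (hV _ e')) (hT h0 ?_ ?_))
  · exact absurd ((hl.tail () x (hV x e)).1 hx) hc.le.not_gt
  · rw [hS.lev_smul, h0, add_zero]; exact ht
  · exact Set.Infinite.of_image ((↑) : H → G)
      (hinf.mono fun g hg => ⟨⟨g, hkH hg.1⟩, ⟨hg.1, fun _ => hg.2⟩, rfl⟩)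

end Pool.Agent.Lib.FBC.X3
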