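import Pool.Agent.Lib.FBC.X3.Blue
import Pool.Agent.Lib.FBC.X3.WAND

/-!
The calculus of language words.
-/

namespace Pool.Agent.Lib.FBC.X3

open Forest FBC.Flow

namespace LANG

variable {G : Type} [Group G] {d : Dg G} {Y : Forest d} {s : Flow Y} {a b x y u v : Y.V}
  {e c : Y.Dir}

lemma sy (h : Seg Y a b x y) : Y.btw a y b := h.1.trans_right h.2

lemma sx (h : Seg Y a b x y) : Y.btw a x y := h.1.trans_right' h.2

lemma ssymm (h : Seg Y a b x y) : Seg Y b a y x := ⟨(sy h).symm, (sx h).symm⟩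

lemma strans (h : Seg Y a b x y) (h' : Seg Y x y u v) : Seg Y a b u v :=
  ⟨h.1.convex (sy h) h'.1, (h.2.trans_left' h'.1).trans_left h'.2⟩

lemma ssmul (h : Seg Y a b x y) (g : G) : Seg Y (g • a) (g • b) (g • x) (g • y) :=
  ⟨h.1.smul g, h.2.smul g⟩

lemma siter (l : s.LegalP a b) (h : Seg Y a b x y) (n : ℕ) :
    Seg Y (s.σ^[n] a) (s.σ^[n] b) (s.σ^[n] x) (s.σ^[n] y) :=
  ⟨l.sa_btw h.1 n, (l.sa_sub h.1 (btw_right l.1)).sa_btw h.2 n⟩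

lemma scross (h : Y.Cross a b e) : Seg Y a b e.src e.tgt := ⟨h.btw_src, h.btw2⟩

lemma sdesc (hT : s.TT) {n : ℕ} (h : s.Desc n c e) (m : ℕ) :
    Seg Y (s.σ^[m + n] c.src) (s.σ^[m + n] c.tgt) (s.σ^[m] e.src) (s.σ^[m] e.tgt) := by
  simp only [Function.iterate_add_apply]
  exact siter (hT.sa_iter_dir c n) (scross h) m

lemma str {m : ℕ} (h : Seg Y (s.σ^[m] e.src) (s.σ^[m] e.tgt) x y) (g : G) :
    Seg Y (s.σ^[m] (e.tr g).src) (s.σ^[m] (e.tr g).tgt) (g • x) (g • y) := by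
  rw [src_tr, tgt_tr, s.iter_smul, s.iter_smul]
  exact ssmul h g

lemma lsub (h : Lang s a b) (h' : Seg Y a b x y) : Lang s x y :=
  let ⟨m, e, t⟩ := h
  ⟨m, e, strans t h'⟩

lemma lsmul (g : G) (h : Lang s x y) : Lang s (g • x) (g • y) :=
  let ⟨m, e, t⟩ := h
  ⟨m, e.tr g, str t g⟩

lemma lfull (m : ℕ) (e : Y.Dir) : Lang s (s.σ^[m] e.src) (s.σ^[m] e.tgt) :=
  have l := s.lev_iter_eq m (lev_src_tgt e)
  ⟨m, e, btw_left l, btw_right l⟩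

lemma ext (hT : s.TT) (h : Lang s x y) (β : ℕ) : ∃ a b, Lang s a b ∧ Seg Y a b x y ∧
    β ≤ Y.dist a x ∧ β ≤ Y.dist y b := by
  obtain ⟨m, e, t⟩ := h
  obtain ⟨c, -, h1, h2, h3⟩ := hT.sa_deep e β e.1.i
  have l := hT.sa_iter_dir c (β + 1)
  have t1 := sdesc hT h1 m
  have p : β ≤ 4 ^ m * 4 ^ β :=
    (Nat.lt_pow_self (by norm_num)).le.trans (Nat.le_mul_of_pos_left _ (by positivity))
  refine ⟨_, _, lfull (m + (β + 1)) c, strans t1 t, ?_, ?_⟩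
  · refine le_trans ?_ ((sx t1).trans_right' t.1).dist_le
    rw [Function.iterate_add_apply]
    exact (p.trans (Nat.mul_le_mul_left _ h2)).trans
      (hT.sa_exp_iter (l.sa_sub (btw_left l.1) h1.btw_src) m)
  · refine le_trans ?_ (t1.2.trans_left' (sy t)).dist_le'
    rw [Function.iterate_add_apply]
    exact (p.trans (Nat.mul_le_mul_left _ h3)).trans
      (hT.sa_exp_iter (l.sa_sub h1.btw_tgt (btw_right l.1)) m)

lemma recur (hT : s.TT) (h : Lang s x y) (hc : Y.Cross x y e) : ∃ (L : ℕ) (c : G), 0 < L ∧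
    dg d c = L ∧ Seg Y (s.σ^[L] e.src) (s.σ^[L] e.tgt) (c • x) (c • y) := by
  obtain ⟨m, ε, t⟩ := h
  have h0 : s.Desc m ε e := hc.extend (sx t) (sy t)
  obtain ⟨k, g, hk, h1⟩ : ∃ (k : ℕ) (g : G), 0 < k ∧ s.Desc k e (ε.tr g) := by
    obtain ⟨e', -, -, hi, -, h1, -⟩ := hT.prim e ε.1.i
    obtain ⟨g, rfl | rfl⟩ := exists_tr hi.symm
    · exact ⟨1, g, one_pos, h1.1⟩
    · have h2 := (h1.1.lh_rv.lh_tr g)
      rw [rv_rv, tr_tr] at h2
      exact ⟨_, g * g, by omega, hT.lh_trans (hT.lh_trans h1.1 (h0.lh_rv.lh_tr g)) h2⟩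
  refine ⟨m + k, g, by omega, ?_, strans (sdesc hT h1 m) (str t g)⟩
  have h2 := h1.lh_lev
  rw [src_tr, lev_smul', h0.lh_lev] at h2
  push_cast
  omega

/-- two different darts of one image have descendants in the oriented orbit of `ε` -/
lemma two (hT : s.TT) (ε : Y.Dir) : ∃ (c c₁ c₂ : Y.Dir) (k : ℕ) (g₁ g₂ : G), s.Desc 1 c c₁ ∧
    s.Desc 1 c c₂ ∧ c₁.1 ≠ c₂.1 ∧ s.Desc k c₁ (ε.tr g₁) ∧ s.Desc k c₂ (ε.tr g₂) := by
  obtain ⟨e, e', hne, hi, hi', ⟨h, -⟩, h', -⟩ := hT.prim ε ε.1.i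
  have f : ∀ {g : G}, s.Desc 1 ε (ε.tr g) → ∀ w : G, s.Desc 1 (ε.tr w) (ε.tr (w * g)) :=
    fun t w => tr_tr w _ ε ▸ t.lh_tr w
  have f' : ∀ {g : G}, s.Desc 1 ε (ε.tr g).rv → ∀ w : G, s.Desc 1 (ε.tr w).rv (ε.tr (w * g)) :=
    fun t w => by simpa only [rv_rv, tr_tr, rv_tr] using t.lh_rv.lh_tr w
  obtain ⟨g, rfl | rfl⟩ := exists_tr hi.symm <;> obtain ⟨g', rfl | rfl⟩ := exists_tr hi'.symm
  · exact ⟨ε, _, _, 0, g, g', h, h', hne, cross_self _, cross_self _⟩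
  · exact ⟨ε, _, _, 1, _, _, h, h', hne, f h g, f' h' g'⟩
  · exact ⟨ε, _, _, 1, _, _, h, h', hne, f' h g, f h' g'⟩
  · exact ⟨ε.rv, ε.tr g, ε.tr g', 0, g, g', by simpa using h.lh_rv, by simpa using h'.lh_rv, hne,
      cross_self _, cross_self _⟩

lemma twice (hT : s.TT) (h : Lang s x y) : ∃ u ∈ d.ker, ∃ b, Lang s x b ∧ Y.btw x y b ∧
    Seg Y y b (u • x) (u • y) := by
  obtain ⟨m, ε, t⟩ := h
  obtain ⟨c, c₁, c₂, k, g₁, g₂, h1, h2, h3, h4, h5⟩ : ∃ (c c₁ c₂ : Y.Dir) (k : ℕ) (g₁ g₂ : G),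
      s.Desc 1 c c₁ ∧ s.Desc 1 c c₂ ∧ Y.btw c₁.tgt c₂.src (s.σ^[1] c.tgt) ∧
      s.Desc k c₁ (ε.tr g₁) ∧ s.Desc k c₂ (ε.tr g₂) := by
    obtain ⟨c, c₁, c₂, k, g₁, g₂, h1, h2, h3, h4, h5⟩ := two hT ε
    rcases h1.side h2.btw_src with p | p
    · rcases h2.side h1.btw_src with q | q
      · exact absurd (congrArg Prod.fst (step_unique h1 h2 (q.antisymm p))) h3
      · exact ⟨c, c₂, c₁, k, g₂, g₁, h2, h1, q, h5, h4⟩
    · exact ⟨c, c₁, c₂, k, g₁, g₂, h1, h2, p, h4, h5⟩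
  have l := hT.sa_iter_dir c 1
  have t1 := strans (sdesc hT h4 m) (str t g₁)
  have t2 := strans (sdesc hT h5 m) (str t g₂)
  have t3 := siter l (scross h1) (m + k)
  have t4 := siter (l.sa_sub h1.btw_tgt (btw_right l.1)) ⟨h3, h2.btw2⟩ (m + k)
  have t5 := strans t3 t1
  have t6 := t3.2.trans_left' (sy t1)
  have t7 := strans ⟨t6, btw_right t6.lev2⟩ (strans t4 t2)
  have t8 : Lang s (g₁ • x) (s.σ^[m + k] (s.σ^[1] c.tgt)) := by
    refine lsub ?_ ⟨t5.1, btw_right t5.1.lev2⟩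
    simpa only [Function.iterate_add_apply] using lfull (s := s) (m + k + 1) c
  refine ⟨g₁⁻¹ * g₂, ?_, g₁⁻¹ • s.σ^[m + k] (s.σ^[1] c.tgt), by simpa using lsmul g₁⁻¹ t8,
    by simpa using t5.2.smul g₁⁻¹, by simpa [mul_smul] using ssmul t7 g₁⁻¹⟩
  have := t5.2.lev1.trans t7.1.lev1
  rw [lev_smul', lev_smul'] at this
  rw [mem_ker_iff, dg_mul, dg_inv]
  omega

lemma block (hT : s.TT) (m : ℕ) : ∃ μ : ℕ, ∀ x y e, Lang s x y → Y.Cross x y e →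
    μ ≤ Y.dist x e.src → μ ≤ Y.dist e.tgt y → ∃ ε, s.Desc m ε e ∧
      Seg Y x y (s.σ^[m] ε.src) (s.σ^[m] ε.tgt) ∧
      Y.dist (s.σ^[m] ε.src) (s.σ^[m] ε.tgt) ≤ μ := by
  obtain ⟨μ, hμ⟩ := (s.it m).exists_lip_dir
  refine ⟨μ, fun x y e ⟨n, c, t⟩ hc h1 h2 => ?_⟩
  obtain ⟨c', h3⟩ := hT.sa_anc_iter c m
  have t1 := strans (sdesc hT h3 n) t
  rw [add_comm, Function.iterate_add_apply, Function.iterate_add_apply] at t1
  obtain ⟨ε, h4, h5⟩ := s.cover_dir m (hc.extend (sx t1) (sy t1))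
  have t2 := siter (hT.sa_iter_dir c' n) (scross h4) m
  have b : Y.dist (s.σ^[m] ε.src) (s.σ^[m] ε.tgt) ≤ μ := hμ ε
  have p : Y.btw x (s.σ^[m] ε.src) e.src := by
    refine (((sx t2).trans_right' h5.btw_src).symm.of_dist_le
      ((sx t1).trans_right' hc.btw_src).symm ?_).symm
    rw [Forest.dist_comm, Forest.dist_comm e.src]
    exact (h5.btw_src.dist_le.trans b).trans h1
  have q : Y.btw e.tgt (s.σ^[m] ε.tgt) y :=
    (t2.2.trans_left' h5.btw_tgt).of_dist_le (t1.2.trans_left' hc.btw_tgt)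
      ((h5.btw_tgt.dist_le'.trans b).trans h2)
  exact ⟨ε, h5, ⟨hc.btw_src.trans_left p,
    ((hc.btw_src.trans_left' p).trans_right hc.btw2).trans_right q⟩, b⟩

lemma half (hd : Function.Surjective d) (hT : s.TT) (e : Y.Dir) (x : Y.V)
    (l : Y.lev x = Y.lev e.src) : {γ : G | γ ∈ d.ker ∧ γ • x ∈ e.H}.Infinite := by
  refine Set.Infinite.of_image (fun γ => Y.dist e.tgt (γ • x))
    (Set.infinite_of_forall_exists_gt fun L => ?_)
  obtain ⟨a, b, -, a2, -, a4⟩ := hT.legal_ext e (L + 1)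
  obtain ⟨q, q1, q2⟩ := exists_last a2.btw_tgt.lev2 (by rintro t; simp [t] at a4)
  obtain ⟨g, hg⟩ := Wand.exists_move hd hT q (Set.finite_singleton x) (l := Y.lev x)
    (by rintro _ rfl; rfl)
  have h1 := hg x rfl
  have h2 : g • x ∈ e.H :=
    H_subset (q2.btw_src.mem_H (tgt_mem_H e) a2.2) (q2.extend_left a2.btw2).1 h1
  refine ⟨_, ⟨g, ⟨?_, h2⟩, rfl⟩, ?_⟩
  · have := h2.1
    rw [lev_smul'] at this
    rw [mem_ker_iff]
    omega
  · have := (Cross.btw_tgt (⟨q2.1, h1⟩ : Y.Cross e.tgt (g • x) q)).dist_le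
    rw [q1] at this
    exact lt_of_lt_of_le a4 this

end LANG

theorem stLANG : St_LANG := fun _ _ _ hd _ _ hT =>
  { legal := fun _ _ ⟨m, e, t⟩ => (hT.sa_iter_dir e m).sa_sub t.1 (LANG.sy t)
    symm := fun _ _ ⟨m, e, t⟩ => ⟨m, e.rv, by simpa using LANG.ssymm t⟩
    sub := fun _ _ _ _ => LANG.lsub
    smul := fun g _ _ => LANG.lsmul g
    iter := fun n _ _ ⟨m, e, t⟩ => ⟨n + m, e, by
      simpa only [Function.iterate_add_apply] using LANG.siter (hT.sa_iter_dir e m) t n⟩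
    ext := fun _ _ => LANG.ext hT
    recur := fun _ _ _ => LANG.recur hT
    twice := fun _ _ h _ => LANG.twice hT h
    block := LANG.block hT
    half := LANG.half hd hT }

end Pool.Agent.Lib.FBC.X3
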