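import Pool.Agent.Lib.FBC.X3.Blue
import Pool.Agent.Lib.FBC.X4.Tw

/-!
An attracting ray with long legal segments contains long language words.
-/

namespace Pool.Agent.Lib.FBC.X3

open Forest X4

theorem stLONG (_hSV : St_SV) : St_LONG := by
  intro G _ d hd Y s T r ⟨hr, _, leg⟩ g n hn H N β
  obtain ⟨m, hm⟩ := H N
  obtain ⟨C, hC⟩ := pers0 T hd
  have hw : tw s g n β (r (m + 1)).src ∈ (r N).H := hm β _ (hr.src_mem m.lt_succ_self)
  have Q := tw_qm hd s g n β
  obtain ⟨p₀, hp⟩ := Q.far (r (m + 1)).src _ rfl (Y.dist (tw s g n β (r (m + 1)).src) (r (N + 1)).src)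
  obtain ⟨p, p1, p2⟩ := leg (m + 1 + p₀) (C + 1 + C)
  have on : ∀ t, C ≤ t → t ≤ C + 1 → ∃ i ≥ N, tw s g n β (r (p + t)).src = (r i).src := by
    intro t t1 t2
    set M := N + 1 + Y.dist (r (N + 1)).src (tw s g n β (r (p + t)).src)
    obtain ⟨k, hk⟩ := H M
    have hz : tw s g n β (r (k + 1 + (p + (C + 1 + C)))).src ∈ (r M).H :=
      hk β _ (hr.src_mem (by omega))
    have h1 : Y.btw (tw s g n β _) (tw s g n β _) (tw s g n β _) :=
      (hC (r (m + 1)).src _ (r (p + t)).src _ (r (k + 1 + (p + (C + 1 + C)))).src p2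
        (hr.btw3 (by omega) (by omega)) (by rwa [hr.dist_add])
        (by rw [hr.dist_sub (by omega)]; omega) (hr.btw3 (by omega) (by omega))
        (hr.btw3 (by omega) (by omega)) (β * n)).smul (g ^ β)
    have h2 := (h1.cover (hw.1.trans (hr.lev' N (N + 1)))).resolve_left fun a => a.dist_le.not_gt
      (hp _ (hr.lev' _ _) (by rw [hr.dist_sub (by omega)]; omega))
    obtain ⟨i, i1, -, i2⟩ := hr.on_seg (by omega) (h2.of_dist_le (hr.btw (by omega) hz)
      (by rw [hr.dist_add]))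
    exact ⟨i, by omega, i2⟩
  have aux : ∀ (e : Y.Dir) i i', i ≤ i' → tw s g n β e.src = (r i).src →
      tw s g n β e.tgt = (r i').src → Lang s (r i).src (r (i + β)).src := by
    intro e i i' h a b
    have h1 := T2.exp_lt T (s.sa_legal_dir e) (src_ne_tgt e) (β * n)
    rw [← Forest.dist_smul (g ^ β)] at h1
    have h2 : Y.dist (tw s g n β e.src) (tw s g n β e.tgt) = i' - i := by
      rw [a, b, hr.dist_sub h]
    have h3 : β ≤ β * n := Nat.le_mul_of_pos_right _ hn
    have h4 : β * n < i' - i := h2 ▸ h1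
    refine ⟨β * n, e.tr (g ^ β), ?_⟩
    rw [src_tr, tgt_tr, s.iter_smul, s.iter_smul]
    change Seg Y (tw s g n β e.src) (tw s g n β e.tgt) _ _
    rw [a, b]
    exact ⟨btw_left (hr.lev' _ _), hr.btw3 (by omega) (by omega)⟩
  obtain ⟨i, i1, i2⟩ := on C le_rfl (by omega)
  obtain ⟨i', i1', i2'⟩ := on (C + 1) (by omega) le_rfl
  rw [← add_assoc, ← hr.tgt] at i2'
  rcases le_total i i' with h | h
  · exact ⟨i, i1, aux _ i i' h i2 i2'⟩
  · exact ⟨i', i1', aux (r (p + C)).rv i' i h i2' (by rwa [tgt_rv])⟩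

end Pool.Agent.Lib.FBC.X3
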