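import Pool.Agent.Lib.FBC.X3.Blue
import Pool.Agent.Lib.FBC.NoBS

set_option linter.unusedSectionVars false

/-!
Subgroup separability puts a Schottky family in nested position in a finite index subgroup.
-/

namespace Pool.Agent.Lib.FBC.X3

namespace NEST

open Fam

variable {G : Type} [Group G] {X : Type} [MulAction G X] {J : Type} {F : Fam G X J}
  {lev : X → ℤ}

/-- reduced words with first letter `a` and inverse last letter `a'` -/
inductive Nf (F : Fam G X J) : G → J → J → Prop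
  | base (a : J) : Nf F (F.c a) a (F.st a)
  | cons {q : G} {a a' : J} (b : J) : Nf F q a a' → a ≠ F.st b → Nf F (F.c b * q) b a'

lemma nf_mul (hF : F.Ok lev) (b : J) {q : G} (h : q = 1 ∨ ∃ a a', Nf F q a a') :
    F.c b * q = 1 ∨ ∃ a a', Nf F (F.c b * q) a a' := by
  rcases h with rfl | ⟨a, a', h⟩
  · exact Or.inr ⟨b, _, by simpa using Nf.base b⟩
  by_cases e : a = F.st b
  · cases h with
    | base => left; rw [e, hF.c_st, mul_inv_cancel]
    | cons _ h' _ => exact Or.inr ⟨_, _, by rw [e, hF.c_st, mul_inv_cancel_left]; exact h'⟩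
  · exact Or.inr ⟨_, _, h.cons b e⟩

lemma nf_of_mem (hF : F.Ok lev) {q : G} (hq : q ∈ Subgroup.closure (Set.range F.c)) :
    q = 1 ∨ ∃ a a', Nf F q a a' := by
  induction hq using Subgroup.closure_induction_left with
  | one => exact Or.inl rfl
  | mul_left x hx y _ ih =>
    obtain ⟨b, rfl⟩ := hx
    exact nf_mul hF b ih
  | inv_mul_cancel x hx y _ ih =>
    obtain ⟨b, rfl⟩ := hx
    rw [← hF.c_st]
    exact nf_mul hF _ ih

section

variable (hF : F.Ok lev) (hd : ∀ a b, a ≠ b → Disjoint (F.P a) (F.P b))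
include hF hd

omit hF in
lemma out {a b : J} {x : X} (e : a ≠ b) (h : x ∈ F.P a) : x ∉ F.P b :=
  Set.disjoint_left.1 (hd a b e) h

lemma Nf.fwd {q : G} {a a' : J} (h : Nf F q a a') : ∀ x, x ∉ F.P a' → q • x ∈ F.P a := by
  induction h with
  | base a => exact fun x hx => (hF.flip a x).2 hx
  | cons b _ e ih =>
    intro x hx
    rw [mul_smul]
    exact (hF.flip b _).2 (out hd e (ih x hx))

lemma Nf.bwd {q : G} {a a' : J} (h : Nf F q a a') : ∀ x, x ∉ F.P a → q⁻¹ • x ∈ F.P a' := by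
  induction h with
  | base a =>
    intro x hx
    rw [← hF.c_st]
    exact (hF.flip _ x).2 (by rwa [hF.st_st])
  | cons b _ e ih =>
    intro x hx
    rw [mul_inv_rev, mul_smul, ← hF.c_st]
    exact ih _ (out hd e.symm ((hF.flip _ x).2 (by rwa [hF.st_st])))

lemma Nf.alt {q : G} {a a' : J} (h : Nf F q a a') : (q = F.c a ∧ a' = F.st a) ∨
    (q • F.c a' • F.o ∈ F.P a ∧ q⁻¹ • F.c a • F.o ∈ F.P a') := by
  induction h with
  | base a => exact Or.inl ⟨rfl, rfl⟩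
  | cons b h' e ih =>
    refine Or.inr ⟨?_, ?_⟩
    · rw [mul_smul]
      refine (hF.flip b _).2 ?_
      rcases ih with ⟨rfl, rfl⟩ | ⟨ih, -⟩
      · rw [hF.c_st, smul_inv_smul]
        exact hF.base _
      · exact out hd e ih
    · rw [mul_inv_rev, mul_smul, inv_smul_smul]
      exact h'.bwd hF hd _ (hF.base _)

end

/-- two partitions face each other -/
def NP (F : Fam G X J) (g : G) (a : J) (g' : G) (a' : J) : Prop :=
  ∃ ε ε', Disjoint (F.S (g, a, ε)) (F.S (g', a', ε')) ∧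
    ∀ δ, F.pt (g', a', δ) ∉ F.S (g, a, ε) ∧ F.pt (g, a, δ) ∉ F.S (g', a', ε')

lemma NP.tr {g g' : G} {a a' : J} (h : NP F 1 a (g⁻¹ * g') a') : NP F g a g' a' := by
  obtain ⟨ε, ε', h1, h2⟩ := h
  have e1 : ∀ δ : Bool, (g, a, δ) = trS g (1, a, δ) := fun δ => by simp [trS]
  have e2 : ∀ δ : Bool, (g', a', δ) = trS g (g⁻¹ * g', a', δ) := fun δ => by simp [trS]
  refine ⟨ε, ε', Set.disjoint_left.2 fun x hx hx' => ?_, fun δ => ?_⟩
  · rw [e1, mem_S_trS] at hx
    rw [e2, mem_S_trS] at hx'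
    exact Set.disjoint_left.1 h1 hx hx'
  · rw [e1, e1 δ, e2, e2 ε', pt_trS, pt_trS, smul_mem_S, smul_mem_S]
    exact h2 δ

lemma side (hd : ∀ a b, a ≠ b → Disjoint (F.P a) (F.P b)) (a b : J) :
    ∃ ε, ∀ (g : G) x, x ∈ F.S (g, a, ε) → g⁻¹ • x ∉ F.P b := by
  by_cases e : a = b
  · exact ⟨true, fun g x hx => by simpa [S, e] using hx⟩
  · exact ⟨false, fun g x hx => out hd e (by simpa [S] using hx)⟩

lemma pt_eq (g : G) (a : J) (δ : Bool) :
    F.pt (g, a, δ) = g • F.o ∨ F.pt (g, a, δ) = g • F.c a • F.o := by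
  cases δ <;> simp [pt, mul_smul]

lemma np_mem (hF : F.Ok lev) (hd : ∀ a b, a ≠ b → Disjoint (F.P a) (F.P b)) {h : G} {a a' : J}
    (h0 : dg F.d h = 0) (hne : ((1 : G), a) ≠ (h, a'))
    (hq : h ∈ Subgroup.closure (Set.range F.c)) : NP F 1 a h a' := by
  have hc : ∀ a, F.c a • F.o ∈ F.P a := fun a => (hF.flip a _).2 (hF.base _)
  rcases nf_of_mem hF hq with rfl | ⟨b, b', hn⟩
  · have e : a ≠ a' := fun e => hne (by rw [e])
    refine ⟨false, false, by simpa [S] using hd a a' e, fun δ => ?_⟩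
    cases δ
    · simp [S, pt, hF.base]
    · simpa [S, pt] using And.intro (out hd e.symm (hc a')) (out hd e (hc a))
  obtain ⟨rfl, -⟩ | ⟨h1, h2⟩ := hn.alt hF hd
  · exact absurd h0 (hF.deg b)
  obtain ⟨ε, hε⟩ := side hd a b
  obtain ⟨ε', hε'⟩ := side hd a' b'
  refine ⟨ε, ε', Set.disjoint_left.2 fun x hx hx' => ?_, fun δ => ⟨fun hx => ?_, fun hx => ?_⟩⟩
  · exact hε 1 x hx (by simpa using hn.fwd hF hd _ (hε' h x hx'))
  · refine hε 1 _ hx ?_
    rw [inv_one, one_smul]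
    rcases pt_eq (F := F) h a' δ with e | e <;> rw [e]
    · exact hn.fwd hF hd _ (hF.base _)
    · by_cases e' : a' = b'
      · rwa [e']
      · exact hn.fwd hF hd _ (out hd e' (hc a'))
  · refine hε' h _ hx ?_
    rcases pt_eq (F := F) 1 a δ with e | e <;> rw [e, one_smul]
    · exact hn.bwd hF hd _ (hF.base _)
    · by_cases e' : a = b
      · rwa [e']
      · exact hn.bwd hF hd _ (out hd e' (hc a))

/-- no piece separates two points of the translate of `Y` -/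
def Good (F : Fam G X J) (Y : Set X) (h : G) : Prop :=
  ∀ a, ∀ y ∈ Y, ∀ y' ∈ Y, (h • y ∈ F.P a ↔ h • y' ∈ F.P a)

lemma bad_fin [Finite J] (hF : F.Ok lev) {Y : Set X} (hY : Y.Finite) :
    {h | h ∈ F.d.ker ∧ ¬ Good F Y h}.Finite := by
  refine (Set.finite_iUnion fun a => hY.biUnion fun y _ => hY.biUnion fun y' _ =>
    hF.cf a y y').subset fun h hh => ?_
  obtain ⟨h1, h2⟩ := hh
  simp only [Good, not_forall] at h2
  obtain ⟨a, y, hy, y', hy', e⟩ := h2
  simp only [Set.mem_iUnion]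
  exact ⟨a, y, hy, y', hy', h1, e⟩

lemma exists_side (g : G) (a : J) (x : X) : ∃ ε, x ∉ F.S (g, a, ε) := by
  by_cases e : x ∈ F.S (g, a, false)
  · exact ⟨!false, fun e' => mem_S_not.1 e' e⟩
  · exact ⟨false, e⟩

lemma mem_S_congr {g : G} {a : J} {ε : Bool} {x y : X} (e : g⁻¹ • x ∈ F.P a ↔ g⁻¹ • y ∈ F.P a) :
    x ∈ F.S (g, a, ε) ↔ y ∈ F.S (g, a, ε) := by
  simp only [S, Set.mem_ofPred_eq, e]

/-- a finite set that controls the generic position -/
lemma exists_ctrl [Finite J] (hF : F.Ok lev) (hk : F.d.ker.FG) (hW : F.Win) :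
    ∃ Y₁ : Set X, Y₁.Finite ∧ ∀ Y : Set X, Y₁ ⊆ Y → ∀ h ∈ F.d.ker, Good F Y h → Good F Y h⁻¹ →
      ∀ a a', NP F 1 a h a' := by
  obtain ⟨Zw, hZ⟩ := hW
  obtain ⟨T, hT⟩ := hk
  have hT' : (insert (1 : G) ((T : Set G) ∪ (T : Set G)⁻¹)).Finite :=
    (T.finite_toSet.union T.finite_toSet.inv).insert 1
  set T' := insert (1 : G) ((T : Set G) ∪ (T : Set G)⁻¹) with eT
  refine ⟨insert F.o (Set.range (fun a => F.c a • F.o) ∪ ⋃ a, ⋃ t ∈ T', ⋃ z ∈ (Zw : Set X),
    ⋃ z' ∈ (Zw : Set X), (· • z) '' {k : G | k ∈ F.d.ker ∧ Sp (F.P a) (k • z) (k • t • z')}),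
    ((Set.finite_range _).union (Set.finite_iUnion fun a => hT'.biUnion fun t _ =>
      Zw.finite_toSet.biUnion fun z _ => Zw.finite_toSet.biUnion fun z' _ =>
        (hF.cf a z (t • z')).image _)).insert _, fun Y hY h hh g1 g2 a a' => ?_⟩
  have ho : F.o ∈ Y := hY (Or.inl rfl)
  have hc : ∀ a, F.c a • F.o ∈ Y := fun a => hY (Or.inr (Or.inl ⟨a, rfl⟩))
  have he : ∀ a, ∀ t ∈ T', ∀ z ∈ Zw, ∀ z' ∈ Zw, ∀ k ∈ F.d.ker, k • z ∉ Y →
      (k • z ∈ F.P a ↔ k • t • z' ∈ F.P a) := fun a t ht z hz z' hz' k hk hn => by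
    by_contra e
    refine hn (hY (Or.inr (Or.inr ?_)))
    simp only [Set.mem_iUnion]
    exact ⟨a, t, ht, z, hz, z', hz', k, ⟨hk, e⟩, rfl⟩
  obtain ⟨ε, hε⟩ := exists_side (F := F) 1 a (h • F.o)
  obtain ⟨ε', hε'⟩ := exists_side (F := F) h a' F.o
  have s1 : ∀ y ∈ Y, h • y ∉ F.S (1, a, ε) := fun y hy e =>
    hε ((mem_S_congr (by simpa using g1 a y hy _ ho)).1 e)
  have s2 : ∀ y ∈ Y, y ∉ F.S (h, a', ε') := fun y hy e =>
    hε' ((mem_S_congr (g2 a' y hy _ ho)).1 e)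
  refine ⟨ε, ε', Set.disjoint_iff_inter_eq_empty.2 (Set.eq_empty_of_forall_notMem fun x hx => ?_),
    fun δ => ⟨?_, ?_⟩⟩
  · have w : ∀ x, ∃ k ∈ F.d.ker, ∃ z ∈ Zw, (x ∈ F.S (1, a, ε) ∩ F.S (h, a', ε') ↔
        k • z ∈ F.S (1, a, ε) ∩ F.S (h, a', ε')) := fun x => by
      obtain ⟨k, hk, z, hz, e⟩ := hZ x
      exact ⟨k, hk, z, hz, and_congr (mem_S_congr (by simpa using e 1 (one_mem _) a))
        (mem_S_congr (by simpa [mul_smul] using e h⁻¹ (inv_mem hh) a'))⟩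
    have step : ∀ t ∈ T', ∀ z ∈ Zw, ∀ z' ∈ Zw, ∀ k ∈ F.d.ker,
        k • z ∈ F.S (1, a, ε) ∩ F.S (h, a', ε') →
        (k * t) • z' ∈ F.S (1, a, ε) ∩ F.S (h, a', ε') := fun t ht z hz z' hz' k hk hu => by
      refine ⟨(mem_S_congr ?_).1 hu.1, (mem_S_congr ?_).1 hu.2⟩
      · simpa [mul_smul] using he a t ht z hz z' hz' k hk fun e => s2 _ e hu.2
      · simpa [mul_smul] using he a' t ht z hz z' hz' (h⁻¹ * k) (mul_mem (inv_mem hh) hk)
          fun e => s1 _ e (by simpa [mul_smul] using hu.1)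
    obtain ⟨k, hk, z, hz, e⟩ := w x
    obtain ⟨k', hk', z', hz', e'⟩ := w F.o
    have all : ∀ u ∈ Subgroup.closure (T : Set G),
        (k * u) • z ∈ F.S (1, a, ε) ∩ F.S (h, a', ε') := fun u hu => by
      induction hu using Subgroup.closure_induction_right with
      | one => simpa using e.1 hx
      | mul_right u hu t ht ih =>
        rw [← mul_assoc]
        exact step t (Or.inr (Or.inl ht)) z hz z hz _ (mul_mem hk (hT ▸ hu)) ih
      | mul_inv_cancel u hu t ht ih =>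
        rw [← mul_assoc]
        exact step t⁻¹ (Or.inr (Or.inr (by simpa using ht))) z hz z hz _ (mul_mem hk (hT ▸ hu)) ih
    have := all (k⁻¹ * k') (hT ▸ mul_mem (inv_mem hk) hk')
    rw [mul_inv_cancel_left] at this
    exact hε' (e'.2 (by simpa using step 1 (Or.inl rfl) z hz z' hz' k' hk' this)).2
  · rcases pt_eq (F := F) h a' δ with e | e <;> rw [e]
    exacts [s1 _ ho, s1 _ (hc _)]
  · rcases pt_eq (F := F) 1 a δ with e | e <;> rw [e, one_smul]
    exacts [s2 _ ho, s2 _ (hc _)]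

end NEST

open NEST Fam in
theorem stNEST : St_NEST := by
  intro G _ X _ J _ F lev hL hk hF hd hW Z B hZ hB
  obtain ⟨Y₁, hY₁, hY⟩ := exists_ctrl hF hk hW
  have hfin : (insert F.o (Y₁ ∪ (Z : Set X))).Finite := (hY₁.union Z.finite_toSet).insert _
  obtain ⟨H, h1, h2, -, h3⟩ := lerf_sep_le hL (Q := Subgroup.closure (Set.range F.c)) (L₀ := ⊤)
    ((Subgroup.fg_iff _).2 ⟨_, rfl, Set.finite_range _⟩) inferInstance le_top
    ((bad_fin hF hfin).union B.finite_toSet)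
  have hg : ∀ h ∈ H, dg F.d h = 0 → h ∉ Subgroup.closure (Set.range F.c) →
      Good F (insert F.o (Y₁ ∪ (Z : Set X))) h := fun h hh h0 hq => by
    by_contra e
    exact hq (h3 h (Or.inl ⟨mem_ker_iff.2 h0, e⟩) hh)
  refine ⟨H, fun a => h2 (Subgroup.subset_closure ⟨a, rfl⟩), h1, fun g g' a a' e hne => ?_,
    fun z hz => ch_eq_iff.2 fun β h0 => ?_, fun b hb hH => ?_⟩
  · have e' : dg F.d (g : G) = dg F.d (g' : G) := e
    have h0 : dg F.d ((g : G)⁻¹ * g') = 0 := by simp [e']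
    have hm : (g : G)⁻¹ * g' ∈ H := mul_mem (inv_mem g.2) g'.2
    refine NP.tr (F := F) (g := g) (g' := g') ?_
    by_cases hq : (g : G)⁻¹ * g' ∈ Subgroup.closure (Set.range F.c)
    · refine np_mem hF hd h0 (fun t => hne ?_) hq
      obtain ⟨t1, t2⟩ := Prod.ext_iff.1 t
      exact Prod.ext (Subtype.ext (inv_mul_eq_one.1 t1.symm)) t2
    · exact hY _ (fun y hy => Or.inr (Or.inl hy)) _ (mem_ker_iff.2 h0) (hg _ hm h0 hq)
        (hg _ (inv_mem hm) (by rw [dg_inv, h0, neg_zero]) fun t => hq (inv_mem_iff.1 t)) a a'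
  · obtain ⟨g, a, ε⟩ := β
    have h0' : dg F.d (g : G) = 0 := h0
    refine mem_S_congr (F := F) (g := g) ?_
    by_cases hq : (g : G) ∈ Subgroup.closure (Set.range F.c)
    · rcases nf_of_mem hF hq with e | ⟨b, b', hn⟩
      · simp [e, hZ z hz, hF.base]
      · have t1 := hn.bwd hF hd z (hZ z hz b)
        have t2 := hn.bwd hF hd _ (hF.base b)
        by_cases e : b' = a
        · subst e
          exact iff_of_true t1 t2
        · exact iff_of_false (out hd e t1) (out hd e t2)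
    · exact hg _ (inv_mem g.2) (by rw [dg_inv, h0', neg_zero]) (fun t => hq (inv_mem_iff.1 t)) a
        z (Or.inr (Or.inr hz)) _ (Or.inl rfl)
  · obtain ⟨b1, z, z1, z2⟩ := hB b hb
    rcases nf_of_mem hF (h3 b (Or.inr hb) hH) with e | ⟨a, a', hn⟩
    exacts [b1 e, z2 a (hn.fwd hF hd z (z1 a'))]

end Pool.Agent.Lib.FBC.X3
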