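import Pool.Agent.Lib.FBC.X3.Blue
import Pool.Agent.Lib.FBC.X4.Tw

/-!
North-south dynamics for broken trajectories of adjacent vertices.
-/

namespace Pool.Agent.Lib.FBC.X3

open Forest

namespace NSX

variable {G : Type} [Group G] {d d' : Dg G} {Y : Forest d} {Z : Forest d'}

/-- same level and distance at most `C` -/
def Nr (Y : Forest d) (C : ℕ) (a b : Y.V) : Prop := Y.lev a = Y.lev b ∧ Y.dist a b ≤ C

lemma Nr.smul {C : ℕ} {a b : Y.V} (h : Nr Y C a b) (g : G) : Nr Y C (g • a) (g • b) :=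
  ⟨by rw [lev_smul', lev_smul', h.1], by simpa using h.2⟩

lemma Nr.symm {C : ℕ} {a b : Y.V} (h : Nr Y C a b) : Nr Y C b a :=
  ⟨h.1.symm, Forest.dist_comm a b ▸ h.2⟩

lemma close (hd : Function.Surjective d) (k k' : EMap Y Z)
    (l : ∀ a, Z.lev (k.f a) = Z.lev (k'.f a)) (C₀ : ℕ) :
    ∃ C, ∀ a b, Nr Y C₀ a b → Nr Z C (k.f a) (k'.f b) := by
  obtain ⟨Λ, -, h1⟩ := k.exists_lip
  obtain ⟨C, h2⟩ := k.exists_close hd k'
  refine ⟨Λ * C₀ + C, fun a b h => ⟨(k.lev_eq h.1).trans (l b), ?_⟩⟩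
  have h3 := dist_triangle (k.lev_eq h.1) (l b)
  have h4 := (h1 a b h.1).trans (Nat.mul_le_mul_left Λ h.2)
  have h5 := h2 b
  omega

/-- transfer along the backward flow -/
lemma trans (hTR : St_TR) (hd : Function.Surjective d) (X : Pair d d') (T : X.t.TT)
    {r : ℕ → X.M.Dir} (hr : LRay X.t r) (C₀ N : ℕ) : ∃ N', ∀ (a : ℕ) x y, Nr X.P C₀ y x →
      X.P.lev y + a = 0 → X.h'.f (X.s.σ^[a] y) ∈ (r N').H → X.h'.f (X.s.σ^[a] x) ∈ (r N).H := by
  obtain ⟨D, hD⟩ := X.exists_round hd 1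
  obtain ⟨C, hC⟩ := close hd X.h' X.h' (fun _ => rfl) C₀
  obtain ⟨N', h⟩ := hTR G d' (X4.surj' hd X) X.M X.t T r hr D C N
  have po : ∀ (a : ℕ) x, PO X.t D a fun k => X.h'.f (X.s.σ^[a - k] x) := fun a x k hk => by
    obtain ⟨b, rfl⟩ := Nat.exists_eq_add_of_lt hk
    have e1 : k + b + 1 - k = b + 1 := by omega
    have e2 : k + b + 1 - (k + 1) = b := by omega
    simp only [e1, e2, Function.iterate_succ_apply']
    exact ⟨by simp [X.lev_h'], hD _⟩
  refine ⟨N', fun a x y hn l t => h a _ _ (po a y) (po a x) ?_ ?_ t⟩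
  · simp only [X.lev_h', Flow.lev_iter, Nat.sub_zero, ← hn.1, l, neg_zero]
  · simpa using (hC y x hn).2

/-- the two points at level zero of a broken trajectory correspond to each other -/
lemma mid (hd : Function.Surjective d) (X : Pair d d') (n : ℕ) : ∃ C, ∀ a b, a + b = n →
    ∀ x y, Nr X.P 1 x y → Nr X.P C (X.s.σ^[n] (X.h.f (X.t.σ^[a] (X.h'.f x)))) (X.s.σ^[b] y) ∧
      Nr X.M C (X.t.σ^[n] (X.h'.f (X.s.σ^[b] y))) (X.t.σ^[a] (X.h'.f x)) := by
  have h1 : ∀ a b : ℕ, ∃ C, ∀ x y, Nr X.P 1 x y →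
      Nr X.P C (X.s.σ^[a + b] (X.h.f (X.t.σ^[a] (X.h'.f x)))) (X.s.σ^[b] y) := fun a b =>
    close hd ((X.s.it (a + b)).comp (X.h.comp ((X.t.it a).comp X.h'))) (X.s.it b)
      (fun x => by simp [X.lev_h, X.lev_h']; ring) 1
  have h2 : ∀ a b : ℕ, ∃ C, ∀ x y, Nr X.P 1 x y →
      Nr X.M C (X.t.σ^[a + b] (X.h'.f (X.s.σ^[b] x))) (X.t.σ^[a] (X.h'.f y)) := fun a b =>
    close hd ((X.t.it (a + b)).comp (X.h'.comp (X.s.it b))) ((X.t.it a).comp X.h')
      (fun x => by simp [X.lev_h']; ring) 1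
  choose C₁ h1 using h1
  choose C₂ h2 using h2
  refine ⟨(Finset.range (n + 1)).sup fun a => C₁ a (n - a) + C₂ a (n - a),
    fun a b e x y h => ?_⟩
  have := Finset.le_sup (f := fun a => C₁ a (n - a) + C₂ a (n - a))
    (Finset.mem_range.2 (show a < n + 1 by omega))
  subst e
  simp only [Nat.add_sub_cancel_left] at this
  exact ⟨⟨(h1 a b x y h).1, (h1 a b x y h).2.trans (le_trans (Nat.le_add_right _ _) this)⟩,
    (h2 a b y x h.symm).1, (h2 a b y x h.symm).2.trans (le_trans (Nat.le_add_left _ _) this)⟩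

lemma dn_pos (X : Pair d d') {x : X.P.V} {a : ℕ} (h : X.P.lev x = a) :
    dn X x = X.t.σ^[a] (X.h'.f x) := by simp [dn, h]

lemma dn_neg (X : Pair d d') {x : X.P.V} {a : ℕ} (h : X.P.lev x + a = 0) :
    dn X x = X.h'.f (X.s.σ^[a] x) := by
  unfold dn
  split_ifs with t
  · have h1 : X.P.lev x = 0 := by omega
    have h2 : a = 0 := by omega
    simp [h1, h2]
  · rw [show -X.P.lev x = a by omega, Int.toNat_natCast]

lemma up_neg (X : Pair d d') {x : X.P.V} {a : ℕ} (h : X.P.lev x + a = 0) :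
    up X 0 x = X.s.σ^[a] x := by
  rw [up, if_pos (by omega), show 0 - X.P.lev x = a by omega, Int.toNat_natCast]

lemma up_pos (X : Pair d d') {x : X.P.V} {a : ℕ} (h : X.P.lev x = a) (h0 : 0 < a) :
    up X 0 x = X.h.f (X.t.σ^[a] (X.h'.f x)) := by
  rw [up, if_neg (by omega), show X.P.lev x - 0 = a by omega, Int.toNat_natCast]

end NSX

open NSX

theorem stNSX (hTR : St_TR) : St_NSX := by
  intro G _ d d' hd X T T' g n r₀ r hn dg' H N
  have dgg : dg d g = -n := by have := X.neg g; omega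
  have R₀ := dray_of H.rayP
  have R := fun i => dray_of (H.rayM i)
  -- constants
  choose NA hA using fun i => trans hTR hd X T' (lrayM H i) 1 N
  obtain ⟨Λ, hΛ⟩ := close hd X.h' X.h' (fun _ => rfl) 1
  obtain ⟨NB, hB⟩ := trans hTR (X4.surj' hd X) X.symm T (lrayP H) Λ N
  obtain ⟨C, hC⟩ := mid hd X n
  obtain ⟨p₃, hp₃⟩ := H.invP N
  obtain ⟨p₁, hp₁⟩ := H.invP (p₃ + C)
  obtain ⟨q₃, hq₃⟩ := H.invM N
  obtain ⟨q₁, hq₁⟩ := H.invM (q₃ + C)
  set M := N + NA true + NA false + NB + p₁ + q₁ with hM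
  obtain ⟨j₁, h₁⟩ := H.aP M
  obtain ⟨j₂, h₂⟩ := H.aM M
  have aP : ∀ j ≥ j₁, ∀ y, X.P.lev y = 0 →
      (∃ i, X.h'.f y ∈ (r i M).H) ∨ g ^ j • X.s.σ^[j * n] y ∈ (r₀ N).H := fun j hj y l =>
    or_iff_not_imp_left.2 fun t => R₀.anti_le (by omega) (h₁ j hj y l (not_exists.1 t))
  have aM : ∀ j ≥ j₂, ∀ u, X.M.lev u = 0 →
      (∃ i, g⁻¹ ^ j • X.t.σ^[j * n] u ∈ (r i N).H) ∨ X.h.f u ∈ (r₀ M).H := fun j hj u l =>
    or_iff_not_imp_right.2 fun t => (h₂ j hj u l t).imp fun i t => (R i).anti_le (by omega) t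
  refine ⟨j₁ + j₂ + 1, fun j hj x y hxy => ?_⟩
  have nr : Nr X.P 1 x y := by
    rcases hxy with rfl | h
    · exact ⟨rfl, by simp⟩
    · exact ⟨h.lev, h.dist.le⟩
  have lg : ∀ (k : ℕ) z, X.P.lev (g ^ k • z) = X.P.lev z - (k * n : ℕ) := fun k z => by
    simp [lev_smul', dgg, sub_eq_add_neg]
  have l := nr.1
  by_cases c1 : X.P.lev x ≤ 0
  · obtain ⟨a, ha⟩ : ∃ a : ℕ, X.P.lev x + a = 0 := ⟨(-X.P.lev x).toNat, by omega⟩
    rw [dn_neg X ha, up_neg X (a := j * n + a) (by rw [lg]; push_cast; omega), Flow.iter_smul,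
      Function.iterate_add_apply]
    refine (aP j (by omega) _ (by simp [← l, ha])).imp_left fun ⟨i, t⟩ => ⟨i, ?_⟩
    exact hA i a x y nr.symm (l ▸ ha) ((R i).anti_le (by cases i <;> omega) t)
  by_cases c2 : (j * n : ℕ) < X.P.lev x
  · obtain ⟨a, ha⟩ : ∃ a : ℕ, X.P.lev x = (j * n + a : ℕ) :=
      ⟨(X.P.lev x - (j * n : ℕ)).toNat, by push_cast at c2 ⊢; omega⟩
    have la : X.P.lev (g ^ j • x) = a := by rw [lg, ha]; push_cast; ring
    rw [dn_pos X ha, up_pos X (a := a) (by rw [lg, ← l, ← lg, la]) (by omega)]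
    refine (aM j (by omega) (X.t.σ^[a] (X.h'.f (g ^ j • x))) (by simp [X.lev_h', la])).imp
      (fun t => ?_) fun t => ?_
    · simpa [X.h'.smul, Function.iterate_add_apply] using t
    · exact hB a _ _ (hΛ _ _ (nr.smul _)) (by simp [Pair.symm, X.lev_h', la])
        (R₀.anti_le (by omega) t)
  obtain ⟨m, hm⟩ : ∃ m : ℕ, X.P.lev x = (m + 1 : ℕ) := ⟨(X.P.lev x - 1).toNat, by omega⟩
  have hm' : m < j * n := by omega
  have hi : m / n < j := Nat.div_lt_of_lt_mul (by rwa [mul_comm])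
  have e1 := Nat.div_add_mod' m n
  have e2 := Nat.mod_lt m hn
  generalize m / n = i at hi e1
  obtain ⟨a, ha⟩ : ∃ a, a = m % n + 1 := ⟨_, rfl⟩
  obtain ⟨b, hb⟩ : ∃ b, a + b = n := ⟨n - a, by omega⟩
  obtain ⟨k, rfl⟩ := Nat.exists_eq_add_of_lt hi
  have e3 : (i + k + 1) * n = i * n + k * n + n := by ring
  have la : X.P.lev (g ^ i • x) = a := by rw [lg, hm]; omega
  obtain ⟨c3, c4⟩ := hC a b hb _ _ (nr.smul (g ^ i))
  set u := X.t.σ^[a] (X.h'.f (g ^ i • x)) with hu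
  set y₁ := g • X.s.σ^[b] (g ^ i • y) with hy
  have lu : X.M.lev u = 0 := by simp [hu, X.lev_h', la]
  have ly : X.P.lev y₁ = 0 := by
    rw [hy, lev_smul', Flow.lev_iter, ← (nr.smul (g ^ i)).1, la, dgg]; omega
  have f1 : dn X x = g⁻¹ ^ i • X.t.σ^[i * n] u := by
    rw [dn_pos X (a := i * n + a) (by rw [hm]; omega)]
    simp [hu, X.h'.smul, Function.iterate_add_apply]
  have f2 : up X 0 (g ^ (i + k + 1) • y) = g ^ k • X.s.σ^[k * n] y₁ := by
    rw [up_neg X (a := k * n + b) (by rw [lg, ← l, hm]; omega)]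
    simp only [hy, Flow.iter_smul, Function.iterate_add_apply, smul_smul]
    congr 1
    rw [add_comm i k, add_right_comm, pow_add, pow_succ, mul_assoc]
  rw [f1, f2]
  by_cases c5 : j₂ ≤ i
  · refine (aM i c5 u lu).imp_right fun t => hp₃ k _ ?_
    have := hp₁ 1 _ (R₀.anti_le (by omega) t)
    rw [pow_one, one_mul] at this
    exact R₀.near this (c3.smul g).1 (c3.smul g).2
  · refine (aP k (by omega) y₁ ly).imp_left fun ⟨s, t⟩ => ⟨s, hq₃ i s _ ?_⟩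
    have := hq₁ 1 s _ ((R s).anti_le (by omega) t)
    rw [pow_one, one_mul, hy, X.h'.smul, Flow.iter_smul, inv_smul_smul] at this
    exact (R s).near this c4.1 c4.2

end Pool.Agent.Lib.FBC.X3
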