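import Pool.Agent.Lib.FBC.X3.Blue

/-!
Every long language word carries a staircase.
-/

namespace Pool.Agent.Lib.FBC.X3

open Forest

namespace ST

variable {G : Type} [Group G] {d : Dg G} {Y : Forest d} {a b p q x y z : Y.V} {e : Y.Dir}

lemma behind (h : Y.Cross a p e) (t : Y.btw a p q) (hz : z ∈ e.rv.H) : Y.btw z p q :=
  (Cross.btw_src ⟨hz, h.2⟩).glue' (t.trans_left' h.btw_src) fun r => src_not_mem_H e (r ▸ h.2)

/-- the last dart of a branch that leaves a segment -/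
lemma branch (hp : Y.btw a p b) (l : Y.lev p = Y.lev x) (hx : ¬ Y.btw a x b) :
    ∃ ν : Y.Dir, ν.tgt = x ∧ Y.Cross p x ν ∧ ∀ u, Y.btw a u b → u ∈ ν.rv.H := by
  obtain ⟨ν, rfl, h⟩ := exists_last l (by rintro rfl; exact hx hp)
  refine ⟨ν, rfl, h, fun u hu => hu.mem_H ?_ ?_⟩
  · exact mem_rv_H_of_not (hp.lev1.trans h.lev_src) fun t =>
      hx (hp.trans_left (Cross.btw_tgt ⟨h.1, t⟩).symm)
  · exact mem_rv_H_of_not (hp.lev2.symm.trans h.lev_src) fun t =>
      hx (hp.trans_right (Cross.btw_tgt ⟨h.1, t⟩))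

lemma mid (l : Y.lev a = Y.lev b) {n : ℕ} (h : 2 * n + 1 ≤ Y.dist a b) :
    ∃ e, Y.Cross a b e ∧ n ≤ Y.dist a e.src ∧ n ≤ Y.dist e.tgt b := by
  obtain ⟨x, h1, h2⟩ := exists_btw_dist l (k := n) (by omega)
  obtain ⟨e, rfl, he⟩ := exists_step h1.lev2 (by rintro rfl; omega)
  have := (he.extend_left h1).dist_eq
  exact ⟨e, he.extend_left h1, h2.ge, by omega⟩

/-- one step along a staircase -/
lemma step {s : Flow Y} {X : Type} [MulAction G X] {D E L : ℕ} {π : ℤ → X → Y.V}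
    (hπ : Traj s D π) (hE : ∀ o p q (m : ℕ) z, s.LegalP o q → Y.btw o p q → E ≤ Y.dist p q →
      Y.btw o q (z 0) → PO s D m z → Y.btw (s.σ^[m] o) (s.σ^[m] p) (z m))
    {c : G} (hc : dg d c = L) {ν : Y.Dir} (hl : s.LegalP p q) (he : Y.Cross p q e)
    (hd : E ≤ Y.dist e.tgt q) (hν : Y.Cross q y ν)
    (h1 : Y.btw (s.σ^[L] e.src) (c • y) (s.σ^[L] e.tgt))
    (h2 : Y.btw (s.σ^[L] e.src) (c • q) (c • y)) {w : X} (hw : Y.btw p q (π 0 w)) :
    π 0 (c⁻¹ • w) ∈ ν.H := by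
  have t := hE e.src e.tgt q L (fun k => π k w) (hl.sa_sub he.btw_src (btw_right hl.1)) he.btw2 hd
    (hw.trans_left' he.btw_src) fun k _ => ⟨by simp [hπ.lev], by simpa using hπ.po k w⟩
  have t2 := (hν.smul c).mem_H ((t.trans_left h1).trans_left' h2)
  have t3 := hπ.smul c⁻¹ L w
  rw [dg_inv, hc, neg_add_cancel] at t3
  rw [t3]
  exact (mem_tr_H c).1 t2

end ST

open Pool.Agent.Lib.FBC.X3.ST

theorem stST (hLANG : St_LANG) (hSV : St_SV) (hDEV : St_DEV) : St_ST := by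
  intro G _ d hd Y s hT X _ D π hπ
  have A := hLANG G d hd.surj Y s hT
  obtain ⟨E, hE⟩ := hSV G d hd.surj Y s hT D
  obtain ⟨μ, hμ⟩ := A.block (2 * E + 1)
  obtain ⟨β, hβ⟩ := hDEV G d hd Y s hT (2 * E + 1)
  refine ⟨2 * (μ + β) + 1, fun a b la hab hl => ?_⟩
  obtain ⟨e, e1, e2, e3⟩ := mid (A.legal a b hab).1 hl
  obtain ⟨ε, h1, h2, h3⟩ := hμ a b e hab e1 (by omega) (by omega)
  have hleg := hT.sa_iter_dir ε (2 * E + 1)
  have hlen := hT.sa_exp_iter (s.sa_legal_dir ε) (2 * E + 1)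
  have hdev := hβ a b _ _ ε rfl rfl h2
  unfold Flow.Desc at h1
  generalize s.σ^[2 * E + 1] ε.src = p at *
  generalize s.σ^[2 * E + 1] ε.tgt = q at *
  have hq : Y.btw a q b := h2.1.trans_right h2.2
  obtain ⟨x, y, e₁, e₄, hxy, ⟨s1, s2⟩, c1, x1, nx, c4, y4, ny⟩ := hdev
    (by
      have := dist_triangle h2.1.lev1 h1.lev_src
      have := h1.btw_src.dist_le
      omega)
    (by
      have := dist_triangle h1.btw_tgt.lev2 hq.lev2
      have := h1.btw_tgt.dist_le'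
      omega)
  have s3 : Y.btw x q y := s1.trans_right s2
  have s4 : Y.btw x p q := s1.trans_right' s2
  obtain ⟨ν, rfl, n1, n2⟩ := branch h2.1 s1.lev1.symm nx
  obtain ⟨v, rfl, v1, v2⟩ := branch hq s3.lev2 ny
  obtain ⟨ε', f1, f2, f3⟩ := mid hleg.1 (n := E) (by
    have : 2 * E + 1 < 4 ^ (2 * E + 1) := Nat.lt_pow_self (by norm_num)
    rw [dist_src_tgt] at hlen
    omega)
  obtain ⟨L, c, hL, hc, r1, r2⟩ := A.recur _ _ ε' hxy (f1.extend s4 s3)
  have lv : ∀ (w : X) (u : Y.Dir), Y.lev a = Y.lev u.src → Y.lev (π 0 w) = Y.lev u.src :=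
    fun w u h => by rw [hπ.lev, ← h, la]
  have fw : ∀ w : X, π 0 w ∈ e₄.H ∨ π 0 w ∈ v.H → π 0 (c⁻¹ • w) ∈ v.H := fun w hw =>
    step hπ hE hc hleg f1 f3 v1 (r1.trans_right r2) ((r1.trans_right' r2).trans_right (s3.smul c))
      (hw.elim (fun t => (behind c4.symm h2.2.symm (by simpa using t)).symm)
        fun t => (behind v1.symm s2.symm (by simpa using t)).symm)
  have d1 : Disjoint v.H ν.H := H_disjoint
    (mem_rv_H_of_not (s1.lev2.symm.trans n1.lev_src) fun t =>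
      not_mem_H_both (s1.mem_H (tgt_mem_H ν) t) n1.1)
    (mem_rv_H_of_not (s3.lev1.trans v1.lev_src) fun t =>
      not_mem_H_both (s3.mem_H t (tgt_mem_H v)) v1.1)
  have d2 : Disjoint v.H e₄.H := H_disjoint (mem_rv_H_of_not (s3.lev2.symm.trans c4.lev_src) y4)
    (v2 _ (hq.trans_right c4.btw_tgt))
  refine ⟨c, e₁, e₄, ν, by rw [hc]; exact_mod_cast hL, c1.extend_right h2.1, c4.extend_left hq,
    fun w hw => H_subset (n1.btw_src.mem_H c1.2 x1) (n2 _ (h2.1.trans_left c1.btw_src)) hw,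
    fun w hw => ?_, fun w hw k => ?_⟩
  · refine step (e := ε'.rv) hπ hE hc hleg.lh_symm f1.symm (by rwa [tgt_rv, Forest.dist_comm]) n1
      (by simpa using r1.symm) (by simpa using r2.symm.trans_right (s1.smul c).symm) ?_
    exact hw.elim (fun t => (behind c1 (h2.1.trans_right' h2.2)
      (mem_rv_H_of_not (lv w _ c1.lev_src) t)).symm)
      fun t => (behind n1.symm s4 (by simpa using t)).symm
  · have : π 0 ((c ^ (k + 1))⁻¹ • w) ∈ v.H := by
      induction k with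
      | zero => simpa using fw w (Or.inl hw)
      | succ k ih => simpa [pow_succ _ (k + 1), mul_smul] using fw _ (Or.inr ih)
    exact ⟨Set.disjoint_left.1 d1 this, Set.disjoint_left.1 d2 this⟩

end Pool.Agent.Lib.FBC.X3
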