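import Pool.Agent.Lib.FBC.X3.Blue

/-!
Survival of legal segments along pseudo-orbits.
-/

namespace Pool.Agent.Lib.FBC.X3

open Forest

theorem stSV : St_SV := by
  intro G _ d hd Y s hT D
  obtain ⟨C, hC⟩ := s.exists_bcc hd 1
  refine ⟨C + D, fun o p q m => ?_⟩
  induction m generalizing o p q with
  | zero => exact fun z _ h2 _ h4 _ => h4.trans_left h2
  | succ m ih =>
    intro z h1 h2 h3 h4 h5
    obtain ⟨l1, l2⟩ := h5 0 (by omega)
    have l3 : Y.lev (s.σ (z 0)) = Y.lev (z 1) := by rw [s.lev_σ]; exact l1.symm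
    obtain ⟨u, hu⟩ := exists_med (s.lev_σ_eq h4.lev3) (s.lev_σ_eq h4.lev1)
    have a1 : Y.dist (s.σ q) u ≤ C := hC o q (z 0) u h4 hu
    obtain ⟨v, hv⟩ := exists_med hu.1.lev1 (hu.1.lev3.trans l3)
    have a2 : Y.dist u v ≤ D := by
      rcases hu.1.cover (hu.1.lev3.trans l3) with t | t
      · rw [hv.1.antisymm (t.trans_right' hv.2.1)]; simp
      · exact hv.2.1.dist_le.trans (t.symm.dist_le'.trans l2)
    have a3 : Y.btw (s.σ o) v (s.σ q) := hu.2.2.trans_left hv.1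
    have a4 : Y.btw (s.σ o) (s.σ p) (s.σ q) := h1.sa_btw h2 1
    have a5 := hT.sa_exp (h1.sa_sub h2 (btw_right h1.1))
    have a6 := Forest.dist_triangle (a := s.σ q) (x := u) (b := v) hu.2.2.lev2.symm hv.1.lev2.symm
    have a7 : Y.btw (s.σ q) v (s.σ p) :=
      a3.symm.of_dist_le a4.symm (by rw [Forest.dist_comm _ (s.σ p)]; omega)
    have a8 := a7.dist_add
    rw [Forest.dist_comm (s.σ q) (s.σ p), Forest.dist_comm v] at a8
    exact ih (s.σ o) (s.σ p) v (fun k => z (k + 1))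
      ((hT.sa_fwd h1).sa_sub (btw_left a3.lev3) a3) (a4.trans_right' a7.symm) (by omega) hv.2.2
      fun k hk => h5 (k + 1) (by omega)

end Pool.Agent.Lib.FBC.X3
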