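import Pool.Agent.Lib.FBC.X3.ASC

/-!
The extremal slope on backward cycles, and the contradiction between the two fibering criteria.
-/

namespace Pool.Agent.Lib.FBC

open Forest

namespace Push

/-- Chains in a graph with finitely many orbits of vertices.  If steps lower the height by at most
`C` and short cycles raise it by at least `ε`, then a chain of length `n` raises it by about
`ε n / m`. -/
theorem grow' {α ι Z : Type*} [Finite ι] (c : α → ι) (tr : Z → α → α) (w : Z → ℤ) (h : α → ℤ)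
    (Q : ℕ → α → α → Prop) (orb : ∀ x y, c x = c y → ∃ z, y = tr z x)
    (hh : ∀ z x, h (tr z x) = w z + h x) (inv : ∀ n z x y, Q n x y → Q n (tr z x) (tr z y))
    (refl : ∀ x, Q 0 x x) (zero : ∀ x y, Q 0 x y → x = y)
    (dec : ∀ n x y, Q (n + 1) x y → ∃ u, Q 1 x u ∧ Q n u y)
    (comp : ∀ n x u y, Q 1 x u → Q n u y → Q (n + 1) x y) (C : ℕ)
    (hC : ∀ x y, Q 1 x y → h x ≤ h y + C) (ε : ℕ)
    (cyc : ∀ n z x, 0 < n → n ≤ Nat.card ι → Q n x (tr z x) → ε ≤ w z) :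
    ∃ m : ℕ, 0 < m ∧ ∀ n x y, Q n x y → (ε * n : ℤ) ≤ m * (h y - h x) + ε * m + m * m * C := by
  have comp' : ∀ n k x u y, Q n x u → Q k u y → Q (k + n) x y := fun n k => by
    induction n with
    | zero => intro x u y h1 h2; rwa [zero _ _ h1]
    | succ n ih =>
      intro x u y h1 h2
      obtain ⟨v, h3, h4⟩ := dec _ _ _ h1
      exact comp _ _ _ _ h3 (ih _ _ _ h4 h2)
  have low : ∀ n x y, Q n x y → h x ≤ h y + n * C := fun n => by
    induction n with
    | zero => intro x y e; simp [zero _ _ e]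
    | succ n ih =>
      intro x y e
      obtain ⟨v, h3, h4⟩ := dec _ _ _ e
      have := hC _ _ h3
      have := ih _ _ h4
      push_cast; linarith
  have := Fintype.ofFinite ι
  refine ⟨Fintype.card ι + 1, Nat.succ_pos _, fun n => ?_⟩
  set m := Fintype.card ι + 1 with hm
  induction n using Nat.strong_induction_on with
  | _ n ih =>
  intro x y e
  by_cases hn : n ≤ m
  · have h1 := low _ _ _ e
    have h2 : (n : ℤ) ≤ m := by exact_mod_cast hn
    have h3 : (n : ℤ) * C ≤ m * C := by gcongr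
    have h4 : (ε : ℤ) * n ≤ ε * m := by gcongr
    have h5 : (0 : ℤ) ≤ m * (h y - h x + m * C) := mul_nonneg (by positivity) (by linarith)
    linarith
  have ex : ∀ r v, ∃ u, Q (r + 1) v y → Q 1 v u ∧ Q r u y := fun r v => by
    by_cases q : Q (r + 1) v y
    · obtain ⟨u, hu⟩ := dec _ _ _ q
      exact ⟨u, fun _ => hu⟩
    · exact ⟨v, fun q' => (q q').elim⟩
  choose nx hnx using ex
  let s : ℕ → α := fun k => Nat.rec x (fun k v => nx (n - (k + 1)) v) k
  have ss : ∀ k, s (k + 1) = nx (n - (k + 1)) (s k) := fun _ => rfl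
  have s1 : ∀ k ≤ n, Q (n - k) (s k) y := fun k hk => by
    induction k with
    | zero => exact e
    | succ k ih' =>
      have := ih' (by omega)
      rw [show n - k = n - (k + 1) + 1 by omega] at this
      exact (hnx _ _ this).2
  have s2 : ∀ i d, i + d ≤ n → Q d (s i) (s (i + d)) := fun i d hd => by
    induction d with
    | zero => exact refl _
    | succ d ih' =>
      have := s1 (i + d) (by omega)
      rw [show n - (i + d) = n - (i + d + 1) + 1 by omega] at this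
      rw [add_comm d 1]
      exact comp' _ _ _ _ _ (ih' (by omega)) (by rw [add_comm 1 d]; exact (hnx _ _ this).1)
  obtain ⟨i, j, hij, hc⟩ : ∃ i j : Fin m, i < j ∧ c (s i) = c (s j) := by
    obtain ⟨i, j, h1, h2⟩ := Fintype.exists_ne_map_eq_of_card_lt (fun i : Fin m => c (s i))
      (by simp [hm])
    rcases lt_or_gt_of_ne h1 with h3 | h3
    exacts [⟨i, j, h3, h2⟩, ⟨j, i, h3, h2.symm⟩]
  obtain ⟨z, hz⟩ := orb _ _ hc
  have hij' : (i : ℕ) < j := hij
  have hj := j.2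
  have c1 := s2 i (j - i) (by omega)
  rw [show (i : ℕ) + (j - i) = j by omega, hz] at c1
  have c2 := cyc _ _ _ (by omega) (by rw [Nat.card_eq_fintype_card]; omega) c1
  have c3 := inv _ z _ _ (s2 0 i (by omega))
  rw [zero_add, ← hz] at c3
  have c4 := ih _ (by omega) _ _ (comp' _ _ _ _ _ c3 (s1 j (by omega)))
  have c5 : h (tr z (s 0)) = w z + h x := hh z x
  have c6 : (n : ℤ) - m ≤ ((n - j + i : ℕ) : ℤ) := by omega
  have c7 : (ε : ℤ) * (n - m) ≤ ε * ((n - j + i : ℕ) : ℤ) := by gcongr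
  have c8 : (m : ℤ) * ε ≤ m * w z := by gcongr
  rw [c5] at c4
  linarith

variable {G : Type} [Group G] {d d' : Dg G} {Y : Forest d} {s : Flow Y}

lemma ht_tr {L : Subgroup G} {ψ : Dg L} {ht : Y.V → ℤ}
    (hh : ∀ (z : L) x, ht (z • x) = dg ψ z + ht x) (z : L) (e : Y.Dir) :
    ht (e.tr (z : G)).src = dg ψ z + ht e.src := by
  rw [src_tr]; exact hh z _

/-- heights change by a bounded amount in `n` steps -/
lemma ht_desc (L : Subgroup G) [L.FiniteIndex] (ψ : Dg L) (ht : Y.V → ℤ)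
    (hh : ∀ (z : L) x, ht (z • x) = dg ψ z + ht x) (n : ℕ) :
    ∃ C : ℕ, ∀ e e', s.Desc n e e' → ht e.src ≤ ht e'.src + C ∧ ht e'.src ≤ ht e.src + C := by
  obtain ⟨S, hS⟩ := finite_dir_orbits (Y := Y) L
  obtain ⟨C, hC⟩ := unif S.finite_toSet
    (fun e C => ∀ e', s.Desc n e e' → ht e.src ≤ ht e'.src + C ∧ ht e'.src ≤ ht e.src + C)
    (fun e C C' _ h e' h' => by have := h e' h'; omega) fun e =>
      unif (s.finite_desc n e) (fun e' C => ht e.src ≤ ht e'.src + C ∧ ht e'.src ≤ ht e.src + C)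
        (fun e C C' _ _ => by omega) fun e' => ⟨(ht e.src - ht e'.src).natAbs, by omega⟩
  refine ⟨C, fun x y e => ?_⟩
  obtain ⟨g, hg, h⟩ := hS x
  have := hC _ h _ (e.lh_tr g)
  have h1 := ht_tr hh ⟨g, hg⟩ x
  have h2 := ht_tr hh ⟨g, hg⟩ y
  simp only at h1 h2
  omega

lemma cyc_deg {g : G} {n : ℕ} {e : Y.Dir} (h : s.Desc n e (e.tr g)) : dg d g = n := by
  have := h.lh_lev
  rw [src_tr, lev_smul'] at this
  omega

lemma cyc_pow (hT : s.TT) {g : G} {n : ℕ} {e : Y.Dir} (h : s.Desc n e (e.tr g)) (k : ℕ) :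
    s.Desc (k * n) e (e.tr (g ^ k)) := by
  induction k with
  | zero => simpa [Flow.Desc] using Forest.cross_self e
  | succ k ih =>
    have := hT.lh_trans h (ih.lh_tr g)
    rwa [tr_tr, ← pow_succ', ← Nat.succ_mul] at this

/-- forward cycles exist in every subgroup of finite index -/
lemma exists_cyc (hT : s.TT) (L : Subgroup G) [L.FiniteIndex] :
    ∃ (z : L) (n : ℕ) (e : Y.Dir), 0 < n ∧ s.Desc n e (e.tr z) := by
  obtain ⟨S, hS⟩ := finite_dir_orbits (Y := Y) L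
  choose k hk hk' using hS
  choose nx hnx using exists_desc hT 1
  let e₀ : Y.Dir := (⟨1, hT.ne.some⟩, false)
  have h1 : ∀ n e, s.Desc n e (nx^[n] e) := fun n e => by
    induction n with
    | zero => exact Forest.cross_self e
    | succ n ih => rw [Function.iterate_succ_apply', add_comm]; exact hT.lh_trans ih (hnx _)
  obtain ⟨i, j, hij, e⟩ := Set.Finite.exists_lt_map_eq_of_forall_mem
    (f := fun n : ℕ => (nx^[n] e₀).tr (k (nx^[n] e₀))) (fun n => hk' _) S.finite_toSet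
  refine ⟨⟨(k (nx^[j] e₀))⁻¹ * k (nx^[i] e₀), L.mul_mem (L.inv_mem (hk _)) (hk _)⟩, j - i,
    nx^[i] e₀, by omega, ?_⟩
  have := h1 (j - i) (nx^[i] e₀)
  rw [← Function.iterate_add_apply, Nat.sub_add_cancel hij.le] at this
  simp only at e ⊢
  rwa [← tr_tr, e, tr_tr, inv_mul_cancel, tr_one]

/-- a class that is nonnegative on short cycles is nonnegative on all cycles -/
theorem short_cyc (hT : s.TT) (L : Subgroup G) [L.FiniteIndex] : ∃ N : ℕ, ∀ ψ : Dg L,
    (∀ z : L, (z : G) ∈ Y.Ell → ψ z = 1) →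
    (∀ (z : L) (n : ℕ) (e : Y.Dir), 0 < n → n ≤ N → s.Desc n e (e.tr z) → 0 ≤ dg ψ z) →
    ∀ (z : L) (n : ℕ) (e : Y.Dir), s.Desc n e (e.tr z) → 0 ≤ dg ψ z := by
  obtain ⟨S, hS⟩ := finite_dir_orbits (Y := Y) L
  refine ⟨Nat.card S, fun ψ hE cyc z n e q => ?_⟩
  obtain ⟨ht, hh⟩ := exists_ht (V := Y.V) ψ fun z x e => hE z ⟨x, e⟩
  obtain ⟨C, hC⟩ := ht_desc (s := s) L ψ ht hh 1
  choose k hk hk' using hS
  obtain ⟨m, hm, h⟩ := grow' (fun e : Y.Dir => (⟨e.tr (k e), hk' e⟩ : S))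
    (fun (z : L) (e : Y.Dir) => e.tr (z : G)) (fun z => dg ψ z) (fun e => ht e.src) s.Desc
    (fun x y e => ⟨⟨(k y)⁻¹ * k x, L.mul_mem (L.inv_mem (hk y)) (hk x)⟩, by
      have e' : x.tr (k x) = y.tr (k y) := congrArg Subtype.val e
      show y = x.tr _
      rw [← tr_tr, e', tr_tr, inv_mul_cancel, tr_one]⟩)
    (ht_tr hh) (fun n z x y e => e.lh_tr z) Forest.cross_self
    (fun x y e => (Flow.lh_desc_zero e).symm)
    (fun n x y e => s.cover_dir n e) (fun n x u y e e' => hT.lh_trans e e') C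
    (fun x y e => (hC x y e).1) 0 fun n z x hn hn' e => cyc z n x hn hn' e
  by_contra hneg
  have h1 := h _ _ _ (cyc_pow hT q (m * C + 1))
  have h2 := ht_tr hh (z ^ (m * C + 1)) e
  simp only [Subgroup.coe_pow] at h2
  have h3 : dg ψ (z ^ (m * C + 1)) = (m * C + 1 : ℕ) * dg ψ z := by simp [dg]
  simp only [h2, h3] at h1
  have h4 : (0 : ℤ) < m := by exact_mod_cast hm
  have h5 : ((m : ℤ) * C + 1) * dg ψ z ≤ (m * C + 1) * (-1) :=
    mul_le_mul_of_nonneg_left (by omega) (by positivity)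
  push_cast at h1
  nlinarith

/-- EX: the slope of `η` on cycles attains its maximum -/
theorem exists_max_cyc (hT : s.TT) (L : Subgroup G) [L.FiniteIndex] (η : Dg L)
    (hE : ∀ z : L, (z : G) ∈ Y.Ell → η z = 1) :
    ∃ (z₁ : L) (n₁ : ℕ) (e₁ : Y.Dir), 0 < n₁ ∧ s.Desc n₁ e₁ (e₁.tr z₁) ∧
      ∀ (z : L) (n : ℕ) (e : Y.Dir), s.Desc n e (e.tr z) → dg η z * n₁ ≤ dg η z₁ * n := by
  obtain ⟨N₀, hN⟩ := short_cyc hT L
  obtain ⟨z₀, n₀, e₀, h₀, q₀⟩ := exists_cyc hT L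
  set N := N₀ + n₀
  obtain ⟨ht, hh⟩ := exists_ht (V := Y.V) η fun z x e => hE z ⟨x, e⟩
  obtain ⟨C, hC⟩ := unif (Set.finite_Iic N)
    (fun n C => ∀ e e', s.Desc n e e' → ht e'.src ≤ ht e.src + C)
    (fun n C C' _ h e e' q => by have := h e e' q; omega) fun n =>
      let ⟨C, h⟩ := ht_desc (s := s) L η ht hh n; ⟨C, fun e e' q => (h e e' q).2⟩
  have dv : ∀ n, 0 < n → n ≤ N → ∃ c : ℕ, N.factorial = n * c := fun n h1 h2 =>
    Nat.dvd_factorial h1 h2
  obtain ⟨v, ⟨z₁, n₁, e₁, c₁, h₁, -, q₁, hc₁, rfl⟩, hv⟩ := Int.exists_greatest_of_bdd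
    (P := fun v => ∃ (z : L) (n : ℕ) (e : Y.Dir) (c : ℕ), 0 < n ∧ n ≤ N ∧ s.Desc n e (e.tr z) ∧
      N.factorial = n * c ∧ v = dg η z * c)
    ⟨C * N.factorial, by
      rintro _ ⟨z, n, e, c, h1, h2, q, hc, rfl⟩
      have h3 := hC n h2 _ _ q
      rw [ht_tr hh] at h3
      have h4 : (c : ℤ) ≤ N.factorial := by exact_mod_cast hc ▸ Nat.le_mul_of_pos_left c h1
      have h5 : dg η z * c ≤ C * c := by gcongr; omega
      have h6 : (C : ℤ) * c ≤ C * N.factorial := by gcongr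
      linarith⟩
    (let ⟨c, hc⟩ := dv n₀ h₀ (by omega); ⟨_, z₀, n₀, e₀, c, h₀, by omega, q₀, hc, rfl⟩)
  refine ⟨z₁, n₁, e₁, h₁, q₁, fun z n e q => ?_⟩
  have hψ : ∀ z : L, dg ((d.comp L.subtype) ^ dg η z₁ * η ^ (- n₁ : ℤ)) z =
      dg η z₁ * dg d z - dg η z * n₁ := fun z => by simp [dg]; ring
  have := hN ((d.comp L.subtype) ^ dg η z₁ * η ^ (- n₁ : ℤ))
    (fun z hz => by
      obtain ⟨a, ha⟩ := hz
      refine dg_ker.2 ?_
      rw [hψ, deg_eq_zero_of_fix ha, dg_ker.1 (hE z ⟨a, ha⟩)]; simp)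
    (fun z n e h1 h2 q => by
      obtain ⟨c, hc⟩ := dv n h1 (by omega)
      have h3 := hv _ ⟨z, n, e, c, h1, by omega, q, hc, rfl⟩
      have h4 : (n : ℤ) * c = n₁ * c₁ := by exact_mod_cast hc.symm.trans hc₁
      have h5 : (0 : ℤ) < n * c := by exact_mod_cast hc ▸ N.factorial_pos
      have h6 : dg η z * c * (n * n₁) ≤ dg η z₁ * c₁ * (n * n₁) := by gcongr
      rw [hψ, cyc_deg q]
      refine le_of_mul_le_mul_left ?_ h5
      have h7 : dg η z₁ * c₁ * (n * n₁) = dg η z₁ * n * (n * c) := by rw [h4]; ring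
      linarith) z n e q
  rw [hψ, cyc_deg q] at this
  linarith

end Push

open Push

/-- A class `η` on a subgroup of finite index cannot have slope below `1 / m` on all forward
cycles and slope at least `1 / m` on the inverse of a backward cycle. -/
theorem fib (hA : St_ASC) (hC : St_CURT) {G : Type} [Group G] {d d' : Dg G} (hF : FC d)
    (X : Pair d d') (hs : X.s.TT) (ht : X.t.TT) (L : Subgroup G) (hL : L.FiniteIndex) (η : Dg L)
    (hE : ∀ z : L, (z : G) ∈ X.P.Ell → η z = 1) (m : ℕ)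
    (fwd : ∀ (z : L) (n : ℕ) (e : X.P.Dir), 0 < n → X.s.Desc n e (e.tr z) →
      m * dg η z < dg d z)
    (z₀ : L) (n₀ : ℕ) (e₀ : X.M.Dir) (h₀ : 0 < n₀) (q₀ : X.t.Desc n₀ e₀ (e₀.tr z₀))
    (bwd : m * dg η z₀ ≤ dg d z₀) : False := by
  have inv : ∀ z, dg η⁻¹ z = - dg η z := fun z => by simp [dg]
  obtain ⟨z₁, n₁, e₁, h₁, q₁, hm⟩ := exists_max_cyc ht L η⁻¹ fun z hz => by
    simp [hE z (X.ell_eq ▸ hz)]
  simp only [inv] at hm
  have deg : ∀ {z : L} {n : ℕ} {e : X.M.Dir}, X.t.Desc n e (e.tr z) → dg d z = -n := fun q => by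
    have := cyc_deg q
    rw [X.neg] at this
    omega
  set r := - dg η z₁ with hr
  have hn₀ : (0 : ℤ) < n₀ := by exact_mod_cast h₀
  have hn₁ : (0 : ℤ) < n₁ := by exact_mod_cast h₁
  have hm0 : (0 : ℤ) ≤ m := m.cast_nonneg
  have r1 : (n₁ : ℤ) ≤ r * m := by
    have h1 := hm _ _ _ q₀
    rw [deg q₀] at bwd
    refine le_of_mul_le_mul_left ?_ hn₀
    nlinarith
  have r0 : 0 < r := by nlinarith
  set ψ : Dg L := (d.comp L.subtype) ^ r * η ^ (- n₁ : ℤ) with hψ'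
  have hψ : ∀ z : L, dg ψ z = r * dg d z - dg η z * n₁ := fun z => by simp [hψ', dg]; ring
  have inv' : ∀ z, dg ψ⁻¹ z = - dg ψ z := fun z => by simp [dg]
  have ell : ∀ z : L, (z : G) ∈ X.P.Ell → ψ z = 1 := fun z hz => by
    obtain ⟨a, ha⟩ := hz
    refine dg_ker.2 ?_
    rw [hψ, deg_eq_zero_of_fix ha, dg_ker.1 (hE z ⟨a, ha⟩)]; simp
  have pos : ∀ (z : L) (n : ℕ) (e : X.P.Dir), 0 < n → X.s.Desc n e (e.tr z) → 0 < dg ψ z := by
    intro z n e hn q
    have h1 := fwd z n e hn q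
    have h2 : 0 < dg d z := by rw [cyc_deg q]; exact_mod_cast hn
    rw [hψ]
    rcases le_total (dg η z) 0 with h | h <;> nlinarith
  refine hC G d' (hF.symm X) X.M X.t ht L hL ψ⁻¹ (fun z hz => by simp [ell z (X.ell_eq ▸ hz)])
    (fun z n e _ q => ?_) ⟨z₁, n₁, e₁, h₁, q₁, dg_ker.2 ?_⟩ (fun e => ?_) ?_
  · have := hm z n e q
    rw [inv', hψ, deg q]; linarith
  · rw [inv', hψ, deg q₁, hr]; ring
  · obtain ⟨z, n, e', hn, q⟩ := exists_cyc hs L
    have := pos z n e' hn q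
    rw [inv_eq_one.1 e] at this
    simp [dg] at this
  · have : ψ⁻¹.ker = ψ.ker := by ext z; simp [MonoidHom.mem_ker]
    rw [this]
    exact hA G d hF X.P X.s hs L hL ψ ell pos

end Pool.Agent.Lib.FBC
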