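import Pool.Agent.Lib.FBC.X3.Blue
import Pool.Agent.Lib.FBC.X3.FIB

/-!
The wall across a periodic orbit with north-south dynamics, and Theorem A.
-/

namespace Pool.Agent.Lib.FBC.X3

open Forest Eta

variable {G : Type} [Group G] {d d' : Dg G} {Y : Forest d} {s : Flow Y} {X : Type} [MulAction G X]
  {D : ℕ} {π : ℤ → X → Y.V}

lemma XSt.mono {c : G} {N W V W' V' : Set X} (h : XSt c N W V) (h1 : W ⊆ W') (h2 : V' ⊆ V) :
    XSt c N W' V' :=
  ⟨h.sub.trans h1, fun x t => h.out x (t.imp_left fun a b => a (h1 b)),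
    fun x t k => (h.tail x (h2 t) k).imp_right fun a b => a (h2 b)⟩

lemma Traj.zero (h : Traj s D π) (g : G) (x : X) : π 0 (g • x) = g • π (- dg d g) x := by
  rw [← h.smul, add_neg_cancel]

lemma Traj.cf (h : Traj s D π) (ν : Y.Dir) (x y : X) :
    {g : G | g ∈ d.ker ∧ Sp {x | π 0 x ∈ ν.H} (g • x) (g • y)}.Finite := by
  refine ((finite_smul_mem ν.1 (sep (π 0 x) (π 0 y)).finite_toSet).preimage
    inv_injective.injOn).subset fun g ⟨h1, h2⟩ => ?_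
  have l : Y.lev (π 0 x) = Y.lev (π 0 y) := by rw [h.lev, h.lev]
  simp only [Sp, Set.mem_ofPred_eq, h.zero, mem_ker_iff.1 h1, neg_zero, mem_H, Y.lev_smul, l] at h2
  simp only [Set.mem_preimage, Set.mem_ofPred_eq, Finset.mem_coe, mem_sep l, sd_smul', inv_inv]
  exact fun e => h2 (by rw [e])

lemma Traj.win (h : Traj s D π) {L : ℕ} {x y : X} (e : ∀ k : ℤ, |k| ≤ L → π k x = π k y) {g : G}
    (hg : |dg d g| ≤ L) : π 0 (g • x) = π 0 (g • y) := by
  rw [h.zero, h.zero, e _ (by rwa [abs_neg])]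

namespace THB

lemma ray_stair (hS : St_ST) (hL : St_LONG) (hG : FC d) (hT : s.TT) (h : Traj s D π) {r}
    (hr : LRay s r) (g : G) {n : ℕ} (hn : 0 < n)
    (inv : ∀ N, ∃ m, ∀ j : ℕ, ∀ y ∈ (r m).H, g ^ j • s.σ^[j * n] y ∈ (r N).H) (N : ℕ) :
    ∃ (c : G) (ν : Y.Dir) (M : ℕ), 0 < dg d c ∧ ∀ M' ≥ M,
      XSt c {x | π 0 x ∈ ν.H} {x | π 0 x ∈ (r N).H} {x | π 0 x ∈ (r M').H} := by
  obtain ⟨β, hβ⟩ := hS G d hG Y s hT X D π h
  obtain ⟨i, hi, t⟩ := hL G d hG.surj Y s hT r hr g n hn inv (N + 1) β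
  obtain ⟨c, e₁, e₄, ν, h1, h2, h3, h4⟩ := hβ _ _ (hr.lev i) t (hr.ray.dist_add i β).ge
  refine ⟨c, ν, i + β, h1, fun M' hM => h4.mono (fun x => ?_) fun x t => ?_⟩
  · exact fun t => H_subset (h2.btw_src.mem_H (hr.ray.src_mem (by omega))
      (hr.ray.src_mem (by omega))) (h2.extend_left (hr.ray.btw3 (by omega) (by omega))).1 t
  · exact h3.mem_H (hr.ray.btw (by omega) (hr.ray.anti_le hM t))

lemma chain {R : ℕ} {Ψ : Y.V → ℤ} (h : ∀ e e', s.Desc R e e' → Ψ e'.src ≤ Ψ e.src + 1) (k : ℕ) :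
    ∀ e e', s.Desc (R * k) e e' → Ψ e'.src ≤ Ψ e.src + k := by
  induction k with
  | zero => exact fun e e' t => by simp [Flow.lh_desc_zero t]
  | succ k ih =>
    intro e e' t
    rw [Flow.Desc, Nat.mul_succ, add_comm, Function.iterate_add_apply,
      Function.iterate_add_apply] at t
    obtain ⟨c, t1, t2⟩ := s.cover_dir R t
    have := ih e c t1
    have := h c e' t2
    push_cast
    omega

end THB

open THB in
theorem stTHB (hJ : St_TRAJ2) (hS : St_ST) (hL : St_LONG) (hX : St_NSX) (hB : St_DB)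
    (hW : St_WALL) (hE : St_ETAA) : St_THB := by
  classical
  intro G _ d d' hG X hs ht g n r₀ r hn hg h
  obtain ⟨Z, _, nl, ι, D, πP, πM, nl1, ι1, tP, tM, win, cmp, eP, eM⟩ :=
    hJ G d d' hG.surj X hs.ne ht.ne
  have hP := lrayP h
  have hM := lrayM h
  obtain ⟨N₀, dM, dP⟩ := h.disj
  obtain ⟨C, hC⟩ := (X.h'.comp X.h).exists_disp (hG.symm X).surj
  obtain ⟨c₀, ν₀, M₀, p₀, s₀⟩ := ray_stair hS hL hG hs tP hP g hn h.invP (N₀ + C + 1)
  choose c ν M p st using fun i => ray_stair hS hL (hG.symm X) ht tM (hM i) g⁻¹ hn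
    (fun N => (h.invM N).imp fun m t j => t j i) (N₀ + C + 1)
  have dPM : ∀ z i, πP 0 z ∈ (r₀ N₀).H → πM 0 z ∉ (r i (N₀ + C)).H := fun z i t1 t2 => by
    rcases cmp z with e | e
    · exact dP _ t1 i (e ▸ (hM i).ray.anti_le (by omega) t2)
    · exact dP _ t1 i (e ▸ (hM i).ray.near t2 (X.lev_hh' _).symm (by rw [Forest.dist_comm]; exact hC _))
  have tU : Traj X.s D fun k x => πP k (ι x) :=
    ⟨fun _ _ => tP.lev _ _, fun g k x => by rw [ι1, tP.smul], fun _ _ => tP.po _ _⟩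
  obtain ⟨N', B, B1, B2, B3⟩ := hB G d hG.surj X.P X.s hs D _ tU
    (fun x n => by simp [eP, up]) r₀ hP N₀
  obtain ⟨N, n1, n2, n3, n4⟩ : ∃ N, N₀ + C ≤ N ∧ N' ≤ N ∧ M₀ ≤ N ∧ ∀ i, M i ≤ N :=
    ⟨N₀ + C + N' + M₀ + M true + M false, by omega, by omega, by omega,
      by rintro (_ | _) <;> omega⟩
  have ker : ∀ x, x ∈ d'.ker ↔ x ∈ d.ker := fun x => by
    rw [mem_ker_iff, mem_ker_iff, X.neg, neg_eq_zero]
  have lo := hP.lev (N₀ + 1)
  obtain ⟨K, A, w, -⟩ := hW G Z (Option Bool) d nl (fun i => i.elim c₀ c)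
    (fun i => i.elim {z | πP 0 z ∈ ν₀.H} fun i => {z | πM 0 z ∈ (ν i).H})
    (fun i => i.elim {z | πP 0 z ∈ (r₀ (N₀ + C + 1)).H} fun i =>
      {z | πM 0 z ∈ (r i (N₀ + C + 1)).H})
    (fun i => i.elim {z | πP 0 z ∈ (r₀ N).H} fun i => {z | πM 0 z ∈ (r i N).H})
    (ι (r₀ (N₀ + 1)).src) (ι (r₀ 0).src) (ι (r₀ 0).src) hG.lerf hG.fg <| by
    refine ⟨nl1, ?_, ?_, ?_, ?_, ?_, ?_⟩
    · rintro (_ | i)
      · exact p₀.ne'
      · have := p i
        rw [X.neg] at this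
        exact fun e : dg d (c i) = 0 => by omega
    · rintro (_ | i)
      exacts [s₀ N n3, st i N (n4 i)]
    · have a : ∀ i, Disjoint {z | πP 0 z ∈ (r₀ (N₀ + C + 1)).H}
          {z | πM 0 z ∈ (r i (N₀ + C + 1)).H} := fun i => Set.disjoint_left.2 fun z t1 t2 =>
        dPM z i (hP.ray.anti_le (by omega) t1) ((hM i).ray.anti_le (by omega) t2)
      have b : Disjoint {z | πM 0 z ∈ (r true (N₀ + C + 1)).H}
          {z | πM 0 z ∈ (r false (N₀ + C + 1)).H} := Set.disjoint_left.2 fun z t1 t2 =>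
        Set.disjoint_left.1 dM ((hM _).ray.anti_le (by omega) t1)
          ((hM _).ray.anti_le (by omega) t2)
      rintro (_ | _ | _) (_ | _ | _) e
      exacts [(e rfl).elim, a _, a _, (a _).symm, (e rfl).elim, b.symm, (a _).symm, b, (e rfl).elim]
    · rintro (_ | i) t
      · simp only [Option.elim, Set.mem_ofPred_eq, eP, up, lo] at t
        exact not_mem_H_both (by simpa using t) (hP.ray.src_rv (j := N₀ + C + 1) (by omega))
      · simp only [Option.elim, Set.mem_ofPred_eq, eM, dn, lo] at t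
        exact dP _ (hP.ray.src_mem (Nat.lt_succ_self _)) i
          ((hM i).ray.anti_le (j := N₀ + C + 1) (by omega) (by simpa using t))
    · rintro (_ | i) x y
      · exact tP.cf _ x y
      · simpa only [ker, Option.elim] using tM.cf (ν i) x y
    · obtain ⟨T, hT⟩ := win ((dg d c₀).natAbs + (dg d (c true)).natAbs + (dg d (c false)).natAbs)
      refine ⟨T, fun x => ?_⟩
      obtain ⟨k, k1, z, k2, k3⟩ := hT x
      refine ⟨k, k1, z, k2, fun k' k4 i => ?_⟩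
      have e1 := fun g => tP.win (g := g) fun a b => congrArg Prod.fst (k3 a b)
      have e2 := fun g => tM.win (g := g) fun a b => congrArg Prod.snd (k3 a b)
      have k5 := mem_ker_iff.1 k4
      simp only [mul_smul] 
      rcases i with _ | i <;> simp only [Option.elim, Set.mem_ofPred_eq, ← mul_smul _ k']
      · rw [e1 _ (by simp [k5]; positivity), e1 _ (by simp [k5, add_assoc]; positivity)]
        exact ⟨Iff.rfl, Iff.rfl⟩
      · rw [e2 _ (by simp [k5, X.neg]; positivity), e2 _ (by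
          rw [X.neg, dg_mul, dg_inv, k5, Int.abs_eq_natAbs]; cases i <;> omega)]
        exact ⟨Iff.rfl, Iff.rfl⟩
  obtain ⟨j, hj⟩ := hX G d d' hG.surj X hs ht g n r₀ r hn hg h N
  replace hj := hj j le_rfl
  have inA : ∀ x y, x = y ∨ Adj x y → g ^ j • y ∉ B → ∃ i, πM 0 (ι x) ∈ (r i N).H :=
    fun x y a b => by
      simpa only [eM] using (hj x y a).resolve_right fun t =>
        b (B1 _ (eP _ _ ▸ hP.ray.anti_le n2 t))
  have inD : ∀ y, (g ^ j)⁻¹ • y ∈ B → πP 0 (ι y) ∈ (r₀ N).H := fun y b => by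
    simpa [eP] using (hj _ _ (.inl rfl)).resolve_left fun ⟨i, t⟩ =>
      dPM _ i (B2 _ b) (eM _ ▸ (hM i).ray.anti_le n1 t)
  have tA : ∀ i z, πM 0 z ∈ (r i N).H → z ∈ A := fun i z t =>
    (w.tail (some i) z t).2 (by have := p i; rw [X.neg] at this; simpa using this)
  have inV : ∀ y ∈ {y | (g ^ j)⁻¹ • y ∈ B} ∪ {y | g ^ j • y ∉ B}, ∃ i : Option Bool, ι y ∈
      i.elim {z | πP 0 z ∈ (r₀ N).H} fun i => {z | πM 0 z ∈ (r i N).H} := fun y t =>
    t.elim (fun t => ⟨none, inD y t⟩) fun t => let ⟨i, t⟩ := inA y y (.inl rfl) t; ⟨some i, t⟩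
  obtain ⟨S, hS⟩ := finite_dir_orbits (Y := X.P) ⊤
  obtain ⟨H, η, hs', Ψ, f1, f2, f3, f4⟩ := hE G X.P.V K (ι ⁻¹' A) ((g ^ (2 * j))⁻¹)
    {y | (g ^ j)⁻¹ • y ∈ B} {y | g ^ j • y ∉ B} (r₀ (N₀ + 1)).src
    (fun x y => ∃ e e', X.s.Desc (2 * j * n + 1) e e' ∧ x = e.src ∧ y = e'.src)
    (S.biUnion fun e => (X.s.finite_desc (2 * j * n + 1) e).toFinset.image fun e' =>
      (e.src, e'.src)) hG.lerf w.fg
    ⟨fun k hk a t => by simpa [ι1] using w.ai.inv k hk _ t,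
      fun x y => by simpa [ι1] using w.ai.fin (ι x) (ι y)⟩
    (fun x => by simp [two_mul, pow_add, mul_smul])
    (fun y t a => absurd ((w.tail none _ (inD y t)).1 a) p₀.not_gt)
    (fun y t => let ⟨i, t⟩ := inA y y (.inl rfl) t; tA i _ t)
    (fun k hk x a b => let ⟨i, a⟩ := inV _ a; let ⟨j, b⟩ := inV _ b;
      w.wand k hk i j _ a (ι1 _ _ ▸ b))
    (fun k hk a => let ⟨i, a⟩ := inV _ a; w.mid k hk i (ι1 _ _ ▸ a))
    (by rintro a _ _ ⟨e, e', t, rfl, rfl⟩; exact ⟨_, _, t.lh_tr a, by simp, by simp⟩)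
    (by
      rintro _ _ ⟨e, e', t, rfl, rfl⟩
      obtain ⟨a, -, ha⟩ := hS e
      exact ⟨a, Finset.mem_biUnion.2 ⟨_, ha, Finset.mem_image.2
        ⟨e'.tr a, by simpa using t.lh_tr a, by simp⟩⟩⟩)
    (by
      rintro _ _ ⟨e, e', t, rfl, rfl⟩ b
      have := B3 _ _ _ (t.lh_tr (g ^ j))
      simp only [src_tr, tgt_tr] at this
      by_cases a : g ^ j • e.src ∈ B
      · exact let ⟨i, t⟩ := inA _ _ (.inr (adj_dir e)) fun a' => b (this a a'); tA i _ t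
      · exact let ⟨i, t⟩ := inA _ _ (.inl rfl) a; tA i _ t)
  refine ⟨2 * j, H, η, by simpa using H.inv_mem hs', f1, ?_, fun z ⟨a, ha⟩ => ?_,
    fun z m e m0 t => ?_⟩
  · rw [← neg_inj, ← dg_inv, neg_neg, ← f2]; rfl
  · have := f3 z a
    rw [ha] at this
    exact mem_ker_iff.2 (by omega)
  · have t1 := chain (fun e e' t => f4 _ _ ⟨e, e', t, rfl, rfl⟩) m _ _
      (Push.cyc_pow hs t (2 * j * n + 1))
    have t2 := f3 (z ^ (2 * j * n + 1)) e.src
    rw [src_tr, ← Subgroup.coe_pow, t2, dg_pow] at t1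
    rw [Push.cyc_deg t]
    push_cast at t1 ⊢
    by_cases a : dg η z ≤ 0
    · have : (2 * j * n : ℤ) * dg η z ≤ 0 := mul_nonpos_of_nonneg_of_nonpos (by positivity) a
      omega
    · nlinarith

theorem stTHA (hN : St_NS) (hB : St_THB) (hA : St_ASC) (hC : St_CURT) : St_THA := by
  intro G _ d d' hG X hs ht g e ⟨n, hn, hg, he⟩
  by_contra hp
  obtain ⟨w, hw⟩ := (hG.symm X).surj (.ofAdd (- X.M.lev e.src))
  have h1 : X.t.IDesc n (e.tr w) ((e.tr w).tr (w * g * w⁻¹)) := by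
    simpa [tr_tr] using he.sa_tr w
  have h2 : dg d' (w * g * w⁻¹) = n := by simp [hg]
  have h3 : ∀ k : ℕ, (w * g * w⁻¹)⁻¹ ^ k = w * g⁻¹ ^ k * w⁻¹ := fun k => by
    rw [← conj_pow]; simp [mul_assoc]
  obtain ⟨r₀, r, h⟩ := hN G d d' hG X hs ht _ _ n ⟨n, hn, h2, h1⟩
    (by simp [X.M.lev_smul, hw]) h2 fun k hk ⟨m, m0, m1, m2⟩ => hp ⟨k, hk, m, m0,
      by simpa using m1, m2.imp (fun ⟨a, t⟩ => ⟨w⁻¹ • a, by rw [h3] at t; simp [t, mul_smul]⟩)
        fun ⟨c, t⟩ => ⟨w⁻¹ • c, by rw [h3] at t; simpa [mem_sep_smul, mul_smul] using t⟩⟩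
  obtain ⟨M, H, η, hs', f1, f2, f3, f4⟩ := hB G d d' hG X hs.toTT ht.toTT _ n r₀ r hn h2 h
  have M0 : 0 < M := Nat.pos_of_ne_zero (by
    rintro rfl
    rw [show (⟨_, hs'⟩ : H) = 1 from Subtype.ext (pow_zero _)] at f2
    simp at f2)
  refine fib hA hC hG X hs.toTT ht.toTT H f1 η f3 _ f4 ⟨_, hs'⟩ (M * n) _ (Nat.mul_pos M0 hn)
    (Push.cyc_pow ht.toTT h1.1 M) ?_
  have := X.neg (w * g * w⁻¹)
  rw [f2, dg_pow]
  push_cast
  nlinarith

end Pool.Agent.Lib.FBC.X3
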