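import Pool.Agent.Lib.FBC.X3.Blue

/-!
Pseudo-orbits that end close to each other do not start across a long legal segment.
-/

namespace Pool.Agent.Lib.FBC.X3

open Forest

theorem stTR (hSV : St_SV) : St_TR := by
  intro G _ d hd Y s hT r hr D C N
  obtain ⟨E, hE⟩ := hSV G d hd Y s hT D
  obtain ⟨p, hp, h⟩ := hr.leg N (E + (C + 1) + E)
  refine ⟨p + (E + (C + 1) + E), fun m z z' h1 h2 h3 h4 h5 => ?_⟩
  have R := hr.ray
  refine mem_H_of_not (h3.trans (hr.lev N).symm) fun t => ?_
  have sub : ∀ i j, i ≤ E + (C + 1) + E → j ≤ E + (C + 1) + E →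
      s.LegalP (r (p + i)).src (r (p + j)).src := fun i j hi hj =>
    h.sa_sub (R.btw3 (by omega) (by omega)) (R.btw3 (by omega) (by omega))
  have a1 := hE _ (r (p + (E + (C + 1)))).src _ m z (sub E _ (by omega) le_rfl)
    (R.btw3 (by omega) (by omega)) (by rw [R.dist_sub (by omega)]; omega) (R.btw (by omega) h5) h1
  have a2 := hE _ (r (p + E)).src (r (p + 0)).src m z' (sub (E + (C + 1)) 0 (by omega) (by omega))
    (R.btw3 (by omega) (by omega)).symm
    (by rw [Forest.dist_comm, R.dist_sub (by omega)]; omega)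
    (R.btw_of_cross t (R.src_mem (Nat.lt_add_of_pos_right (by omega))) hp le_rfl).symm h2
  have a3 := hT.sa_exp_iter (sub E (E + (C + 1)) (by omega) (by omega)) m
  rw [R.dist_sub (by omega)] at a3
  have a4 : C + 1 ≤ 4 ^ m * (p + (E + (C + 1)) - (p + E)) :=
    le_trans (by omega) (Nat.le_mul_of_pos_left _ (by positivity))
  have ne : s.σ^[m] (r (p + E)).src ≠ s.σ^[m] (r (p + (E + (C + 1)))).src := fun e => by
    rw [e, Forest.dist_self] at a3; omega
  have := (a2.symm.glue a1 ne).dist_mid (a2.symm.glue' a1 ne)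
  rw [Forest.dist_comm (z m)] at h4
  omega

end Pool.Agent.Lib.FBC.X3
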