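import Pool.Agent.Lib.FBC.X3.Blue

/-!
Trajectories of vertices: forwards along the flow, backwards along a map back.
-/

namespace Pool.Agent.Lib.FBC.X3

open Forest

namespace TRAJ1

variable {G : Type} [Group G] {d : Dg G} {Y : Forest d} (s : Flow Y) (r : Hom Y Y (-1))

lemma lev_it (n : ℕ) (a : Y.V) : Y.lev (r.toFun^[n] a) = Y.lev a - n := by
  induction n with
  | zero => simp
  | succ n ih => rw [Function.iterate_succ_apply', r.lev_map, ih]; push_cast; ring

lemma it_smul (n : ℕ) (g : G) (a : Y.V) : r.toFun^[n] (g • a) = g • r.toFun^[n] a := by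
  induction n with
  | zero => rfl
  | succ n ih => rw [Function.iterate_succ_apply', Function.iterate_succ_apply', ih, r.map_smul]

/-- the point at level `k` of the trajectory of `x` -/
def tr (k : ℤ) (x : Y.V) : Y.V :=
  s.σ^[(k - Y.lev x).toNat] (r.toFun^[(Y.lev x - k).toNat] x)

lemma lev_tr (k : ℤ) (x : Y.V) : Y.lev (tr s r k x) = k := by
  rw [tr, s.lev_iter, lev_it]
  omega

lemma tr_up {k : ℤ} {x : Y.V} {n : ℕ} (h : k = Y.lev x + n) : tr s r k x = s.σ^[n] x := by
  rw [tr, show (k - Y.lev x).toNat = n by omega, show (Y.lev x - k).toNat = 0 by omega]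
  rfl

lemma tr_dn {k : ℤ} {x : Y.V} {n : ℕ} (h : k + n = Y.lev x) : tr s r k x = r.toFun^[n] x := by
  rw [tr, show (k - Y.lev x).toNat = 0 by omega, show (Y.lev x - k).toNat = n by omega]
  rfl

lemma tr_tr {k c : ℤ} {x : Y.V} (h : Y.lev x ≤ c ∧ c ≤ k ∨ k ≤ c ∧ c ≤ Y.lev x ∨ c = Y.lev x) :
    tr s r k (tr s r c x) = tr s r k x := by
  have l := lev_tr s r c x
  rcases h with h | h | h
  · rw [tr_up s r (n := (k - c).toNat) (by omega), tr_up s r (n := (c - Y.lev x).toNat) (by omega),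
      tr_up s r (n := (k - c).toNat + (c - Y.lev x).toNat) (by omega), Function.iterate_add_apply]
  · rw [tr_dn s r (n := (c - k).toNat) (by omega), tr_dn s r (n := (Y.lev x - c).toNat) (by omega),
      tr_dn s r (n := (c - k).toNat + (Y.lev x - c).toNat) (by omega), Function.iterate_add_apply]
  · rw [tr_up s r (k := c) (n := 0) (by omega)]
    rfl

end TRAJ1

open TRAJ1 in
theorem stTRAJ1 : St_TRAJ1 := by
  classical
  intro G _ d hd Y s hI
  obtain ⟨r⟩ := s.rev
  obtain ⟨D, hD⟩ := ((s.it 1).comp (EMap.ofHom r)).exists_disp hd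
  refine ⟨D, tr s r, ⟨lev_tr s r, fun g k x => ?_, fun k x => ?_⟩,
    fun x n => tr_up s r rfl, fun L => ?_⟩
  · rw [tr, tr, lev_smul', it_smul, s.iter_smul]
    congr 3 <;> omega
  · rcases le_or_gt (Y.lev x) k with h | h
    · rw [tr_up s r (n := (k - Y.lev x).toNat) (by omega),
        tr_up s r (n := (k - Y.lev x).toNat + 1) (by omega), Function.iterate_succ_apply']
      simp
    · rw [tr_dn s r (n := (Y.lev x - k - 1).toNat + 1) (by omega),
        tr_dn s r (n := (Y.lev x - k - 1).toNat) (by omega), Function.iterate_succ_apply']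
      exact hD _
  · obtain ⟨S, hS⟩ := finite_vert_orbits (Y := Y) hd hI ⊤
    choose u hu using fun n : ℤ => hd (Multiplicative.ofAdd n)
    have hu' : ∀ n, dg d (u n) = n := fun n => by simp [dg, hu]
    refine ⟨(S ×ˢ Finset.Icc (-L : ℤ) L).image fun p => u (p.2 - Y.lev p.1) • p.1, fun x => ?_⟩
    obtain ⟨c, hc⟩ : ∃ c : ℤ, c = max (-L : ℤ) (min L (Y.lev x)) := ⟨_, rfl⟩
    obtain ⟨g, -, hg⟩ := hS (tr s r c x)
    refine ⟨(u (c - Y.lev (g • tr s r c x)) * g)⁻¹, ?_, _,
      Finset.mem_image.2 ⟨(_, c), Finset.mem_product.2 ⟨hg, Finset.mem_Icc.2 (by omega)⟩, rfl⟩,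
      fun k hk => ?_⟩
    · rw [mem_ker_iff, dg_inv, dg_mul, hu', lev_smul', lev_tr]
      ring
    · rw [← mul_smul, ← mul_smul, mul_assoc, inv_mul_cancel, one_smul, TRAJ1.tr_tr]
      rw [abs_le] at hk
      omega

end Pool.Agent.Lib.FBC.X3
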