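import Pool.Agent.Lib.FBC.X3.Blue

/-!
Broken trajectories in a pair of systems: forwards in the first, backwards in the second.
-/

namespace Pool.Agent.Lib.FBC.X3

open Forest

namespace TRAJ2

variable {G : Type} [Group G] {d d' : Dg G} (X : Pair d d')

/-- level -/
def nl : X.P.V ⊕ X.M.V → ℤ := Sum.elim X.P.lev fun u => - X.M.lev u

/-- shadow in the forward system -/
def pP : X.P.V ⊕ X.M.V → X.P.V := Sum.elim id X.h.f

/-- shadow in the backward system -/
def pM : X.P.V ⊕ X.M.V → X.M.V := Sum.elim X.h'.f id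

lemma lev_pP (z : X.P.V ⊕ X.M.V) : X.P.lev (pP X z) = nl X z := by
  cases z <;> simp [pP, nl, X.lev_h]

lemma lev_pM (z : X.P.V ⊕ X.M.V) : X.M.lev (pM X z) = - nl X z := by
  cases z <;> simp [pM, nl, X.lev_h']

lemma pP_smul (g : G) (z : X.P.V ⊕ X.M.V) : pP X (g • z) = g • pP X z := by
  cases z <;> simp [pP, X.h.smul]

lemma pM_smul (g : G) (z : X.P.V ⊕ X.M.V) : pM X (g • z) = g • pM X z := by
  cases z <;> simp [pM, X.h'.smul]

lemma nl_smul (g : G) (z : X.P.V ⊕ X.M.V) : nl X (g • z) = dg d g + nl X z := by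
  rw [← lev_pP, pP_smul, lev_smul', lev_pP, add_comm]

/-- the point at level `k` of the trajectory -/
def tr (k : ℤ) (z : X.P.V ⊕ X.M.V) : X.P.V ⊕ X.M.V :=
  if k = nl X z then z else if nl X z < k then .inl (X.s.σ^[(k - nl X z).toNat] (pP X z))
  else .inr (X.t.σ^[(nl X z - k).toNat] (pM X z))

lemma nl_tr (k : ℤ) (z : X.P.V ⊕ X.M.V) : nl X (tr X k z) = k := by
  unfold tr
  split_ifs with h1 h2
  · exact h1.symm
  · show X.P.lev _ = k
    rw [X.s.lev_iter, lev_pP]; omega
  · show - X.M.lev _ = k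
    rw [X.t.lev_iter, lev_pM]; omega

lemma tr_smul (g : G) (k : ℤ) (z : X.P.V ⊕ X.M.V) : tr X (dg d g + k) (g • z) = g • tr X k z := by
  simp only [tr, nl_smul, add_right_inj, add_lt_add_iff_left, add_sub_add_left_eq_sub, pP_smul,
    pM_smul, Flow.iter_smul]
  split_ifs <;> rfl

lemma up_step {k : ℤ} {z : X.P.V ⊕ X.M.V} (h : nl X z ≤ k) :
    tr X (k + 1) z = .inl (X.s.σ (pP X (tr X k z))) := by
  rw [tr, if_neg (by omega), if_pos (by omega),
    show (k + 1 - nl X z).toNat = (k - nl X z).toNat + 1 by omega, Function.iterate_succ_apply', tr]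
  split_ifs with h1 h2
  · simp [h1]
  · rfl
  · omega

lemma dn_step {k : ℤ} {z : X.P.V ⊕ X.M.V} (h : k ≤ nl X z) :
    tr X (k - 1) z = .inr (X.t.σ (pM X (tr X k z))) := by
  rw [tr, if_neg (by omega), if_neg (by omega),
    show (nl X z - (k - 1)).toNat = (nl X z - k).toNat + 1 by omega, Function.iterate_succ_apply',
    tr]
  split_ifs with h1 h2
  · simp [h1]
  · omega
  · rfl

lemma tr_tr {k c : ℤ} {z : X.P.V ⊕ X.M.V}
    (h : nl X z ≤ c ∧ c ≤ k ∨ k ≤ c ∧ c ≤ nl X z ∨ c = nl X z) :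
    tr X k (tr X c z) = tr X k z := by
  have l := nl_tr X c z
  have b : tr X c (tr X c z) = tr X c z := if_pos l.symm
  rcases h with ⟨h, h'⟩ | ⟨h', h⟩ | h
  · induction k, h' using Int.leInduction with
    | base => exact b
    | succ k hk ih => rw [up_step X (by omega), ih, up_step X (by omega)]
  · induction k, h' using Int.leInductionDown with
    | base => exact b
    | pred k hk ih => rw [dn_step X (by omega), ih, dn_step X (by omega)]
  · rw [show tr X c z = z from if_pos h]

end TRAJ2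

open TRAJ2 in
theorem stTRAJ2 : St_TRAJ2 := by
  classical
  intro G _ d d' hd X hI hI'
  have hd' : Function.Surjective d' := fun n => by
    obtain ⟨g, hg⟩ := hd n⁻¹
    exact ⟨g, Multiplicative.toAdd.injective (by simpa [dg, hg] using X.neg g)⟩
  obtain ⟨D1, h1⟩ := ((X.s.it 1).comp (X.h.comp ((X.t.it 1).comp X.h'))).exists_disp hd
  obtain ⟨D2, h2⟩ := ((X.s.it 1).comp (X.h.comp (X.t.it 1))).exists_close hd' X.h
  obtain ⟨D3, h3⟩ := ((X.t.it 1).comp (X.h'.comp ((X.s.it 1).comp X.h))).exists_disp hd'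
  obtain ⟨D4, h4⟩ := ((X.t.it 1).comp (X.h'.comp (X.s.it 1))).exists_close hd X.h'
  refine ⟨X.P.V ⊕ X.M.V, inferInstance, nl X, .inl, D1 + D2 + D3 + D4, fun k z => pP X (tr X k z),
    fun k z => pM X (tr X (-k) z), nl_smul X, fun _ _ => rfl,
    ⟨fun k z => by rw [lev_pP, nl_tr], fun g k z => by rw [tr_smul, pP_smul], fun k z => ?_⟩,
    ⟨fun k z => by rw [lev_pM, nl_tr, neg_neg], fun g k z => by
      rw [X.neg, neg_add, neg_neg, tr_smul, pM_smul], fun k z => ?_⟩,
    fun L => ?_, fun z => ?_, fun k x => ?_, fun x => ?_⟩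
  · rcases le_or_gt (nl X z) k with h | h
    · rw [up_step X h]; simp [pP]
    · have := dn_step X (k := k + 1) h
      rw [add_sub_cancel_right] at this
      rw [this]
      rcases tr X (k + 1) z with x | u
      · exact (h1 x).trans (by omega)
      · exact (h2 u).trans (by omega)
  · rw [neg_add']
    rcases le_or_gt (-k) (nl X z) with h | h
    · rw [dn_step X h]; simp [pM]
    · have := up_step X (k := -k - 1) (z := z) (by omega)
      rw [sub_add_cancel] at this
      rw [this]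
      rcases tr X (-k - 1) z with x | u
      · exact (h4 x).trans (by omega)
      · exact (h3 u).trans (by omega)
  · obtain ⟨S1, hS1⟩ := finite_vert_orbits (Y := X.P) hd hI ⊤
    obtain ⟨S2, hS2⟩ := finite_vert_orbits (Y := X.M) hd' hI' ⊤
    have hS : ∀ w : X.P.V ⊕ X.M.V, ∃ g : G, g • w ∈ S1.disjSum S2 := by
      rintro (x | u)
      · exact (hS1 x).imp fun g h => by simpa using h.2
      · exact (hS2 u).imp fun g h => by simpa using h.2
    choose u hu using fun n : ℤ => hd (Multiplicative.ofAdd n)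
    have hu' : ∀ n, dg d (u n) = n := fun n => by simp [dg, hu]
    refine ⟨(S1.disjSum S2 ×ˢ Finset.Icc (-L : ℤ) L).image fun p => u (p.2 - nl X p.1) • p.1,
      fun x => ?_⟩
    obtain ⟨c, hc⟩ : ∃ c : ℤ, c = max (-L : ℤ) (min L (nl X x)) := ⟨_, rfl⟩
    obtain ⟨g, hg⟩ := hS (tr X c x)
    refine ⟨(u (c - nl X (g • tr X c x)) * g)⁻¹, ?_, _,
      Finset.mem_image.2 ⟨(_, c), Finset.mem_product.2 ⟨hg, Finset.mem_Icc.2 (by omega)⟩, rfl⟩,
      fun k hk => ?_⟩
    · rw [mem_ker_iff, dg_inv, dg_mul, hu', nl_smul, nl_tr]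
      ring
    · rw [abs_le] at hk
      rw [← mul_smul, ← mul_smul, mul_assoc, inv_mul_cancel, one_smul]
      simp only
      rw [TRAJ2.tr_tr X (by omega), TRAJ2.tr_tr X (by omega)]
  · simp only [neg_zero]
    rcases tr X 0 z with x | u
    exacts [.inl rfl, .inr rfl]
  · simp only [tr, up, show nl X (.inl x) = X.P.lev x from rfl]
    split_ifs with a b c <;> first | rfl | omega | simp [a, pP]
  · simp only [tr, dn, show nl X (.inl x) = X.P.lev x from rfl, neg_zero, zero_sub, sub_zero]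
    split_ifs with a b c <;> first | rfl | omega | simp [← a, pM]

end Pool.Agent.Lib.FBC.X3
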