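import Pool.Agent.Lib.FBC.X3.Blue

/-!
Virtual homological independence from one staircase.
-/

namespace Pool.Agent.Lib.FBC.X3

open Forest

namespace VHT

variable {G : Type} [Group G] {d : Dg G} {Y : Forest d} {X : Type} [MulAction G X]

lemma xst_pow {c : G} {N W V : Set X} (h : XSt c N W V) (n : ℕ) : XSt (c ^ (n + 1)) N W V where
  sub := h.sub
  out x hx := by
    induction n with
    | zero => simpa using h.out x hx
    | succ n ih =>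
      have := h.out _ (Or.inr ih)
      rwa [← mul_smul, ← mul_inv_rev, ← pow_succ] at this
  tail x hx k := by
    have := h.tail x hx ((n + 1) * k + n)
    rwa [show (n + 1) * k + n + 1 = (n + 1) * (k + 1) by ring, pow_mul] at this

variable {s : Flow Y} {D : ℕ} {π : ℤ → X → Y.V}

lemma ker_smul (h : Traj s D π) {g : G} (hg : g ∈ d.ker) (k : ℤ) (x : X) :
    π k (g • x) = g • π k x := by
  simpa [mem_ker_iff.1 hg] using h.smul g k x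

lemma cf (h : Traj s D π) (ν : Y.Dir) (x y : X) :
    {g : G | g ∈ d.ker ∧ Sp {x | π 0 x ∈ ν.H} (g • x) (g • y)}.Finite := by
  refine (finite_smul_mem ν.1 (sep (π 0 x) (π 0 y)).finite_toSet).inv.subset fun g hg => ?_
  obtain ⟨hk, hs⟩ := hg
  have l : Y.lev (π 0 x) = Y.lev (π 0 y) := by rw [h.lev, h.lev]
  simp only [Sp, Set.mem_ofPred_eq, ker_smul h hk, mem_H, Y.lev_smul, l] at hs
  simp only [Set.mem_inv, Set.mem_ofPred_eq, Finset.mem_coe, mem_sep l, sd_smul', inv_inv]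
  exact fun e => hs (by rw [e])

lemma win (h : Traj s D π) (hw : WinT d π) (c : G) (ν : Y.Dir) :
    ∃ Z : Finset X, ∀ x, ∃ g ∈ d.ker, ∃ z ∈ Z, ∀ g' ∈ d.ker,
      (π 0 (g' • x) ∈ ν.H ↔ π 0 ((g' * g) • z) ∈ ν.H) ∧
        (π 0 (c⁻¹ • g' • x) ∈ ν.H ↔ π 0 (c⁻¹ • (g' * g) • z) ∈ ν.H) := by
  obtain ⟨Z, hZ⟩ := hw (dg d c).natAbs
  refine ⟨Z, fun x => ?_⟩
  obtain ⟨g, hg, z, hz, e⟩ := hZ x
  refine ⟨g, hg, z, hz, fun g' hg' => ⟨?_, ?_⟩⟩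
  · rw [mul_smul, ker_smul h hg', ker_smul h hg' _ (g • z), e 0 (by simp)]
  · have k : ∀ y, π 0 (c⁻¹ • y) = c⁻¹ • π (dg d c) y := fun y => by simpa using h.smul c⁻¹ (dg d c) y
    rw [k, k, mul_smul, ker_smul h hg', ker_smul h hg' _ (g • z), e _ (by simp)]

end VHT

theorem stVHT (hTRAJ1 : St_TRAJ1) (hWANT : St_WANT) (hLANG : St_LANG) (hST : St_ST)
    (hKEYV : St_KEYV) : St_VHT := by
  intro G _ d hd Y s hs t ht
  obtain ⟨D, π, hπ, hu, hw⟩ := hTRAJ1 G d hd.surj Y s hs.ne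
  obtain ⟨w, lw, hwand⟩ := hWANT G d hd Y s hs D π hπ hu t ht
  have A := hLANG G d hd.surj Y s hs
  obtain ⟨β, hβ⟩ := hST G d hd Y s hs Y.V D π hπ
  have fix : ∀ x, Y.lev x = 0 → π 0 x = x := fun x hx => by simpa [hx] using hu x 0
  have l := lev_src_tgt w
  obtain ⟨a', a, hL, ⟨s1, s2⟩, -, hd2⟩ :=
    A.ext w.src w.tgt ⟨0, w, btw_left l, btw_right l⟩ β
  have la : Y.lev a = 0 := s2.lev3.symm.trans lw
  obtain ⟨c, e₁, e₄, ν, hc, c1, c4, hX⟩ := hβ a w.tgt la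
    (A.sub a a' a w.tgt (A.symm _ _ hL) ⟨btw_left s1.lev3.symm, (s1.trans_right s2).symm⟩)
    (dist_comm a w.tgt ▸ hd2)
  obtain ⟨n, hn⟩ : ∃ n : ℕ, dg d t = (n + 1 : ℕ) := ⟨(dg d t - 1).toNat, by omega⟩
  have l1 : Y.lev e₁.src = 0 := c1.lev_src.symm.trans la
  have hc' : 0 < dg d (c ^ (n + 1)) := by rw [dg_pow]; positivity
  refine hKEYV G Y.V d Y.lev (c ^ (n + 1)) t {x | π 0 x ∈ ν.H} {x | π 0 x ∈ e₁.H}
    {x | π 0 x ∈ e₄.H} {x | π 0 x ∈ w.H} e₁.src hd.lerf hd.fg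
    ⟨Y.lev_smul, fun _ => hc'.ne', fun _ => VHT.xst_pow hX n, fun _ _ h => absurd rfl h,
      fun _ => ?_, fun _ => VHT.cf hπ ν, ?_⟩ hc' ht ⟨dg d c, by rw [dg_pow, hn]⟩ l1 ?_
    ⟨w.tgt, ?_⟩ hwand fun x hx => ?_
  · rw [Set.mem_ofPred_eq, fix _ l1]
    exact src_not_mem_H e₁
  · obtain ⟨Z, hZ⟩ := VHT.win hπ hw (c ^ (n + 1)) ν
    refine ⟨Z, fun x => ?_⟩
    obtain ⟨g, hg, z, hz, e⟩ := hZ x
    exact ⟨g, hg, z, hz, fun g' hg' _ => e g' hg'⟩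
  · refine (A.half e₁.rv e₁.src (lev_src_tgt e₁)).mono fun γ hγ => ⟨hγ.1, fun h => ?_⟩
    rw [Set.mem_ofPred_eq, VHT.ker_smul hπ hγ.1, fix _ l1] at h
    exact not_mem_H_both h hγ.2
  · rw [Set.mem_ofPred_eq, fix _ (l.symm.trans lw)]
    exact tgt_mem_H w
  · have := mem_rv_H_iff_btw.1 (mem_rv_H_of_not ((hπ.lev 0 x).trans lw.symm) hx)
    exact c4.mem_H (s2.symm.glue this.symm (src_ne_tgt w).symm)

end Pool.Agent.Lib.FBC.X3
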