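import Pool.Agent.Lib.FBC.X3.Blue
import Pool.Agent.Lib.FBC.FGG

/-!
The wall through finitely many staircases.
-/

namespace Pool.Agent.Lib.FBC.X3

open Pool.Agent.Lib.MP_288210_al (LERF)
open Forest Eta

namespace WALL

variable {G : Type} [Group G] {X : Type} [MulAction G X] {I J : Type}

/-- the family of pieces of the staircases -/
def fam (d : Dg G) (c : I → G) (N : I → Set X) (o : X) : Fam G X (I × Bool) where
  d := d
  st a := (a.1, !a.2)
  c a := bif a.2 then c a.1 else (c a.1)⁻¹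
  P a := bif a.2 then {x | (c a.1)⁻¹ • x ∉ N a.1} else N a.1
  o := o

variable {d : Dg G} {lev : X → ℤ} {c : I → G} {N W V : I → Set X} {o : X}

lemma sub (h : Stairs d lev c N W V o) (a : I × Bool) : (fam d c N o).P a ⊆ W a.1 := by
  obtain ⟨i, _ | _⟩ := a
  · exact (h.st i).sub
  · exact fun x hx => by_contra fun e => hx ((h.st i).out x (.inl e))

lemma ok (h : Stairs d lev c N W V o) : (fam d c N o).Ok lev where
  lev_smul := h.lev_smul
  st_st a := by simp [fam]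
  c_st := by rintro ⟨i, _ | _⟩ <;> simp [fam]
  deg := by rintro ⟨i, _ | _⟩ <;> simpa [fam] using h.deg i
  flip := by rintro ⟨i, _ | _⟩ x <;> simp [fam]
  base a e := h.base _ (sub h a e)
  cf := by
    rintro ⟨i, _ | _⟩ x y
    · exact h.cf i x y
    · refine ((h.cf i ((c i)⁻¹ • x) ((c i)⁻¹ • y)).preimage (f := fun g => (c i)⁻¹ * g * c i)
        (fun a _ b _ e => by simpa using e)).subset fun g hg => ⟨?_, ?_⟩
      · exact d.normal_ker.conj_mem' g hg.1 (c i)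
      · have := hg.2
        simp only [Sp, fam, mul_smul, smul_inv_smul, cond_true, Set.mem_ofPred_eq] at this ⊢
        tauto

lemma disj (h : Stairs d lev c N W V o) (a b : I × Bool) (e : a ≠ b) :
    Disjoint ((fam d c N o).P a) ((fam d c N o).P b) := by
  by_cases e1 : a.1 = b.1
  · obtain ⟨i, s⟩ := a
    obtain ⟨j, t⟩ := b
    obtain rfl : i = j := e1
    have : Disjoint (N i) {x | (c i)⁻¹ • x ∉ N i} :=
      Set.disjoint_left.2 fun x hx hx' => hx' ((h.st i).out x (.inr hx))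
    cases s <;> cases t
    exacts [(e rfl).elim, this, this.symm, (e rfl).elim]
  · exact (h.disj _ _ e1).mono (sub h a) (sub h b)

lemma win (h : Stairs d lev c N W V o) : (fam d c N o).Win := by
  obtain ⟨Z, hZ⟩ := h.win
  refine ⟨Z, fun x => ?_⟩
  obtain ⟨g, hg, z, hz, e⟩ := hZ x
  refine ⟨g, hg, z, hz, fun g' hg' => ?_⟩
  rintro ⟨i, _ | _⟩
  exacts [(e g' hg' i).1, (e g' hg' i).2.not]

lemma tl (h : Stairs d lev c N W V o) (H : Subgroup G) (hc : ∀ a, (fam d c N o).c a ∈ H) {i : I}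
    {x : X} (hx : x ∈ V i) : ((fam d c N o).res H hc).Tl (i, true) x := fun n => by
  have := ((h.st i).tail x hx n).1
  rw [pow_succ, mul_inv_rev, mul_smul] at this
  exact this

/-- finitely many elements of bounded degree carry a pair across a piece -/
lemma cross_fin [Finite J] {F : Fam G X J} (hF : F.Ok lev) (x y : X) (E : ℤ) :
    {f : G | |lev (f • x)| ≤ E ∧ ∃ a, Sp (F.P a) (f • x) (f • y)}.Finite := by
  have : ∀ n : ℤ, {f : G | lev (f • x) = n ∧ ∃ a, Sp (F.P a) (f • x) (f • y)}.Finite := fun n => by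
    rcases Set.eq_empty_or_nonempty {f : G | lev (f • x) = n} with e | ⟨g, hg⟩
    · exact Set.finite_empty.subset fun f hf => e ▸ hf.1
    · refine ((Set.finite_iUnion fun a => hF.cf a (g • x) (g • y)).image (· * g)).subset ?_
      rintro f ⟨h1, a, h2⟩
      refine ⟨f * g⁻¹, Set.mem_iUnion.2 ⟨a, mem_ker_iff.2 ?_, by simpa [mul_smul] using h2⟩, by simp⟩
      have h3 : lev (g • x) = n := hg
      rw [hF.lev_smul] at h1 h3
      rw [dg_mul, dg_inv]; omega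
  refine ((Set.finite_Icc (-E) E).biUnion fun n _ => this n).subset fun f hf => ?_
  exact Set.mem_biUnion (abs_le.1 hf.1) ⟨rfl, hf.2⟩

lemma rep {F : Fam G X J} (hF : F.Ok lev) (C : ℤ × Set (G × J × Bool)) :
    ∃ g₀ : G, ∀ g, F.InW (F.trC g C) → g₀ * g⁻¹ ∈ hF.K := by
  by_cases e : ∃ g₀, F.InW (F.trC g₀ C)
  · obtain ⟨g₀, e⟩ := e
    exact ⟨g₀, fun g hg => hF.mem_K_of hg (by simpa using e)⟩
  · exact ⟨1, fun g hg => (e ⟨g, hg⟩).elim⟩

lemma fg_map {G' : Type} [Group G'] {K : Subgroup G'} (h : K.FG) (f : G' →* G) : (K.map f).FG := by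
  obtain ⟨S, hS, hS'⟩ := (Subgroup.fg_iff _).1 h
  exact (Subgroup.fg_iff _).2 ⟨f '' S, by rw [← MonoidHom.map_closure, hS], hS'.image _⟩

lemma fg_res (hd : d.ker.FG) (H : Subgroup G) [H.FiniteIndex] :
    (MonoidHom.ker (d.comp H.subtype)).FG := by
  have := (Subgroup.fg_iff_submonoid_fg _).1 (fg_inf_of_finiteIndex H d.ker hd)
  refine (Subgroup.fg_iff_submonoid_fg _).2
    (Submonoid.FG.map_injective H.subtype H.subtype_injective ?_)
  convert this using 1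
  ext g
  exact ⟨by rintro ⟨k, hk, rfl⟩; exact ⟨k.2, hk⟩, fun e => ⟨⟨g, e.1⟩, e.2, rfl⟩⟩

end WALL

open WALL in
theorem stWALL (hNEST : St_NEST) (hWG : St_WG) (hWP : St_WP) (hWFG : St_WFG) : St_WALL := by
  intro G _ X _ I _ d lev c N W V o x₀ y₀ hL hd h
  classical
  have := Fintype.ofFinite I
  set F := fam d c N o with hFd
  have hF : F.Ok lev := ok h
  obtain ⟨D, hD⟩ := (Set.finite_range fun a => |dg d (F.c a)|).bddAbove
  replace hD : ∀ a, |dg d (F.c a)| ≤ D := fun a => hD ⟨a, rfl⟩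
  let Φ : X → X → Finset G := fun x y => (cross_fin hF x y (D + |lev x - lev y|)).toFinset
  obtain ⟨Γ, hΓ, hΓ'⟩ : ∃ Γ : Finset G,
      (∀ γ ∈ Γ, γ ∈ d.ker ∧ (∀ a, γ • x₀ ∉ F.P a) ∧ ∀ a, γ • y₀ ∉ F.P a) ∧
      ({γ : G | γ ∈ d.ker ∧ ∀ i, γ • x₀ ∉ W i}.Infinite →
        (Finset.univ ×ˢ Φ x₀ y₀ : Finset (((I × Bool) × Bool) × G)).card < Γ.card) := by
    by_cases e : {γ : G | γ ∈ d.ker ∧ ∀ i, γ • x₀ ∉ W i}.Infinite
    · obtain ⟨Γ, h1, h2⟩ := (e.sdiff (Set.finite_iUnion fun a => hF.cf a x₀ y₀)).exists_subset_card_eq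
        ((Finset.univ ×ˢ Φ x₀ y₀ : Finset (((I × Bool) × Bool) × G)).card + 1)
      refine ⟨Γ, fun γ hγ => ?_, fun _ => by omega⟩
      obtain ⟨⟨a1, a2⟩, a3⟩ := h1 hγ
      have a4 : ∀ a, γ • x₀ ∉ F.P a := fun a e => a2 _ (sub h a e)
      exact ⟨a1, a4, fun a e => a3 (Set.mem_iUnion.2 ⟨a, a1, fun e' => a4 a (e'.2 e)⟩)⟩
    · exact ⟨∅, by simp, fun e' => (e e').elim⟩
  obtain ⟨H, hc, hH, hN, hZ, hB⟩ := hNEST G X _ F lev hL hd hF (disj h) (win h)
    (Γ.image (· • x₀) ∪ Γ.image (· • y₀))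
    (((Γ ×ˢ Γ).filter fun p => p.1 ≠ p.2).image fun p => p.2 * p.1⁻¹)
    (fun z hz => by
      rcases Finset.mem_union.1 hz with hz | hz <;> obtain ⟨γ, hγ, rfl⟩ := Finset.mem_image.1 hz
      exacts [(hΓ γ hγ).2.1, (hΓ γ hγ).2.2])
    (fun b hb => by
      obtain ⟨p, hp, rfl⟩ := Finset.mem_image.1 hb
      obtain ⟨h1, h2⟩ := Finset.mem_filter.1 hp
      obtain ⟨h3, h4⟩ := Finset.mem_product.1 h1
      exact ⟨fun e => h2 (mul_inv_eq_one.1 e).symm, p.1 • x₀, (hΓ _ h3).2.1,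
        by simpa [mul_smul] using (hΓ _ h4).2.1⟩)
  set F' := F.res H hc with hF'd
  have hF' : F'.Ok lev := hF.res H hc
  have hC := hWG H X _ F' lev hF' hN
  obtain ⟨A, hA⟩ := hWP H X _ F' lev hF' hC
  choose ρ hρ using rep hF'
  let T : X → X → Finset G := fun x y => (Finset.univ ×ˢ Φ x y : Finset (((I × Bool) × Bool) × G)).image
    fun p => (ρ (F'.src (1, p.1)) : G) * p.2
  have sheet : ∀ (g : G) x y, (∃ β, F'.InW (F'.src β) ∧
      |dg F'.d β.1 - lev (g • x)| ≤ D + |lev (g • x) - lev (g • y)| ∧ Sp (F'.S β) (g • x) (g • y)) →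
      ∃ k ∈ hF'.K.map H.subtype, k * g ∈ T x y := by
    rintro g x y ⟨⟨k, t⟩, h1, h2, h3⟩
    have e : (k, t) = Fam.trS k ((1 : H), t) := by simp [Fam.trS]
    refine ⟨_, ⟨_, hρ (F'.src (1, t)) k (by rwa [← Fam.src_trS, ← e]), rfl⟩,
      Finset.mem_image.2 ⟨(t, (k : G)⁻¹ * g), Finset.mem_product.2 ⟨Finset.mem_univ _,
        (Set.Finite.mem_toFinset _).2 ⟨?_, t.1, ?_⟩⟩, by simp [mul_assoc]⟩⟩
    · have h4 : dg F'.d k = dg F.d (k : G) := rfl
      simp only [hF.lev_smul, dg_mul, dg_inv, h4, add_sub_add_left_eq_sub] at h2 ⊢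
      rw [abs_sub_comm] at h2
      convert h2 using 2
      ring
    · have h4 : ∀ z : X, z ∈ F'.S (k, t) ↔ ((k : G)⁻¹ • z ∈ F.P t.1 ↔ t.2 = false) :=
        fun _ => Iff.rfl
      simp only [Sp, h4, mul_smul] at h3 ⊢
      tauto
  refine ⟨hF'.K.map H.subtype, A, ⟨fg_map (hWFG H X _ F' lev hF' hC (fg_res hd H)) _, ⟨?_, ?_⟩,
    fun i x hx => hA.tail (i, true) x (tl h H hc hx), ?_, ?_⟩, fun h1 h2 h3 => ?_⟩
  · rintro _ ⟨k, hk, rfl⟩ a ha
    exact (hA.inv k hk a).2 ha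
  · intro x y
    let R : Set G := Set.range fun q : G ⧸ H => q.out⁻¹
    refine ⟨T y x ∪ ⋃ r ∈ R, (fun m => (ρ (F'.ch (r • y) m) : G) * r) ''
      Set.Icc (lev (r • x)) (lev (r • y)), (Finset.finite_toSet _).union
        ((Set.finite_range _).biUnion fun r _ => (Set.finite_Icc _ _).image _), fun g g1 g2 => ?_⟩
    rcases hA.sep D hD _ _ g2 g1 with e | ⟨n, n1, n2, n3, -⟩
    · obtain ⟨k, k1, k2⟩ := sheet g y x e
      exact ⟨k, k1, .inl k2⟩
    · obtain ⟨k, hk⟩ := QuotientGroup.mk_out_eq_mul H g⁻¹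
      obtain ⟨r, hr, rfl⟩ : ∃ r ∈ R, g = k * r := ⟨_, ⟨(g⁻¹ : G), rfl⟩, by simp only [hk]; simp⟩
      have h4 : ∀ z : X, lev (((k : G) * r) • z) = dg F'.d k + lev (r • z) := fun z => by
        rw [mul_smul]; exact hF'.lev_smul k _
      rw [h4] at n1 n2
      refine ⟨_, ⟨_, hρ (F'.ch (r • y) (n - dg F'.d k)) k ?_, rfl⟩, .inr (Set.mem_biUnion hr
        ⟨n - dg F'.d k, ⟨by omega, by omega⟩, by simp [mul_assoc]⟩)⟩
      rw [Fam.trC_ch, add_sub_cancel]
      rwa [mul_smul] at n3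
  · rintro _ ⟨k, hk, rfl⟩ i j x hx hy
    obtain ⟨e, m, rfl⟩ := hA.wand k hk _ _ x (tl h H hc hx) (tl h H hc hy)
    obtain rfl : i = j := congrArg Prod.fst e
    have h4 : H.subtype (F'.c (i, true) ^ m) = c i ^ m := by rw [map_zpow]; rfl
    simp only [h4] at hy ⊢
    rcases m with (_ | m) | m
    · simp
    · exact (((h.st i).tail _ hy m).2 (by simpa [← zpow_natCast] using hx)).elim
    · exact (((h.st i).tail _ hx m).2 (by simpa using hy)).elim
  · rintro _ ⟨k, hk, rfl⟩ i e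
    exact hA.mid k hk _ (tl h H hc e)
  · refine ⟨T x₀ y₀, Γ, Finset.card_image_le.trans_lt (hΓ' h3), fun γ g1 g2 => ?_,
      fun γ hγ => ?_, fun γ hγ γ' hγ' e => by_contra fun ne => ?_⟩
    · rcases hA.sep D hD _ _ g1 g2 with e | ⟨n, n1, n2, -⟩
      · exact sheet γ _ _ e
      · rw [hF.lev_smul] at n1 n2; omega
    · have h4 : dg F.d γ = 0 := mem_ker_iff.1 (hΓ γ hγ).1
      rw [hA.cen _ (hZ _ (Finset.mem_union_left _ (Finset.mem_image_of_mem _ hγ))),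
        hA.cen _ (hZ _ (Finset.mem_union_right _ (Finset.mem_image_of_mem _ hγ))),
        hF.lev_smul, hF.lev_smul]
      omega
    · exact hB _ (Finset.mem_image.2 ⟨(γ, γ'), Finset.mem_filter.2
        ⟨Finset.mem_product.2 ⟨hγ, hγ'⟩, ne⟩, rfl⟩) (Subgroup.map_subtype_le _ e)

end Pool.Agent.Lib.FBC.X3
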