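import Pool.Agent.Lib.FBC.X3.Blue
import Pool.Agent.Lib.FBC.FGG

/-!
The stabilizer of an abstract wall is finitely generated.
-/

namespace Pool.Agent.Lib.FBC.X3

open Fam Relation

namespace WFG

/-- base points and sheets -/
@[ext] structure Om (G J : Type) where
  /-- position -/
  g : G
  /-- kind -/
  l : Option (J × Bool)

variable {G : Type} [Group G] {X : Type} [MulAction G X] {J : Type}

instance : MulAction G (Om G J) where
  smul k w := ⟨k * w.g, w.l⟩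
  one_smul w := Om.ext (one_mul w.g) rfl
  mul_smul a b w := Om.ext (mul_assoc a b w.g) rfl

@[simp] lemma smul_g (k : G) (w : Om G J) : (k • w).g = k * w.g := rfl

/-- a sheet as an element of `Om` -/
def sht (β : G × J × Bool) : Om G J := ⟨β.1, some β.2⟩

lemma sht_tr (k : G) (β : G × J × Bool) : sht (trS k β) = k • sht β := rfl

variable (F : Fam G X J)

/-- the point of an element -/
def pnt : Om G J → X
  | ⟨g, none⟩ => g • F.o
  | ⟨g, some l⟩ => F.pt (g, l)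

/-- the chamber of an element -/
def cham (w : Om G J) : ℤ × Set (G × J × Bool) := F.ch (pnt F w) (dg F.d w.g)

lemma pnt_smul (k : G) (w : Om G J) : pnt F (k • w) = k • pnt F w := by
  obtain ⟨g, _ | l⟩ := w
  · exact mul_smul k g F.o
  · exact pt_trS k (g, l)

lemma cham_smul (k : G) (w : Om G J) : cham F (k • w) = F.trC k (cham F w) := by
  rw [cham, cham, trC_ch, pnt_smul, smul_g, dg_mul]

/-- `w` is the gate of `u` in the chamber `C` -/
def Gate (C : ℤ × Set (G × J × Bool)) (u w : Om G J) : Prop :=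
  dg F.d u.g = C.1 ∧ cham F w = C ∧ (w = u ∨ ∃ β, w = sht β ∧ pnt F u ∈ F.S β)

variable {F} {lev : X → ℤ} {C : ℤ × Set (G × J × Bool)} {u u' w w' : Om G J}

lemma Gate.smul (h : Gate F C u w) (k : G) : Gate F (F.trC k C) (k • u) (k • w) := by
  obtain ⟨h1, h2, h3⟩ := h
  refine ⟨by rw [smul_g, dg_mul, h1]; rfl, by rw [cham_smul, h2], ?_⟩
  rcases h3 with rfl | ⟨β, rfl, h⟩
  · exact Or.inl rfl
  · exact Or.inr ⟨trS k β, rfl, by rwa [pnt_smul, smul_mem_S]⟩

lemma Gate.unique (hF : F.Ok lev) (hC : F.Ch) (h : Gate F C u w) (h' : Gate F C u w') :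
    w = w' := by
  have key : ∀ β, cham F u = C → cham F (sht β) = C → pnt F u ∉ F.S β := fun β e e' m => by
    have l : dg F.d β.1 = dg F.d u.g := congrArg Prod.fst (e'.trans e.symm)
    have : F.ch (pnt F u) (dg F.d u.g) = F.ch (F.pt β) (dg F.d u.g) :=
      (e.trans e'.symm).trans (congrArg (F.ch (F.pt β)) l)
    exact hF.pt_not_mem β ((ch_eq_iff.1 this β l).1 m)
  obtain ⟨_, h2, rfl | ⟨β, rfl, h⟩⟩ := h <;> obtain ⟨_, h2', rfl | ⟨β', rfl, h'⟩⟩ := h'
  · rfl
  · exact absurd h' (key _ h2 h2')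
  · exact absurd h (key _ h2' h2)
  · rw [hC.uniq β β' _ (h2.trans h2'.symm) h h']

lemma exists_gate (hC : F.Ch) (e : cham F w = C) (l : dg F.d u.g = C.1) : ∃ v, Gate F C u v := by
  subst e
  rcases hC.exit (pnt F w) (pnt F u) (dg F.d w.g) with h | ⟨β, h, m⟩
  · exact ⟨u, l, by rw [cham, l]; exact h, Or.inl rfl⟩
  · exact ⟨sht β, l, h, Or.inr ⟨β, rfl, m⟩⟩

variable (F) in
/-- candidates for the gate of `u` when it differs from the gate of `u'` -/
def Cand (u u' : Om G J) : Set (Om G J) :=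
  insert u (sht '' {β | dg F.d β.1 = dg F.d u.g ∧ Sp (F.S β) (pnt F u) (pnt F u')})

lemma mem_cand (hF : F.Ok lev) (hC : F.Ch) (h : Gate F C u w) (h' : Gate F C u' w')
    (ne : w ≠ w') : w ∈ Cand F u u' := by
  obtain ⟨h1, h2, rfl | ⟨β, rfl, h⟩⟩ := h
  · exact Or.inl rfl
  · exact Or.inr ⟨β, ⟨(congrArg Prod.fst h2).trans h1.symm, fun e =>
      ne (Gate.unique hF hC ⟨h'.1, h2, Or.inr ⟨β, rfl, e.1 h⟩⟩ h')⟩, rfl⟩

variable (F) in
/-- reversal of a sheet, or gates of neighbouring elements -/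
def R0 (T : Set G) (w w' : Om G J) : Prop :=
  (∃ β, w = sht β ∧ w' = sht (F.rev β)) ∨
    ∃ C u u', ∃ t ∈ insert 1 T, u'.g = u.g * t ∧ Gate F C u w ∧ Gate F C u' w' ∧ w ≠ w'

lemma finite_orb [Finite J] (hF : F.Ok lev) (hC : F.Ch) {T : Set G} (hT : T.Finite) :
    ∃ T0 : Set (Om G J × Om G J), T0.Finite ∧
      ∀ w w', R0 F T w w' → ∃ g : G, (g • w, g • w') ∈ T0 := by
  have fc : ∀ u u', (Cand F u u').Finite := fun u u' => ((hC.fin _ _ _).image _).insert _
  refine ⟨Set.range (fun l : J × Bool => (sht (1, l), sht (F.rev (1, l)))) ∪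
    ⋃ t ∈ insert 1 T, ⋃ l, ⋃ l', Cand F ⟨1, l⟩ ⟨t, l'⟩ ×ˢ Cand F ⟨t, l'⟩ ⟨1, l⟩,
    (Set.finite_range _).union ((hT.insert 1).biUnion fun t _ => Set.finite_iUnion fun l =>
      Set.finite_iUnion fun l' => (fc _ _).prod (fc _ _)), ?_⟩
  rintro w w' (⟨β, rfl, rfl⟩ | ⟨C, u, u', t, ht, e, h, h', ne⟩)
  · refine ⟨β.1⁻¹, Or.inl ⟨β.2, ?_⟩⟩
    rw [← sht_tr, ← sht_tr, ← rev_trS]
    simp [trS]
  · have e1 : u.g⁻¹ • u = ⟨1, u.l⟩ := Om.ext (by simp) rfl
    have e2 : u.g⁻¹ • u' = ⟨t, u'.l⟩ := Om.ext (by simp [e]) rfl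
    have g1 := h.smul u.g⁻¹
    have g2 := h'.smul u.g⁻¹
    rw [e1] at g1
    rw [e2] at g2
    have ne' : u.g⁻¹ • w ≠ u.g⁻¹ • w' := fun e => ne (MulAction.injective _ e)
    refine ⟨u.g⁻¹, Or.inr ?_⟩
    simp only [Set.mem_iUnion]
    exact ⟨t, ht, u.l, u'.l, mem_cand hF hC g1 g2 ne', mem_cand hF hC g2 g1 ne'.symm⟩

lemma conn (hC : F.Ch) {T : Set G} (hT : Subgroup.closure T = F.d.ker) (hW : F.InW C)
    (e : cham F w = C) (e' : cham F w' = C) :
    EqvGen (fun w w' => F.InW (cham F w) ∧ R0 F T w w') w w' := by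
  have lv : ∀ {v}, cham F v = C → dg F.d v.g = C.1 := fun e => congrArg Prod.fst e
  have base : ∀ t ∈ insert 1 T, ∀ u u' w w', u'.g = u.g * t → Gate F C u w → Gate F C u' w' →
      EqvGen (fun w w' => F.InW (cham F w) ∧ R0 F T w w') w w' := fun t ht u u' w w' e h h' => by
    by_cases ne : w = w'
    · exact ne ▸ .refl _
    · exact .rel _ _ ⟨h.2.1 ▸ hW, Or.inr ⟨C, u, u', t, ht, e, h, h', ne⟩⟩
  have key : ∀ t ∈ Subgroup.closure T, ∀ u u' w w', u'.g = u.g * t → Gate F C u w →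
      Gate F C u' w' → EqvGen (fun w w' => F.InW (cham F w) ∧ R0 F T w w') w w' := by
    intro t ht
    induction ht using Subgroup.closure_induction with
    | mem t ht => exact base t (Or.inr ht)
    | one => exact base 1 (Or.inl rfl)
    | mul a b ha _ ia ib =>
      intro u u' v v' e1 h h'
      have : dg F.d a = 0 := by rw [hT] at ha; simp [dg, show F.d a = 1 from ha]
      obtain ⟨z, hz⟩ := exists_gate hC (u := ⟨u.g * a, none⟩) e (by rw [dg_mul, this, h.1, add_zero])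
      exact .trans _ _ _ (ia u _ v z rfl h hz) (ib _ u' z v' (by rw [e1, mul_assoc]) hz h')
    | inv a _ ia =>
      intro u u' v v' e1 h h'
      exact .symm _ _ (ia u' u v' v (by simp [e1]) h' h)
  refine key (w.g⁻¹ * w'.g) ?_ w w' w w' (by simp) ⟨lv e, e, Or.inl rfl⟩ ⟨lv e', e', Or.inl rfl⟩
  rw [hT, MonoidHom.mem_ker]
  apply Multiplicative.toAdd.injective
  change dg F.d _ = 0
  rw [dg_mul, dg_inv, lv e, lv e', neg_add_cancel]

end WFG

open WFG in
theorem stWFG : St_WFG := by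
  intro G _ X _ J _ F lev hF hC hk
  obtain ⟨T, hT, hT'⟩ := (Subgroup.fg_iff _).1 hk
  obtain ⟨T0, h0, h1⟩ := finite_orb hF hC hT'
  have : ∀ w : Om G J, ∃ g : G, (∃ g' : G, F.InW (cham F (g' • w))) → F.InW (cham F (g • w)) :=
    fun w => ⟨Classical.epsilon fun g : G => F.InW (cham F (g • w)), fun h =>
      Classical.epsilon_spec h⟩
  choose γ hγ using this
  have st : ∀ w : Om G J, (hF.K ⊓ MulAction.stabilizer G w).FG := fun w => by
    have : MulAction.stabilizer G w = ⊥ :=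
      eq_bot_iff.2 fun k hk => by simpa using congrArg Om.g (show k • w = w from hk)
    rw [this, inf_bot_eq]
    exact ⟨∅, by simp⟩
  have e0 : cham F ⟨1, none⟩ = F.ch F.o 0 := by simp [cham, pnt]
  have all : ∀ C, F.InW C → ∀ w, cham F w = C →
      EqvGen (fun w w' => F.InW (cham F w) ∧ R0 F T w w') ⟨1, none⟩ w := by
    intro C hW
    induction hW with
    | refl => exact fun w e => conn hC hT .refl e0 e
    | tail p l ih =>
      obtain ⟨β, rfl, rfl⟩ := l
      exact fun w e => .trans _ _ _ (ih (sht β) rfl) (.trans _ _ _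
        (.rel _ (sht (F.rev β)) ⟨p, Or.inl ⟨β, rfl, rfl⟩⟩)
        (conn hC hT (p.tail ⟨β, rfl, rfl⟩) rfl e))
  refine fgg hF.K _ (⟨1, none⟩ : Om G J) _ (h0.image fun p => (γ p.1 • p.1, γ p.1 • p.2))
    (fun k hk => all _ hk _ (by rw [cham_smul, e0])) (fun x y h => ?_) (st _)
    fun _ _ => ⟨st _, st _⟩
  obtain ⟨g, hg⟩ := h1 x y h.2
  refine ⟨γ (g • x) * g, hF.mem_K_of h.1 ?_, _, hg, by simp only [mul_smul]⟩
  rw [← cham_smul, mul_smul]
  exact hγ _ ⟨g⁻¹, by rw [inv_smul_smul]; exact h.1⟩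

end Pool.Agent.Lib.FBC.X3
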