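import Pool.Agent.Lib.FBC.X3.Blue

/-!
Chambers of a nested family: uniqueness and existence of exits.
-/

namespace Pool.Agent.Lib.FBC.X3

namespace WG

open Fam

variable {G : Type} [Group G] {X : Type} [MulAction G X] {J : Type} {F : Fam G X J} {lev : X → ℤ}

lemma fin [Finite J] (hF : F.Ok lev) (p x : X) (n : ℤ) :
    {β : G × J × Bool | dg F.d β.1 = n ∧ Sp (F.S β) p x}.Finite := by
  by_cases h0 : ∃ g0 : G, dg F.d g0 = n
  · obtain ⟨g0, hg0⟩ := h0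
    have hfin : (⋃ a : J, {h : G | h ∈ F.d.ker ∧
        Sp (F.P a) (h • (g0⁻¹ • p)) (h • (g0⁻¹ • x))}).Finite :=
      Set.finite_iUnion fun a => hF.cf a _ _
    refine (((hfin.image fun h => g0 * h⁻¹).prod (Set.finite_univ (α := J × Bool)))).subset ?_
    rintro ⟨g, a, ε⟩ ⟨h1, h2⟩
    refine ⟨⟨g⁻¹ * g0, Set.mem_iUnion.2 ⟨a, ?_, ?_⟩, by simp⟩, trivial⟩
    · rw [mem_ker_iff]
      simp only [dg_mul, dg_inv]
      simp only at h1
      omega
    · simp only [mul_smul, smul_inv_smul]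
      simp only [Sp, S, Set.mem_ofPred_eq] at h2 ⊢
      tauto
  · refine Set.Finite.subset Set.finite_empty ?_
    rintro β ⟨h1, -⟩
    exact h0 ⟨_, h1⟩

lemma bool_cases (ε ε0 : Bool) : ε = ε0 ∨ ε0 = !ε := by cases ε <;> cases ε0 <;> simp

lemma uniq (hF : F.Ok lev) (hN : F.Nest) (β β' : G × J × Bool) (x : X)
    (e : F.src β = F.src β') (h1 : x ∈ F.S β) (h2 : x ∈ F.S β') : β = β' := by
  obtain ⟨g, a, ε⟩ := β
  obtain ⟨g', a', ε'⟩ := β'
  have hd : dg F.d g = dg F.d g' := congrArg Prod.fst e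
  by_cases hga : (g, a) = (g', a')
  · obtain ⟨rfl, rfl⟩ := Prod.mk.inj hga
    rcases bool_cases ε ε' with rfl | rfl
    · rfl
    · exact absurd h1 (mem_S_not.1 h2)
  · obtain ⟨ε0, ε0', hdis, hpt⟩ := hN g g' a a' hd hga
    have e' : F.ch (F.pt (g, a, ε)) (dg F.d g) = F.ch (F.pt (g', a', ε')) (dg F.d g) := by
      have := e
      simp only [src] at this
      rw [← hd] at this
      exact this
    have k := ch_eq_iff.1 e'
    have a1 : F.pt (g', a', ε') ∉ F.S (g, a, ε) := fun t =>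
      hF.pt_not_mem _ ((k (g, a, ε) rfl).2 t)
    have a2 : F.pt (g, a, ε) ∉ F.S (g', a', ε') := fun t =>
      hF.pt_not_mem _ ((k (g', a', ε') hd.symm).1 t)
    rcases bool_cases ε ε0 with rfl | rfl
    · rcases bool_cases ε' ε0' with rfl | rfl
      · exact absurd h2 (Set.disjoint_left.1 hdis h1)
      · exact absurd (mem_S_not.2 a2) (hpt ε).2
    · exact absurd (mem_S_not.2 a1) (hpt ε').1

lemma exists_sep {p x : X} {n : ℤ} (h : F.ch x n ≠ F.ch p n) :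
    ∃ β : G × J × Bool, dg F.d β.1 = n ∧ p ∉ F.S β ∧ x ∈ F.S β := by
  rw [Ne, ch_eq_iff] at h
  push Not at h
  obtain ⟨⟨g, a, ε⟩, h1, h2⟩ := h
  rcases h2 with ⟨h2, h3⟩ | ⟨h2, h3⟩
  · exact ⟨(g, a, ε), h1, h3, h2⟩
  · exact ⟨(g, a, !ε), h1, fun t => mem_S_not.1 t h3, mem_S_not.2 h2⟩

lemma exit [Finite J] (hF : F.Ok lev) (hN : F.Nest) (p x : X) (n : ℤ) :
    F.ch x n = F.ch p n ∨ ∃ β, F.src β = F.ch p n ∧ x ∈ F.S β := by
  by_cases h : F.ch x n = F.ch p n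
  · exact Or.inl h
  right
  have hfin : {β : G × J × Bool | dg F.d β.1 = n ∧ p ∉ F.S β ∧ x ∈ F.S β}.Finite :=
    (fin hF p x n).subset fun β ⟨h1, h2, h3⟩ => ⟨h1, fun t => h2 (t.2 h3)⟩
  obtain ⟨⟨g, a, ε⟩, hmax⟩ := hfin.exists_maximalFor F.S _ (exists_sep h)
  obtain ⟨h1, h2, h3⟩ := hmax.prop
  refine ⟨(g, a, ε), ?_, h3⟩
  have hs : F.src (g, a, ε) = F.ch (F.pt (g, a, ε)) n := by rw [← h1]; rfl
  rw [hs]
  by_contra hne
  obtain ⟨⟨g', a', ε'⟩, k1, k2, k3⟩ := exists_sep hne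
  have hga : (g, a) ≠ (g', a') := by
    intro t
    obtain ⟨rfl, rfl⟩ := Prod.mk.inj t
    rcases bool_cases ε ε' with rfl | rfl
    · exact hF.pt_not_mem _ k3
    · exact k2 (mem_S_not.2 h2)
  obtain ⟨ε0, ε0', hdis, hpt⟩ := hN g g' a a' (h1.trans k1.symm) hga
  rcases bool_cases ε' ε0' with rfl | rfl
  · exact (hpt ε).2 k3
  have hp : p ∈ F.S (g', a', !ε') := mem_S_not.2 k2
  rcases bool_cases ε ε0 with rfl | rfl
  · have hsub : F.S (g, a, ε) ⊆ F.S (g', a', ε') := fun z hz => by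
      by_contra t
      exact Set.disjoint_left.1 hdis hz (mem_S_not.2 t)
    exact hF.pt_not_mem _ (hmax.le_of_le (j := (g', a', ε')) ⟨k1, k2, hsub h3⟩ hsub k3)
  · exact Set.disjoint_left.1 hdis (mem_S_not.2 h2) hp

end WG

theorem stWG : St_WG := fun _ _ _ _ _ _ _ _ hF hN =>
  ⟨WG.uniq hF hN, WG.exit hF hN, WG.fin hF⟩

end Pool.Agent.Lib.FBC.X3
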