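import Pool.Agent.Lib.FBC.X3.Blue

/-! The upper side of a wall, by pointer paths. -/

namespace Pool.Agent.Lib.FBC.X3

open Filter Fam

namespace WP

variable {G : Type} [Group G] {X : Type} [MulAction G X] {J : Type} (F : Fam G X J)

open Classical in
/-- leave the chamber through the sheet behind which the point lies -/
noncomputable def step (x : X) (C : ℤ × Set (G × J × Bool)) : ℤ × Set (G × J × Bool) :=
  if h : ∃ β, F.src β = C ∧ x ∈ F.S β then F.src (F.rev h.choose) else C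

/-- the pointer path -/
noncomputable def path (x : X) (C : ℤ × Set (G × J × Bool)) (k : ℕ) : ℤ × Set (G × J × Bool) :=
  (step F x)^[k] C

variable {F} {lev : X → ℤ} {x y : X} {β β' : G × J × Bool} {C C' : ℤ × Set (G × J × Bool)}

lemma path_succ (k : ℕ) : path F x C (k + 1) = step F x (path F x C k) :=
  Function.iterate_succ_apply' _ _ _

lemma path_succ' (k : ℕ) : path F x C (k + 1) = path F x (step F x C) k := rfl

lemma path_add (i k : ℕ) : path F x C (k + i) = path F x (path F x C i) k :=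
  Function.iterate_add_apply _ _ _ _

lemma step_eq (hC : F.Ch) (h : F.src β = C) (hx : x ∈ F.S β) :
    step F x C = F.src (F.rev β) := by
  have e : ∃ β, F.src β = C ∧ x ∈ F.S β := ⟨β, h, hx⟩
  rw [step, dif_pos e, hC.uniq _ β x (e.choose_spec.1.trans h.symm) e.choose_spec.2 hx]

lemma step_cases (x : X) (C : ℤ × Set (G × J × Bool)) :
    (step F x C = C ∧ ∀ β, F.src β = C → x ∉ F.S β) ∨
      ∃ β, F.src β = C ∧ x ∈ F.S β ∧ step F x C = F.src (F.rev β) := by
  by_cases e : ∃ β, F.src β = C ∧ x ∈ F.S β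
  · exact .inr ⟨_, e.choose_spec.1, e.choose_spec.2, dif_pos e⟩
  · exact .inl ⟨dif_neg e, fun β h hx => e ⟨β, h, hx⟩⟩

lemma step_fix (h : ∀ β, F.src β = C → x ∉ F.S β) : step F x C = C := by
  rcases step_cases (F := F) x C with e | ⟨β, h1, h2, -⟩
  exacts [e.1, absurd h2 (h β h1)]

lemma path_fix (h : step F x C = C) (k : ℕ) : path F x C k = C :=
  Function.iterate_fixed h k

lemma path_inW (h : F.InW C) (k : ℕ) : F.InW (path F x C k) := by
  induction k with
  | zero => exact h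
  | succ k ih =>
    rw [path_succ]
    rcases step_cases (F := F) x (path F x C k) with e | ⟨β, h1, -, h2⟩
    · rwa [e.1]
    · exact ih.tail ⟨β, h1, h2.symm⟩

lemma path_ch (p : X) (n : ℤ) (k : ℕ) :
    ∃ q, path F x (F.ch p n) k = F.ch q (path F x (F.ch p n) k).1 := by
  induction k with
  | zero => exact ⟨p, rfl⟩
  | succ k ih =>
    rw [path_succ]
    rcases step_cases (F := F) x (path F x (F.ch p n) k) with e | ⟨β, -, -, h2⟩
    · rwa [e.1]
    · exact ⟨_, by rw [h2]; rfl⟩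

lemma noexit (hF : F.Ok lev) {n : ℤ} (h : F.src β = F.ch x n) : x ∉ F.S β := by
  obtain rfl : dg F.d β.1 = n := congrArg Prod.fst h
  exact fun hx => hF.pt_not_mem β ((ch_eq_iff.1 h β rfl).2 hx)

lemma meet (hF : F.Ok lev) (hC : F.Ch) (x : X) (h : F.InW C) :
    ∃ i j, path F x (F.ch F.o 0) i = path F x C j := by
  induction h with
  | refl => exact ⟨0, 0, rfl⟩
  | tail _ e ih =>
    obtain ⟨i, j, ih⟩ := ih
    obtain ⟨β, h1, h2⟩ := e
    by_cases hx : x ∈ F.S β
    · exact ⟨i + 1, j, by rw [path_succ, ih, ← path_succ, path_succ', step_eq hC h1 hx, h2]⟩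
    · exact ⟨i, j + 1, by
        rw [path_succ', step_eq hC h2 (hF.mem_S_rev.2 hx), hF.rev_rev, h1, ih]⟩

lemma step_tr (hC : F.Ch) (g : G) : step F (g • x) (F.trC g C) = F.trC g (step F x C) := by
  rcases step_cases (F := F) x C with e | ⟨β, h1, h2, h3⟩
  · rw [e.1]
    refine step_fix fun β h hx => e.2 (trS g⁻¹ β) (by rw [src_trS, h]; simp) ?_
    rwa [mem_S_trS, inv_inv]
  · rw [h3, step_eq hC (by rw [src_trS, h1]) (smul_mem_S.2 h2), rev_trS, src_trS]

lemma path_tr (hC : F.Ch) (g : G) (k : ℕ) :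
    path F (g • x) (F.trC g C) k = F.trC g (path F x C k) := by
  induction k with
  | zero => rfl
  | succ k ih => rw [path_succ, path_succ, ih, step_tr hC]

lemma ev_shift (Q : ℤ → Prop) (i : ℕ) : (∀ᶠ k in atTop, Q (path F x (path F x C i) k).1) ↔
    ∀ᶠ k in atTop, Q (path F x C k).1 := by
  simp only [← path_add]
  exact (eventually_map (P := fun k => Q (path F x C k).1)).symm.trans
    (by rw [map_add_atTop_eq_nat])

lemma nest (hF : F.Ok lev) (hC : F.Ch) (h : F.src β' = F.src (F.rev β)) (hx : x ∈ F.S β)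
    (hx' : x ∈ F.S β') : F.S β' ⊂ F.S β := by
  refine ⟨fun z hz => by_contra fun hn => ?_, fun hs => ?_⟩
  · rw [hC.uniq _ _ z h hz (hF.mem_S_rev.2 hn), hF.mem_S_rev] at hx'
    exact hx' hx
  · exact noexit hF h (hs (by_contra fun hn => hF.pt_not_mem _ (hF.mem_S_rev.2 hn)))

lemma later (hF : F.Ok lev) (hC : F.Ch) (h : ∀ β, F.src β = C → x ∈ F.S β → y ∉ F.S β) (k : ℕ) :
    ∀ β, F.src β = path F x C k → x ∈ F.S β → y ∉ F.S β := by
  induction k with
  | zero => exact h
  | succ k ih =>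
    intro β' h1 h2
    rw [path_succ] at h1
    rcases step_cases (F := F) x (path F x C k) with e | ⟨β, h3, h4, h5⟩
    · exact ih β' (h1.trans e.1) h2
    · exact fun hy => ih β h3 h4 ((nest hF hC (h1.trans h5) h4 h2).1 hy)

lemma cross (hF : F.Ok lev) (hC : F.Ch) {D : ℤ} (hD : ∀ a, |dg F.d (F.c a)| ≤ D) (hW : F.InW C)
    (h : ∀ β, F.src β = C → x ∈ F.S β → y ∉ F.S β) {Q : ℤ → Prop} (h0 : ¬ Q C.1) {k : ℕ}
    (hk : Q (path F x C k).1) : ∃ β n, F.InW (F.src β) ∧ ¬ Q n ∧ Q (dg F.d β.1) ∧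
      |dg F.d β.1 - n| ≤ D ∧ x ∉ F.S β ∧ y ∈ F.S β := by
  induction k with
  | zero => exact absurd hk h0
  | succ k ih =>
    by_cases hq : Q (path F x C k).1
    · exact ih hq
    have w := path_inW (x := x) hW (k + 1)
    rw [path_succ] at hk w
    rcases step_cases (F := F) x (path F x C k) with e | ⟨β, h3, h4, h5⟩
    · exact absurd (e.1 ▸ hk) hq
    · rw [h5] at hk w
      refine ⟨F.rev β, _, w, hq, hk, ?_, fun t => hF.mem_S_rev.1 t h4,
        hF.mem_S_rev.2 (later hF hC h k β h3 h4)⟩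
      rw [← h3]
      simpa [rev] using hD β.2.1

lemma stops (hF : F.Ok lev) (hC : F.Ch) {p : X} {n l u : ℤ}
    (h : ∃ᶠ k in atTop, (path F x (F.ch p n) k).1 ∈ Set.Ico l u) :
    ∃ k, ∀ β, F.src β = path F x (F.ch p n) k → x ∉ F.S β := by
  by_contra hn
  push Not at hn
  choose b h1 h2 using hn
  have an : StrictAnti fun k => F.S (b k) := strictAnti_nat_of_succ_lt fun k =>
    nest hF hC (by rw [h1, path_succ, step_eq hC (h1 k) (h2 k)]) (h2 k) (h2 _)
  have inj : Function.Injective b := fun i j e => an.injective (by simp only [e])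
  refine Nat.frequently_atTop_iff_infinite.1 h
    ((((Set.finite_Ico l u).biUnion fun m _ => hC.fin p x m).preimage inj.injOn).subset
      fun k hk => ?_)
  refine Set.mem_biUnion hk ⟨congrArg Prod.fst (h1 k), fun e => ?_⟩
  exact later hF hC (fun β t _ => noexit hF t) k _ (h1 k) (h2 k) (e.2 (h2 k))

lemma tl_mem {a : J} (h : F.Tl a x) (k : ℕ) : x ∈ F.S (F.c a ^ k, a, false) := by
  simpa [S] using h k

lemma path_tl (hC : F.Ch) {a : J} (h : F.Tl a x) (k : ℕ) :
    path F x (F.ch F.o 0) k = F.src (F.c a ^ k, a, false) := by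
  induction k with
  | zero => simp [path, src, pt]
  | succ k ih => rw [path_succ, step_eq hC ih.symm (tl_mem h k), pow_succ]; rfl

lemma sep (hF : F.Ok lev) (hC : F.Ch) {D : ℤ} (hD : ∀ a, |dg F.d (F.c a)| ≤ D)
    (hx : ∀ᶠ k in atTop, (path F x (F.ch F.o 0) k).1 < lev x)
    (hy : ¬ ∀ᶠ k in atTop, (path F y (F.ch F.o 0) k).1 < lev y) :
    (∃ β, F.InW (F.src β) ∧ |dg F.d β.1 - lev x| ≤ D + |lev x - lev y| ∧ Sp (F.S β) x y) ∨
      ∃ n, lev y ≤ n ∧ n < lev x ∧ F.InW (F.ch x n) ∧ F.ch y n = F.ch x n := by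
  have W0 : F.InW (F.ch F.o 0) := .refl
  by_cases e : ∀ k, path F x (F.ch F.o 0) k = path F y (F.ch F.o 0) k
  · simp only [← e, not_eventually, not_lt] at hy
    obtain ⟨k, hk⟩ := stops hF hC (hy.and_eventually hx)
    obtain ⟨q, hq⟩ := path_ch (F := F) (x := x) F.o 0 k
    have w := path_inW (x := x) W0 k
    have f := step_fix hk
    have f' : step F y (path F x (F.ch F.o 0) k) = path F x (F.ch F.o 0) k := by
      rw [e, ← path_succ, ← e, path_succ, f, e]
    have t := ((ev_shift (· < lev x) k).2 hx).exists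
    have t' := mt (ev_shift (F := F) (x := x) (C := F.ch F.o 0) (· < lev y) k).1
      (by simpa only [not_eventually, not_lt] using hy)
    simp only [path_fix f, exists_const, eventually_const, not_lt] at t t'
    generalize path F x (F.ch F.o 0) k = C at *
    have a : F.ch x C.1 = C := by
      rcases hC.exit q x C.1 with h | ⟨β, h1, h2⟩
      exacts [h.trans hq.symm, absurd h2 (hk β (h1.trans hq.symm))]
    have b : F.ch y C.1 = C := by
      rcases hC.exit q y C.1 with h | ⟨β, h1, h2⟩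
      · exact h.trans hq.symm
      · exact absurd (by rw [← step_eq hC (h1.trans hq.symm) h2, f', h1, ← hq])
          (hF.lev_rev_ne β)
    exact .inr ⟨C.1, t', t, a.symm ▸ w, b.trans a.symm⟩
  left
  have : ∃ k, path F x (F.ch F.o 0) k = path F y (F.ch F.o 0) k ∧
      path F x (F.ch F.o 0) (k + 1) ≠ path F y (F.ch F.o 0) (k + 1) := by
    by_contra hn
    push Not at hn
    exact e fun k => Nat.rec rfl hn k
  obtain ⟨k, e1, e2⟩ := this
  have w := path_inW (x := x) W0 k
  obtain ⟨i, hi⟩ := ((ev_shift (· < lev x) k).2 hx).exists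
  obtain ⟨j, hj⟩ := (not_eventually.1 (mt (ev_shift (· < lev y) k).1 hy)).exists
  rw [path_succ, path_succ, ← e1] at e2
  rw [← e1] at hj
  generalize path F x (F.ch F.o 0) k = C at *
  have a : ∀ β, F.src β = C → x ∈ F.S β → y ∉ F.S β := fun β h1 h2 h3 =>
    e2 ((step_eq hC h1 h2).trans (step_eq hC h1 h3).symm)
  have : ∃ β, F.src β = C ∧ Sp (F.S β) x y := by
    rcases step_cases (F := F) x C with s | ⟨β, h1, h2, -⟩
    · rcases step_cases (F := F) y C with s' | ⟨β, h1, h2, -⟩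
      exacts [absurd (s.1.trans s'.1.symm) e2, ⟨β, h1, fun t => s.2 β h1 (t.2 h2)⟩]
    · exact ⟨β, h1, fun t => a β h1 h2 (t.1 h2)⟩
  obtain ⟨β, h1, h2⟩ := this
  have d0 : 0 ≤ D := (abs_nonneg _).trans (hD β.2.1)
  have d1 := le_abs_self (lev x - lev y)
  have d2 := neg_abs_le (lev x - lev y)
  generalize |lev x - lev y| = δ at *
  by_cases c1 : C.1 ≤ lev x + δ + D
  · by_cases c2 : lev x - δ - D ≤ C.1
    · exact ⟨β, h1 ▸ w, by rw [← src_fst, h1, abs_le]; omega, h2⟩
    · obtain ⟨β, n, h1, h2, h3, h4, h5, h6⟩ := cross hF hC hD w (fun β s t u => a β s u t)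
        (Q := fun n => lev x - δ - D ≤ n) c2 (k := j) (by omega)
      exact ⟨β, h1, by rw [abs_le] at *; omega, fun t => h5 (t.1 h6)⟩
  · obtain ⟨β, n, h1, h2, h3, h4, h5, h6⟩ := cross hF hC hD w a
      (Q := fun n => n ≤ lev x + δ + D) c1 (k := i) (by omega)
    exact ⟨β, h1, by rw [abs_le] at *; omega, fun t => h5 (t.2 h6)⟩

end WP

open WP in
theorem stWP : St_WP := by
  intro G _ X _ J _ F lev hF hC
  refine ⟨{x | ∀ᶠ k in atTop, (path F x (F.ch F.o 0) k).1 < lev x}, fun k hk x => ?_,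
    fun D hD x y hx hy => sep hF hC hD hx hy, fun x hx => ?_, fun a x hx => ?_,
    fun k hk a b x ha hb => ?_, fun k hk a ha => ?_⟩
  · obtain ⟨i, j, e⟩ := meet hF hC (k • x) hk
    rw [Set.mem_ofPred_eq, ← ev_shift (· < lev (k • x)) i, e, ev_shift (· < lev (k • x))]
    simp only [WP.path_tr hC]
    simp only [trC, hF.lev_smul, add_lt_add_iff_left, Set.mem_ofPred_eq]
  · simp only [path_fix (step_fix fun β h => noexit hF (h.trans hx.symm)), Set.mem_ofPred_eq,
      eventually_const, ch_fst]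
  · have := hF.deg a
    simp only [Set.mem_ofPred_eq, path_tl hC hx, src_fst, dg_pow]
    generalize dg F.d (F.c a) = e at *
    refine ⟨fun h => by_contra fun c => ?_, fun h => ?_⟩
    · obtain ⟨k, h1, h2⟩ := (h.and (eventually_ge_atTop (lev x).toNat)).exists
      nlinarith [Int.self_le_toNat (lev x), (Nat.cast_le (α := ℤ)).2 h2,
        mul_nonneg (Nat.cast_nonneg (α := ℤ) k) (show 0 ≤ e - 1 by omega)]
    · filter_upwards [eventually_gt_atTop (-lev x).toNat] with k hk
      nlinarith [Int.self_le_toNat (-lev x), (Nat.cast_lt (α := ℤ)).2 hk,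
        mul_nonneg (Nat.cast_nonneg (α := ℤ) k) (show 0 ≤ -e - 1 by omega)]
  · obtain ⟨i, j, e⟩ := meet hF hC (k • x) hk
    rw [path_tl hC hb, WP.path_tr hC, path_tl hC ha, ← src_trS] at e
    have := hC.uniq _ _ _ e (tl_mem hb i) (smul_mem_S.2 (tl_mem ha j))
    obtain rfl : b = a := congrArg (·.2.1) this
    refine ⟨rfl, ?_⟩
    rw [← mul_inv_eq_of_eq_mul (show F.c b ^ i = k * F.c b ^ j from congrArg Prod.fst this)]
    exact mul_mem (pow_mem (Subgroup.mem_zpowers _) _) (inv_mem (pow_mem (Subgroup.mem_zpowers _) _))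
  · obtain ⟨i, j, e⟩ := meet hF hC (k • F.o) hk
    rw [path_tl hC ha, trC_ch, path_fix (step_fix fun β h => noexit hF h)] at e
    exact noexit hF e (tl_mem ha i)

end Pool.Agent.Lib.FBC.X3
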