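import Pool.Agent.Lib.FBC.X3.AP
import Pool.Agent.Lib.FBC.X3.ASC
import Pool.Agent.Lib.FBC.X3.CURT
import Pool.Agent.Lib.FBC.X3.DB
import Pool.Agent.Lib.FBC.X3.DEV
import Pool.Agent.Lib.FBC.X3.ETAA
import Pool.Agent.Lib.FBC.X3.ETAV
import Pool.Agent.Lib.FBC.X3.EXC
import Pool.Agent.Lib.FBC.X3.KEYV
import Pool.Agent.Lib.FBC.X3.LANG
import Pool.Agent.Lib.FBC.X3.LONG
import Pool.Agent.Lib.FBC.X3.NEST
import Pool.Agent.Lib.FBC.X3.NSX
import Pool.Agent.Lib.FBC.X3.PPA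
import Pool.Agent.Lib.FBC.X3.ST
import Pool.Agent.Lib.FBC.X3.SV
import Pool.Agent.Lib.FBC.X3.THB
import Pool.Agent.Lib.FBC.X3.TR
import Pool.Agent.Lib.FBC.X3.TRAJ1
import Pool.Agent.Lib.FBC.X3.TRAJ2
import Pool.Agent.Lib.FBC.X3.VHT
import Pool.Agent.Lib.FBC.X3.WALL
import Pool.Agent.Lib.FBC.X3.WFG
import Pool.Agent.Lib.FBC.X3.WG
import Pool.Agent.Lib.FBC.X3.WP
import Pool.Agent.Lib.FBC.X1.FGV

/-!
Theorem A and virtual homological independence.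
-/

namespace Pool.Agent.Lib.FBC.X3

theorem st_holds : St_ST := stST stLANG stSV (stDEV stLANG (stAP stLANG))

theorem wall_holds : St_WALL := stWALL stNEST stWG stWP stWFG

theorem vht_holds : St_VHT :=
  stVHT stTRAJ1 (stWANT stSV) stLANG st_holds (stKEYV wall_holds (stETAV stEXC))

theorem tha_of (h : St_NS) : St_THA :=
  stTHA h (stTHB stTRAJ2 st_holds (stLONG stSV) (stNSX (stTR stSV)) (stDB stSV) wall_holds
    (stETAA stEXC stPPA)) (stASC stFGV) CURT.stCURT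

end Pool.Agent.Lib.FBC.X3
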