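import Pool.Agent.Lib.FBC.Defs

/-!
North-south dynamics: the interface between the parts X4 and X3.
-/

namespace Pool.Agent.Lib.FBC

open Forest

variable {G : Type} [Group G] {d d' : Dg G}

/-- a geodesic ray of darts at level `0` -/
structure Forest.DRay (Y : Forest d) (r : ℕ → Y.Dir) : Prop where
  nxt : ∀ k, (r k).tgt = (r (k + 1)).src
  ray : Y.Ray fun k => (r k).src
  lev : ∀ k, Y.lev (r k).src = 0

/-- North-south dynamics of `g` (of backward degree `n`): `r₀` is the ray to the attracting end of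
`g σ ^ n`, and `r true`, `r false` are the rays to the attracting ends of `g⁻¹ τ ^ n`. -/
structure NS (X : Pair d d') (g : G) (n : ℕ) (r₀ : ℕ → X.P.Dir) (r : Bool → ℕ → X.M.Dir) :
    Prop where
  rayP : X.P.DRay r₀
  rayM : ∀ i, X.M.DRay (r i)
  aP : ∀ N, ∃ j₀ : ℕ, ∀ j ≥ j₀, ∀ y, X.P.lev y = 0 → (∀ i, X.h'.f y ∉ (r i N).H) →
    g ^ j • X.s.σ^[j * n] y ∈ (r₀ N).H
  aM : ∀ N, ∃ j₀ : ℕ, ∀ j ≥ j₀, ∀ u, X.M.lev u = 0 → X.h.f u ∉ (r₀ N).H →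
    ∃ i, g⁻¹ ^ j • X.t.σ^[j * n] u ∈ (r i N).H
  invP : ∀ N, ∃ m, ∀ j : ℕ, ∀ y ∈ (r₀ m).H, g ^ j • X.s.σ^[j * n] y ∈ (r₀ N).H
  invM : ∀ N, ∃ m, ∀ (j : ℕ) i, ∀ u ∈ (r i m).H, g⁻¹ ^ j • X.t.σ^[j * n] u ∈ (r i N).H
  disj : ∃ N, Disjoint (r true N).H (r false N).H ∧ ∀ y ∈ (r₀ N).H, ∀ i, X.h'.f y ∉ (r i N).H
  legP : ∀ N L, ∃ p ≥ N, X.s.LegalP (r₀ p).src (r₀ (p + L)).src
  legM : ∀ i N L, ∃ p ≥ N, X.t.LegalP (r i p).src (r i (p + L)).src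

/-- T3: a generic periodic orbit of the backward flow that is not a periodic orbit of the forward
flow has north-south dynamics. -/
def St_NS : Prop := ∀ (G : Type) [Group G] (d d' : Dg G), FC d → ∀ X : Pair d d',
  X.s.NF → X.t.NF → ∀ (g : G) (e : X.M.Dir) (n : ℕ), X.t.Gen g e → X.M.lev e.src = 0 →
  dg d' g = n → (∀ k : ℕ, 0 < k → ¬ X.s.PP (g⁻¹ ^ k)) → ∃ r₀ r, NS X g n r₀ r

end Pool.Agent.Lib.FBC
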