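import Pool.Agent.Lib.FBC.EM

set_option linter.unusedSectionVars false

/-!
Abstract walls: Schottky families of subsets of a `G`-set, sheets and chambers.
-/

namespace Pool.Agent.Lib.FBC.X3

variable {G : Type} [Group G] {X : Type} [MulAction G X] {J : Type}

/-- `A` separates `x` and `y` -/
def Sp (A : Set X) (x y : X) : Prop := ¬ (x ∈ A ↔ y ∈ A)

/-- more cosets carry `(x, y)` into `A` than out of `A` -/
def Th (K : Subgroup G) (A : Set X) (x y : X) : Prop :=
  ∃ Φ Γ : Finset G, Φ.card < Γ.card ∧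
    (∀ γ : G, γ • x ∈ A → γ • y ∉ A → ∃ k ∈ K, k * γ ∈ Φ) ∧
    (∀ γ ∈ Γ, γ • x ∉ A ∧ γ • y ∈ A) ∧ ∀ γ ∈ Γ, ∀ γ' ∈ Γ, γ' * γ⁻¹ ∈ K → γ = γ'

/-- The data of a family of pieces `P a` with pairing elements `c a` and a base point. -/
structure Fam (G X J : Type) [Group G] where
  d : Dg G
  st : J → J
  c : J → G
  P : J → Set X
  o : X

namespace Fam

variable (F : Fam G X J)

/-- the pairing rules, and finiteness of coboundaries on one level -/
structure Ok (lev : X → ℤ) : Prop where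
  lev_smul : ∀ (g : G) x, lev (g • x) = dg F.d g + lev x
  st_st : ∀ a, F.st (F.st a) = a
  c_st : ∀ a, F.c (F.st a) = (F.c a)⁻¹
  deg : ∀ a, dg F.d (F.c a) ≠ 0
  flip : ∀ a x, F.c a • x ∈ F.P a ↔ x ∉ F.P (F.st a)
  base : ∀ a, F.o ∉ F.P a
  cf : ∀ a x y, {h : G | h ∈ F.d.ker ∧ Sp (F.P a) (h • x) (h • y)}.Finite

/-- up to the kernel, finitely many points see all positions relative to the pieces -/
def Win : Prop := ∃ Z : Finset X, ∀ x, ∃ h ∈ F.d.ker, ∃ z ∈ Z, ∀ h' ∈ F.d.ker, ∀ a,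
  (h' • x ∈ F.P a ↔ (h' * h) • z ∈ F.P a)

/-- restriction to a subgroup that contains the pairing elements -/
def res (H : Subgroup G) (hc : ∀ a, F.c a ∈ H) : Fam H X J :=
  ⟨F.d.comp H.subtype, F.st, fun a => ⟨F.c a, hc a⟩, F.P, F.o⟩

/-- the half-space of a sheet -/
def S (β : G × J × Bool) : Set X := {x | β.1⁻¹ • x ∈ F.P β.2.1 ↔ β.2.2 = false}

/-- the point in front of a sheet -/
def pt (β : G × J × Bool) : X := if β.2.2 then (β.1 * F.c β.2.1) • F.o else β.1 • F.o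

/-- the reversed sheet -/
def rev (β : G × J × Bool) : G × J × Bool := (β.1 * F.c β.2.1, F.st β.2.1, β.2.2)

/-- the chamber of a point at a level -/
def ch (p : X) (n : ℤ) : ℤ × Set (G × J × Bool) := (n, {β | dg F.d β.1 = n ∧ p ∈ F.S β})

/-- the chamber from which a sheet starts -/
def src (β : G × J × Bool) : ℤ × Set (G × J × Bool) := F.ch (F.pt β) (dg F.d β.1)

/-- two different partitions of one level face each other -/
def Nest : Prop := ∀ (g g' : G) (a a' : J), dg F.d g = dg F.d g' → (g, a) ≠ (g', a') →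
  ∃ ε ε', Disjoint (F.S (g, a, ε)) (F.S (g', a', ε')) ∧
    ∀ δ, F.pt (g', a', δ) ∉ F.S (g, a, ε) ∧ F.pt (g, a, δ) ∉ F.S (g', a', ε')

/-- chambers joined by a sheet -/
def Link (C C' : ℤ × Set (G × J × Bool)) : Prop := ∃ β, F.src β = C ∧ F.src (F.rev β) = C'

/-- the chambers of the wall -/
def InW (C : ℤ × Set (G × J × Bool)) : Prop := Relation.ReflTransGen F.Link (F.ch F.o 0) C

/-- points at the end of a staircase -/
def Tl (a : J) (x : X) : Prop := ∀ n : ℕ, (F.c a ^ n)⁻¹ • x ∈ F.P a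

/-- translation of sheets -/
def trS (g : G) (β : G × J × Bool) : G × J × Bool := (g * β.1, β.2)

/-- translation of chambers -/
def trC (g : G) (C : ℤ × Set (G × J × Bool)) : ℤ × Set (G × J × Bool) :=
  (dg F.d g + C.1, trS g⁻¹ ⁻¹' C.2)

variable {F} {lev : X → ℤ} {g h : G} {x y : X} {β β' : G × J × Bool}
  {C C' : ℤ × Set (G × J × Bool)}

@[simp] lemma trS_trS (g h : G) (β : G × J × Bool) : trS g (trS h β) = trS (g * h) β := by
  simp [trS, mul_assoc]

@[simp] lemma trS_one (β : G × J × Bool) : trS 1 β = β := by simp [trS]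

@[simp] lemma trS_fst (g : G) (β : G × J × Bool) : (trS g β).1 = g * β.1 := rfl

@[simp] lemma trS_snd (g : G) (β : G × J × Bool) : (trS g β).2 = β.2 := rfl

lemma eq_trS (e : β.2 = β'.2) : β' = trS (β'.1 * β.1⁻¹) β := Prod.ext (by simp) e.symm

@[simp] lemma smul_mem_S : g • x ∈ F.S (trS g β) ↔ x ∈ F.S β := by simp [S, trS, mul_smul]

lemma mem_S_trS : x ∈ F.S (trS g β) ↔ g⁻¹ • x ∈ F.S β := by
  rw [← smul_mem_S (g := g) (x := g⁻¹ • x), smul_inv_smul]

lemma mem_S_not {a : J} {ε : Bool} : x ∈ F.S (g, a, !ε) ↔ x ∉ F.S (g, a, ε) := by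
  cases ε <;> simp [S]

lemma pt_trS (g : G) (β : G × J × Bool) : F.pt (trS g β) = g • F.pt β := by
  unfold pt
  simp only [trS_snd, trS_fst]
  split_ifs <;> simp [mul_smul]

lemma rev_trS (g : G) (β : G × J × Bool) : F.rev (trS g β) = trS g (F.rev β) := by
  simp [rev, trS, mul_assoc]

@[simp] lemma ch_fst (p : X) (n : ℤ) : (F.ch p n).1 = n := rfl

@[simp] lemma src_fst (β : G × J × Bool) : (F.src β).1 = dg F.d β.1 := rfl

lemma ch_eq_iff {n : ℤ} :
    F.ch x n = F.ch y n ↔ ∀ β, dg F.d β.1 = n → (x ∈ F.S β ↔ y ∈ F.S β) := by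
  simp [ch, Set.ext_iff]

lemma trC_ch (g : G) (p : X) (n : ℤ) : F.trC g (F.ch p n) = F.ch (g • p) (dg F.d g + n) := by
  refine Prod.ext rfl (Set.ext fun β => ?_)
  simp only [trC, ch, Set.mem_preimage, Set.mem_ofPred_eq, trS_fst, dg_mul, dg_inv, mem_S_trS,
    inv_inv]
  constructor <;> rintro ⟨h1, h2⟩ <;> exact ⟨by omega, h2⟩

lemma src_trS (g : G) (β : G × J × Bool) : F.src (trS g β) = F.trC g (F.src β) := by
  simp [src, trC_ch, pt_trS]

@[simp] lemma trC_trC (g h : G) (C : ℤ × Set (G × J × Bool)) :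
    F.trC g (F.trC h C) = F.trC (g * h) C :=
  Prod.ext (by simp [trC, add_assoc]) (Set.ext fun β => by simp [trC])

@[simp] lemma trC_one (C : ℤ × Set (G × J × Bool)) : F.trC 1 C = C :=
  Prod.ext (by simp [trC]) (Set.ext fun β => by simp [trC])

lemma Link.tr (t : F.Link C C') (g : G) : F.Link (F.trC g C) (F.trC g C') := by
  obtain ⟨β, rfl, rfl⟩ := t
  exact ⟨trS g β, src_trS _ _, by rw [rev_trS, src_trS]⟩

lemma path_tr (t : Relation.ReflTransGen F.Link C C') (g : G) :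
    Relation.ReflTransGen F.Link (F.trC g C) (F.trC g C') := by
  induction t with
  | refl => exact .refl
  | tail _ e ih => exact ih.tail (e.tr g)

lemma Ok.rev_rev (hF : F.Ok lev) (β : G × J × Bool) : F.rev (F.rev β) = β := by
  simp [rev, hF.st_st, hF.c_st]

lemma Ok.mem_S_rev (hF : F.Ok lev) : x ∈ F.S (F.rev β) ↔ x ∉ F.S β := by
  have := hF.flip β.2.1 ((β.1 * F.c β.2.1)⁻¹ • x)
  simp only [mul_inv_rev, mul_smul, smul_inv_smul] at this
  simp only [S, rev, Set.mem_ofPred_eq, mul_inv_rev, mul_smul, this]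
  tauto

lemma Ok.pt_not_mem (hF : F.Ok lev) (β : G × J × Bool) : F.pt β ∉ F.S β := by
  obtain ⟨g, a, ε⟩ := β
  cases ε
  · simp [pt, S, hF.base]
  · simp [pt, S, mul_smul, hF.flip, hF.base]

lemma Ok.lev_rev_ne (hF : F.Ok lev) (β : G × J × Bool) : (F.src (F.rev β)).1 ≠ (F.src β).1 := by
  simpa [rev] using hF.deg β.2.1

lemma Ok.link_symm (hF : F.Ok lev) (t : F.Link C C') : F.Link C' C := by
  obtain ⟨β, rfl, rfl⟩ := t
  exact ⟨F.rev β, rfl, by rw [hF.rev_rev]⟩

lemma Ok.path_symm (hF : F.Ok lev) (t : Relation.ReflTransGen F.Link C C') :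
    Relation.ReflTransGen F.Link C' C := by
  induction t with
  | refl => exact .refl
  | tail _ e ih => exact .head (hF.link_symm e) ih

/-- the stabilizer of the wall -/
def Ok.K (hF : F.Ok lev) : Subgroup G where
  carrier := {k | F.InW (F.trC k (F.ch F.o 0))}
  one_mem' := by simpa [InW] using Relation.ReflTransGen.refl
  mul_mem' := fun {a b} ha hb => Relation.ReflTransGen.trans ha (by simpa using path_tr hb a)
  inv_mem' := fun {a} ha => by simpa [InW] using path_tr (hF.path_symm ha) a⁻¹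

lemma Ok.mem_K (hF : F.Ok lev) : g ∈ hF.K ↔ F.InW (F.trC g (F.ch F.o 0)) := Iff.rfl

lemma Ok.inW_tr (hF : F.Ok lev) (hg : g ∈ hF.K) (t : F.InW C) : F.InW (F.trC g C) :=
  Relation.ReflTransGen.trans hg (path_tr t g)

lemma Ok.mem_K_of (hF : F.Ok lev) (t : F.InW C) (t' : F.InW (F.trC g C)) : g ∈ hF.K :=
  Relation.ReflTransGen.trans t' (path_tr (hF.path_symm t) g)

lemma Ok.c_mem_K (hF : F.Ok lev) (a : J) : F.c a ∈ hF.K :=
  Relation.ReflTransGen.single ⟨(1, a, false), by simp [src, pt], by simp [src, pt, rev, trC_ch]⟩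

lemma Ok.res (hF : F.Ok lev) (H : Subgroup G) (hc : ∀ a, F.c a ∈ H) : (F.res H hc).Ok lev where
  lev_smul g x := hF.lev_smul g x
  st_st := hF.st_st
  c_st a := Subtype.ext (hF.c_st a)
  deg := hF.deg
  flip := hF.flip
  base := hF.base
  cf a x y := (hF.cf a x y).preimage (f := ((↑) : H → G)) Subtype.val_injective.injOn

end Fam

end Pool.Agent.Lib.FBC.X3
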