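import Pool.Agent.Lib.FBC.X3.Eta
import Pool.Agent.Lib.FBC.X3.NS
import Pool.Agent.Lib.FBC.X4.Ray
import Pool.Agent.Lib.FBC.X3.Wall0

/-!
Blueprint of the part X3: walls, Theorem A and virtual homological independence.
-/

namespace Pool.Agent.Lib.FBC.X3

open Pool.Agent.Lib.MP_288210_al (LERF)
open Forest Eta

/-! ### abstract walls -/

/-- chambers: exits are unique, exist, and finitely many sheets separate two points -/
structure Fam.Ch {G : Type} [Group G] {X : Type} [MulAction G X] {J : Type} (F : Fam G X J) :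
    Prop where
  uniq : ∀ β β' x, F.src β = F.src β' → x ∈ F.S β → x ∈ F.S β' → β = β'
  exit : ∀ p x n, F.ch x n = F.ch p n ∨ ∃ β, F.src β = F.ch p n ∧ x ∈ F.S β
  fin : ∀ p x n, {β | dg F.d β.1 = n ∧ Sp (F.S β) p x}.Finite

def St_WG : Prop := ∀ (G : Type) [Group G] (X : Type) [MulAction G X] (J : Type) [Finite J]
  (F : Fam G X J) (lev : X → ℤ), F.Ok lev → F.Nest → F.Ch

/-- LERF puts the family in nested position in a finite index subgroup -/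
def St_NEST : Prop := ∀ (G : Type) [Group G] (X : Type) [MulAction G X] (J : Type) [Finite J]
  (F : Fam G X J) (lev : X → ℤ), LERF G → F.d.ker.FG → F.Ok lev →
  (∀ a b, a ≠ b → Disjoint (F.P a) (F.P b)) → F.Win → ∀ (Z : Finset X) (B : Finset G),
  (∀ z ∈ Z, ∀ a, z ∉ F.P a) → (∀ b ∈ B, b ≠ 1 ∧ ∃ z, (∀ a, z ∉ F.P a) ∧ ∀ a, b • z ∉ F.P a) →
  ∃ (H : Subgroup G) (hc : ∀ a, F.c a ∈ H), H.FiniteIndex ∧ (F.res H hc).Nest ∧
    (∀ z ∈ Z, (F.res H hc).ch z 0 = (F.res H hc).ch F.o 0) ∧ ∀ b ∈ B, b ∉ H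

/-- the upper side of the wall -/
structure Fam.Up {G : Type} [Group G] {X : Type} [MulAction G X] {J : Type} {F : Fam G X J}
    {lev : X → ℤ} (hF : F.Ok lev) (A : Set X) : Prop where
  inv : ∀ k ∈ hF.K, ∀ x, k • x ∈ A ↔ x ∈ A
  sep : ∀ D : ℤ, (∀ a, |dg F.d (F.c a)| ≤ D) → ∀ x y, x ∈ A → y ∉ A →
    (∃ β, F.InW (F.src β) ∧ |dg F.d β.1 - lev x| ≤ D + |lev x - lev y| ∧ Sp (F.S β) x y) ∨
      ∃ n, lev y ≤ n ∧ n < lev x ∧ F.InW (F.ch x n) ∧ F.ch y n = F.ch x n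
  cen : ∀ x, F.ch x 0 = F.ch F.o 0 → (x ∈ A ↔ 0 < lev x)
  tail : ∀ a x, F.Tl a x → (x ∈ A ↔ dg F.d (F.c a) < 0)
  wand : ∀ k ∈ hF.K, ∀ a b x, F.Tl a x → F.Tl b (k • x) → a = b ∧ k ∈ Subgroup.zpowers (F.c a)
  mid : ∀ k ∈ hF.K, ∀ a, ¬ F.Tl a (k • F.o)

def St_WP : Prop := ∀ (G : Type) [Group G] (X : Type) [MulAction G X] (J : Type) [Finite J]
  (F : Fam G X J) (lev : X → ℤ) (hF : F.Ok lev), F.Ch → ∃ A, Fam.Up hF A

def St_WFG : Prop := ∀ (G : Type) [Group G] (X : Type) [MulAction G X] (J : Type) [Finite J]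
  (F : Fam G X J) (lev : X → ℤ) (hF : F.Ok lev), F.Ch → F.d.ker.FG → hF.K.FG

section

variable {G : Type} [Group G] {X : Type} [MulAction G X]

/-- a staircase: the pieces `N` and `c • Nᶜ` are disjoint and lie in the room `W`; `V` is a
wandering set at the end of the staircase -/
structure XSt (c : G) (N W V : Set X) : Prop where
  sub : N ⊆ W
  out : ∀ x, x ∉ W ∨ x ∈ N → c⁻¹ • x ∈ N
  tail : ∀ x ∈ V, ∀ k : ℕ, (c ^ (k + 1))⁻¹ • x ∉ N ∧ (c ^ (k + 1))⁻¹ • x ∉ V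

/-- finitely many staircases in disjoint rooms -/
structure Stairs (d : Dg G) (lev : X → ℤ) {I : Type} (c : I → G) (N W V : I → Set X) (o : X) :
    Prop where
  lev_smul : ∀ (g : G) x, lev (g • x) = dg d g + lev x
  deg : ∀ i, dg d (c i) ≠ 0
  st : ∀ i, XSt (c i) (N i) (W i) (V i)
  disj : ∀ i j, i ≠ j → Disjoint (W i) (W j)
  base : ∀ i, o ∉ W i
  cf : ∀ i x y, {h : G | h ∈ d.ker ∧ Sp (N i) (h • x) (h • y)}.Finite
  win : ∃ Z : Finset X, ∀ x, ∃ h ∈ d.ker, ∃ z ∈ Z, ∀ h' ∈ d.ker, ∀ i,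
    (h' • x ∈ N i ↔ (h' * h) • z ∈ N i) ∧
      ((c i)⁻¹ • h' • x ∈ N i ↔ (c i)⁻¹ • (h' * h) • z ∈ N i)

/-- a wall through the staircases -/
structure Wl (d : Dg G) {I : Type} (c : I → G) (V : I → Set X) (o : X) (K : Subgroup G)
    (A : Set X) : Prop where
  fg : K.FG
  ai : AI K A
  tail : ∀ i, ∀ x ∈ V i, (x ∈ A ↔ dg d (c i) < 0)
  wand : ∀ k ∈ K, ∀ i j, ∀ x ∈ V i, k • x ∈ V j → k = 1
  mid : ∀ k ∈ K, ∀ i, k • o ∉ V i

end

def St_WALL : Prop := ∀ (G : Type) [Group G] (X : Type) [MulAction G X] (I : Type) [Finite I]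
  (d : Dg G) (lev : X → ℤ) (c : I → G) (N W V : I → Set X) (o x₀ y₀ : X), LERF G → d.ker.FG →
  Stairs d lev c N W V o → ∃ K A, Wl d c V o K A ∧
    (lev x₀ = 0 → 0 < lev y₀ → {γ : G | γ ∈ d.ker ∧ ∀ i, γ • x₀ ∉ W i}.Infinite → Th K A x₀ y₀)

/-- LERF: for finitely many test pairs only `Q`-translates of the wall matter -/
def St_EXC : Prop := ∀ (G : Type) [Group G] (X : Type) [MulAction G X] (K Q : Subgroup G)
  (A : Set X) (T : Finset (X × X)), LERF G → K ≤ Q → Q.FG → AI K A →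
  ∃ H : Subgroup G, H.FiniteIndex ∧ Q ≤ H ∧ ∀ p ∈ T,
    (∀ γ ∈ H, Sp A (γ • p.1) (γ • p.2) → γ ∈ Q) ∧
    ∀ γ γ' : G, Sp A (γ • p.1) (γ • p.2) → Sp A (γ' • p.1) (γ' • p.2) → γ' * γ⁻¹ ∈ H →
      γ' * γ⁻¹ ∈ Q

/-- ping-pong of the wall group with a loxodromic element -/
def St_PPA : Prop := ∀ (G : Type) [Group G] (X : Type) [MulAction G X] (K : Subgroup G) (s : G)
  (Dm Dp : Set X), (∀ x, x ∉ Dm ↔ s • x ∈ Dp) → Disjoint Dm Dp →
  (∀ k ∈ K, ∀ x, x ∈ Dm ∪ Dp → k • x ∈ Dm ∪ Dp → k = 1) →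
  ∀ q ∈ K ⊔ Subgroup.zpowers s, ∀ x : X, (∀ k ∈ K, k • x ∉ Dm ∪ Dp) →
    (q ∈ K ∨ ∃ k ∈ K, (k * q) • x ∈ Dm ∪ Dp) ∧
    (q ∈ K ∨ q * s ∈ K ∨ ∃ k ∈ K, ((k * q) • x ∈ Dm ∧ (k * q * s) • x ∈ Dm) ∨
      ((k * q) • x ∈ Dp ∧ (k * q * s) • x ∈ Dp))

/-- a class that is `1` on `s` and grows by at most one along the relation `R` -/
def St_ETAA : Prop := ∀ (G : Type) [Group G] (X : Type) [MulAction G X] (K : Subgroup G)
  (A : Set X) (s : G) (Dm Dp : Set X) (o : X) (R : X → X → Prop) (T : Finset (X × X)),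
  LERF G → K.FG → AI K A →
  (∀ x, x ∉ Dm ↔ s • x ∈ Dp) → (∀ x ∈ Dm, x ∉ A) → Dp ⊆ A →
  (∀ k ∈ K, ∀ x, x ∈ Dm ∪ Dp → k • x ∈ Dm ∪ Dp → k = 1) → (∀ k ∈ K, k • o ∉ Dm ∪ Dp) →
  (∀ (g : G) x y, R x y → R (g • x) (g • y)) → (∀ x y, R x y → ∃ g : G, (g • x, g • y) ∈ T) →
  (∀ x y, R x y → y ∈ Dp → x ∈ A) →
  ∃ (H : Subgroup G) (η : Dg H) (hs : s ∈ H) (Ψ : X → ℤ), H.FiniteIndex ∧ dg η ⟨s, hs⟩ = 1 ∧
    (∀ (h : H) x, Ψ ((h : G) • x) = dg η h + Ψ x) ∧ ∀ x y, R x y → Ψ y ≤ Ψ x + 1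

/-- a class that vanishes on a power of `t` but not on a conjugate -/
def St_ETAV : Prop := ∀ (G : Type) [Group G] (X : Type) [MulAction G X] (d : Dg G)
  (K : Subgroup G) (A : Set X) (t : G) (B : Set X) (x₀ : X),
  LERF G → K.FG → AI K A →
  (∀ g, dg d t ∣ dg d g) → B.Nonempty → (∀ j : ℤ, j ≠ 0 → ∀ x ∈ B, t ^ j • x ∉ B) →
  (∀ x ∈ A, x ∈ B) → (∀ k ∈ K, ∀ x, x ∉ B → k • x ∉ B → k = 1) → Th K A x₀ (t • x₀) →
  VHT d {g | ∃ x : X, g • x = x} t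

/-- one staircase that points out of a wandering set -/
def St_KEYV : Prop := ∀ (G : Type) [Group G] (X : Type) [MulAction G X] (d : Dg G)
  (lev : X → ℤ) (c t : G) (N W V B : Set X) (x₀ : X), LERF G → d.ker.FG →
  Stairs d lev (fun _ : Unit => c) (fun _ => N) (fun _ => W) (fun _ => V) x₀ →
  0 < dg d c → 0 < dg d t → dg d t ∣ dg d c → lev x₀ = 0 →
  {γ : G | γ ∈ d.ker ∧ γ • x₀ ∉ W}.Infinite → B.Nonempty →
  (∀ j : ℤ, j ≠ 0 → ∀ x ∈ B, t ^ j • x ∉ B) → (∀ x, x ∉ B → x ∈ V) →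
  VHT d {g | ∃ x : X, g • x = x} t

/-! ### forests -/

section

variable {G : Type} [Group G] {d d' : Dg G} {Y : Forest d}

/-- a ray of darts at level `0` with long legal segments far out -/
structure LRay (s : Flow Y) (r : ℕ → Y.Dir) : Prop where
  ray : FBC.DRay r
  lev : ∀ k, Y.lev (r k).src = 0
  leg : ∀ N L, ∃ p ≥ N, s.LegalP (r p).src (r (p + L)).src

lemma dray_of {r : ℕ → Y.Dir} (h : Y.DRay r) : FBC.DRay r :=
  ⟨h.nxt, fun k => H_subset (h.nxt k ▸ tgt_mem_H _) (mem_rv_H_iff_btw.2 (by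
    rw [h.nxt]; exact h.ray.2 k (k + 1) (k + 1 + 1) (by omega) (by omega)))⟩

lemma lrayP {X : Pair d d'} {g n r₀ r} (h : NS X g n r₀ r) : LRay X.s r₀ :=
  ⟨dray_of h.rayP, h.rayP.lev, h.legP⟩

lemma lrayM {X : Pair d d'} {g n r₀ r} (h : NS X g n r₀ r) (i : Bool) : LRay X.t (r i) :=
  ⟨dray_of (h.rayM i), (h.rayM i).lev, h.legM i⟩

/-- pseudo-orbit of length `m` -/
def PO (s : Flow Y) (D m : ℕ) (z : ℕ → Y.V) : Prop :=
  ∀ k < m, Y.lev (z (k + 1)) = Y.lev (z k) + 1 ∧ Y.dist (s.σ (z k)) (z (k + 1)) ≤ D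

/-- an equivariant choice of a bi-infinite pseudo-orbit for every point of `X` -/
structure Traj (s : Flow Y) {X : Type} [MulAction G X] (D : ℕ) (π : ℤ → X → Y.V) : Prop where
  lev : ∀ k x, Y.lev (π k x) = k
  smul : ∀ (g : G) k x, π (dg d g + k) (g • x) = g • π k x
  po : ∀ k x, Y.dist (s.σ (π k x)) (π (k + 1) x) ≤ D

/-- trajectories of vertices follow the flow upwards -/
def TrueUp (s : Flow Y) (π : ℤ → Y.V → Y.V) : Prop :=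
  ∀ x (n : ℕ), π (Y.lev x + n) x = s.σ^[n] x

/-- in a bounded window of levels there are finitely many trajectories up to the kernel -/
def WinT (d : Dg G) {X T : Type} [MulAction G X] (π : ℤ → X → T) : Prop :=
  ∀ L : ℕ, ∃ Z : Finset X, ∀ x, ∃ h ∈ d.ker, ∃ z ∈ Z, ∀ k : ℤ, |k| ≤ L → π k x = π k (h • z)

/-- `[x, y]` is an oriented subsegment of `[a, b]` -/
def Seg (Y : Forest d) (a b x y : Y.V) : Prop := Y.btw a x b ∧ Y.btw x y b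

/-- language words: subsegments of images of edges -/
def Lang (s : Flow Y) (x y : Y.V) : Prop :=
  ∃ (m : ℕ) (e : Y.Dir), Seg Y (s.σ^[m] e.src) (s.σ^[m] e.tgt) x y

/-- calculus of language words -/
structure LangAPI (s : Flow Y) : Prop where
  legal : ∀ x y, Lang s x y → s.LegalP x y
  symm : ∀ x y, Lang s x y → Lang s y x
  sub : ∀ a b x y, Lang s a b → Seg Y a b x y → Lang s x y
  smul : ∀ (g : G) x y, Lang s x y → Lang s (g • x) (g • y)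
  iter : ∀ (n : ℕ) x y, Lang s x y → Lang s (s.σ^[n] x) (s.σ^[n] y)
  ext : ∀ x y, Lang s x y → ∀ β, ∃ a b, Lang s a b ∧ Seg Y a b x y ∧ β ≤ Y.dist a x ∧
    β ≤ Y.dist y b
  recur : ∀ x y e, Lang s x y → Y.Cross x y e → ∃ (L : ℕ) (c : G), 0 < L ∧ dg d c = L ∧
    Seg Y (s.σ^[L] e.src) (s.σ^[L] e.tgt) (c • x) (c • y)
  twice : ∀ x y, Lang s x y → x ≠ y → ∃ u ∈ d.ker, ∃ b, Lang s x b ∧ Y.btw x y b ∧
    Seg Y y b (u • x) (u • y)
  block : ∀ m : ℕ, ∃ μ : ℕ, ∀ x y e, Lang s x y → Y.Cross x y e → μ ≤ Y.dist x e.src →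
    μ ≤ Y.dist e.tgt y → ∃ ε, s.Desc m ε e ∧ Seg Y x y (s.σ^[m] ε.src) (s.σ^[m] ε.tgt) ∧
      Y.dist (s.σ^[m] ε.src) (s.σ^[m] ε.tgt) ≤ μ
  half : ∀ (e : Y.Dir) x, Y.lev x = Y.lev e.src → {γ : G | γ ∈ d.ker ∧ γ • x ∈ e.H}.Infinite

/-- the forward trajectory of a vertex in a pair of systems -/
noncomputable def up (X : Pair d d') (k : ℤ) (x : X.P.V) : X.P.V :=
  if X.P.lev x ≤ k then X.s.σ^[(k - X.P.lev x).toNat] x
  else X.h.f (X.t.σ^[(X.P.lev x - k).toNat] (X.h'.f x))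

/-- the point at level `0` of the backward trajectory -/
noncomputable def dn (X : Pair d d') (x : X.P.V) : X.M.V :=
  if 0 ≤ X.P.lev x then X.t.σ^[(X.P.lev x).toNat] (X.h'.f x)
  else X.h'.f (X.s.σ^[(- X.P.lev x).toNat] x)

end

def St_LANG : Prop := ∀ (G : Type) [Group G] (d : Dg G), Function.Surjective d →
  ∀ (Y : Forest d) (s : Flow Y), s.TT → LangAPI s

/-- survival of legal segments along pseudo-orbits -/
def St_SV : Prop := ∀ (G : Type) [Group G] (d : Dg G), Function.Surjective d →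
  ∀ (Y : Forest d) (s : Flow Y), s.TT → ∀ D : ℕ, ∃ E : ℕ, ∀ o p q (m : ℕ) z, s.LegalP o q →
  Y.btw o p q → E ≤ Y.dist p q → Y.btw o q (z 0) → PO s D m z →
  Y.btw (s.σ^[m] o) (s.σ^[m] p) (z m)

/-- pseudo-orbits that end close to each other do not start across a long legal segment -/
def St_TR : Prop := ∀ (G : Type) [Group G] (d : Dg G), Function.Surjective d →
  ∀ (Y : Forest d) (s : Flow Y), s.TT → ∀ r, LRay s r → ∀ D C N : ℕ, ∃ N' : ℕ,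
  ∀ (m : ℕ) z z', PO s D m z → PO s D m z' → Y.lev (z' 0) = 0 → Y.dist (z m) (z' m) ≤ C →
  z 0 ∈ (r N').H → z' 0 ∈ (r N).H

/-- every language word has two diverging extensions -/
def St_AP : Prop := ∀ (G : Type) [Group G] (d : Dg G), FC d → ∀ (Y : Forest d) (s : Flow Y),
  s.TT → ∀ x y, Lang s x y → x ≠ y → ∃ u v, Lang s x u ∧ Lang s x v ∧ Y.btw x y u ∧
    Y.btw x y v ∧ ¬ Y.btw x u v ∧ ¬ Y.btw x v u

/-- a language word through a block that leaves a given long segment on both sides -/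
def St_DEV : Prop := ∀ (G : Type) [Group G] (d : Dg G), FC d → ∀ (Y : Forest d) (s : Flow Y),
  s.TT → ∀ m : ℕ, ∃ β : ℕ, ∀ a b p q (ε : Y.Dir), p = s.σ^[m] ε.src → q = s.σ^[m] ε.tgt →
  Seg Y a b p q → β ≤ Y.dist a p → β ≤ Y.dist q b → ∃ x y e₁ e₄, Lang s x y ∧ Seg Y x y p q ∧
    Y.Cross a p e₁ ∧ x ∈ e₁.H ∧ ¬ Y.btw a x b ∧ Y.Cross q b e₄ ∧ y ∉ e₄.H ∧ ¬ Y.btw a y b

/-- every long language word carries a staircase -/
def St_ST : Prop := ∀ (G : Type) [Group G] (d : Dg G), FC d → ∀ (Y : Forest d) (s : Flow Y),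
  s.TT → ∀ (X : Type) [MulAction G X] (D : ℕ) (π : ℤ → X → Y.V), Traj s D π →
  ∃ β : ℕ, ∀ a b, Y.lev a = 0 → Lang s a b → β ≤ Y.dist a b →
  ∃ (c : G) (e₁ e₄ ν : Y.Dir), 0 < dg d c ∧ Y.Cross a b e₁ ∧ Y.Cross a b e₄ ∧
    XSt c {x | π 0 x ∈ ν.H} {x | π 0 x ∈ e₁.H} {x | π 0 x ∈ e₄.H}

/-- an attracting ray with long legal segments contains long language words -/
def St_LONG : Prop := ∀ (G : Type) [Group G] (d : Dg G), Function.Surjective d →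
  ∀ (Y : Forest d) (s : Flow Y), s.TT → ∀ r, LRay s r → ∀ (g : G) (n : ℕ), 0 < n →
  (∀ N, ∃ m, ∀ j : ℕ, ∀ y ∈ (r m).H, g ^ j • s.σ^[j * n] y ∈ (r N).H) →
  ∀ N β, ∃ i ≥ N, Lang s (r i).src (r (i + β)).src

def St_TRAJ1 : Prop := ∀ (G : Type) [Group G] (d : Dg G), Function.Surjective d →
  ∀ (Y : Forest d) (s : Flow Y), Nonempty Y.I →
  ∃ (D : ℕ) (π : ℤ → Y.V → Y.V), Traj s D π ∧ TrueUp s π ∧ WinT d π

def St_TRAJ2 : Prop := ∀ (G : Type) [Group G] (d d' : Dg G), Function.Surjective d →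
  ∀ X : Pair d d', Nonempty X.P.I → Nonempty X.M.I →
  ∃ (Z : Type) (_ : MulAction G Z) (nl : Z → ℤ) (j : X.P.V → Z) (D : ℕ) (πP : ℤ → Z → X.P.V)
    (πM : ℤ → Z → X.M.V), (∀ (g : G) z, nl (g • z) = dg d g + nl z) ∧
    (∀ (g : G) x, j (g • x) = g • j x) ∧ Traj X.s D πP ∧ Traj X.t D πM ∧
    WinT d (fun k z => (πP k z, πM k z)) ∧
    (∀ z, πM 0 z = X.h'.f (πP 0 z) ∨ πP 0 z = X.h.f (πM 0 z)) ∧
    (∀ k x, πP k (j x) = up X k x) ∧ ∀ x, πM 0 (j x) = dn X x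

/-- north-south dynamics for broken trajectories of adjacent vertices -/
def St_NSX : Prop := ∀ (G : Type) [Group G] (d d' : Dg G), Function.Surjective d →
  ∀ X : Pair d d', X.s.TT → X.t.TT → ∀ (g : G) (n : ℕ) r₀ r, 0 < n → dg d' g = n →
  NS X g n r₀ r → ∀ N, ∃ j₀ : ℕ, ∀ j ≥ j₀, ∀ x y, x = y ∨ Adj x y →
    (∃ i, dn X x ∈ (r i N).H) ∨ up X 0 (g ^ j • y) ∈ (r₀ N).H

/-- a half-space that is convex for descendants, between two half-trees of a ray -/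
def St_DB : Prop := ∀ (G : Type) [Group G] (d : Dg G), Function.Surjective d →
  ∀ (Y : Forest d) (s : Flow Y), s.TT → ∀ (D : ℕ) π, Traj s D π → TrueUp s π →
  ∀ r, LRay s r → ∀ N, ∃ (N' : ℕ) (B : Set Y.V),
    (∀ x, π 0 x ∈ (r N').H → x ∈ B) ∧ (∀ x ∈ B, π 0 x ∈ (r N).H) ∧
    ∀ (m : ℕ) e e', s.Desc m e e' → e.src ∈ B → e.tgt ∈ B → e'.src ∈ B

/-- a wandering half-space -/
def St_WANT : Prop := ∀ (G : Type) [Group G] (d : Dg G), FC d → ∀ (Y : Forest d) (s : Flow Y),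
  s.TT → ∀ (D : ℕ) π, Traj s D π → TrueUp s π → ∀ t : G, 0 < dg d t →
  ∃ w : Y.Dir, Y.lev w.src = 0 ∧ ∀ j : ℤ, j ≠ 0 → ∀ x, π 0 x ∈ w.H → π 0 (t ^ j • x) ∉ w.H

/-- the class dual to the wall across the orbit of `g` -/
def Dual {G : Type} [Group G] {d d' : Dg G} (X : Pair d d') (g : G) (n : ℕ) : Prop :=
  ∃ (M : ℕ) (H : Subgroup G) (η : Dg H) (hs : g ^ M ∈ H), H.FiniteIndex ∧
    dg η ⟨g ^ M, hs⟩ = -1 ∧ (∀ z : H, (z : G) ∈ X.P.Ell → η z = 1) ∧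
    ∀ (z : H) (m : ℕ) (e : X.P.Dir), 0 < m → X.s.Desc m e (e.tr z) →
      ((M * n : ℕ) : ℤ) * dg η z < dg d z

def St_THB : Prop := ∀ (G : Type) [Group G] (d d' : Dg G), FC d → ∀ X : Pair d d',
  X.s.TT → X.t.TT → ∀ (g : G) (n : ℕ) r₀ r, 0 < n → dg d' g = n → NS X g n r₀ r → Dual X g n

end Pool.Agent.Lib.FBC.X3
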