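import Pool.Agent.Lib.FBC.Defs

/-!
The homomorphism that counts the translates of an almost invariant set, and its transfer.
-/

namespace Pool.Agent.Lib.FBC.Eta

variable {G : Type} [Group G] {V : Type} [MulAction G V] (K : Subgroup G) (A : Set V)

/-- right cosets -/
abbrev RC : Type := Quotient (QuotientGroup.rightRel K)

/-- the right coset of an element -/
def rc (g : G) : RC K := Quotient.mk _ g

variable {K}

lemma rc_eq {g g' : G} : rc K g = rc K g' ↔ g' * g⁻¹ ∈ K :=
  Quotient.eq.trans QuotientGroup.rightRel_apply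

lemma rc_out (c : RC K) : rc K c.out = c := Quotient.out_eq c

lemma out_rc (g : G) : ∃ k ∈ K, (rc K g).out = k * g :=
  ⟨_, rc_eq.1 (rc_out (rc K g)).symm, by simp⟩

/-- right multiplication of right cosets -/
noncomputable def sh (z : G) : RC K ≃ RC K where
  toFun c := rc K (c.out * z)
  invFun c := rc K (c.out * z⁻¹)
  left_inv c := by
    obtain ⟨k, hk, e⟩ := out_rc (K := K) (c.out * z)
    rw [← rc_out c, rc_eq]; simpa [rc_out, e, mul_assoc] using hk
  right_inv c := by
    obtain ⟨k, hk, e⟩ := out_rc (K := K) (c.out * z⁻¹)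
    rw [← rc_out c, rc_eq]; simpa [rc_out, e, mul_assoc] using hk

lemma sh_out (z : G) (c : RC K) : ∃ k ∈ K, (sh z c).out = k * (c.out * z) := out_rc _

open Classical in
/-- the jump of the indicator function of `A` between `g x` and `g y` -/
noncomputable def jump (x y : V) (g : G) : ℤ :=
  (if g • y ∈ A then 1 else 0) - if g • x ∈ A then 1 else 0

variable (K) in
open Classical in
/-- the sum of the jumps over the right cosets of `K` with a representative in `S` -/
noncomputable def Phi (S : Set G) (x y : V) : ℤ :=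
  ∑ᶠ c : RC K, if c.out ∈ S then jump A x y c.out else 0

variable {A}

lemma jump_add (x y z : V) (g : G) : jump A x y g + jump A y z g = jump A x z g := by
  simp [jump]

lemma jump_mul (x y : V) (g h : G) : jump A (h • x) (h • y) g = jump A x y (g * h) := by
  unfold jump
  rw [mul_smul, mul_smul]

variable (K A) in
/-- `A` is invariant under `K`, and only finitely many cosets separate two points -/
structure AI : Prop where
  inv : ∀ k ∈ K, ∀ a ∈ A, k • a ∈ A
  fin : ∀ x y : V, ∃ T : Set G, T.Finite ∧ ∀ g : G, g • x ∉ A → g • y ∈ A → ∃ k ∈ K, k * g ∈ T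

lemma AI.iff (h : AI K A) {k : G} (hk : k ∈ K) (a : V) : k • a ∈ A ↔ a ∈ A :=
  ⟨fun e => by simpa using h.inv _ (K.inv_mem hk) _ e, h.inv k hk a⟩

lemma AI.jump_left (h : AI K A) {k : G} (hk : k ∈ K) (x y : V) (g : G) :
    jump A x y (k * g) = jump A x y g := by
  unfold jump
  rw [mul_smul, mul_smul, h.iff hk, h.iff hk]

lemma AI.finite_pos (h : AI K A) (x y : V) :
    {c : RC K | c.out • x ∉ A ∧ c.out • y ∈ A}.Finite := by
  obtain ⟨T, hT, e⟩ := h.fin x y
  refine (hT.image (rc K)).subset fun c hc => ?_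
  obtain ⟨k, hk, e⟩ := e _ hc.1 hc.2
  exact ⟨_, e, by rw [← rc_out c, rc_eq]; simpa [rc_out] using hk⟩

open Classical in
lemma AI.supp (h : AI K A) (S : Set G) (x y : V) :
    (fun c : RC K => if c.out ∈ S then jump A x y c.out else 0).HasFiniteSupport := by
  refine ((h.finite_pos x y).union (h.finite_pos y x)).subset fun c hc => ?_
  by_cases h1 : c.out • x ∈ A <;> by_cases h2 : c.out • y ∈ A <;> simp_all [jump]

lemma Phi_self (S : Set G) (x : V) : Phi K A S x x = 0 := by simp [Phi, jump]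

lemma AI.add (h : AI K A) (S : Set G) (x y z : V) :
    Phi K A S x y + Phi K A S y z = Phi K A S x z := by
  unfold Phi
  rw [← finsum_add_distrib (h.supp S x y) (h.supp S y z)]
  refine finsum_congr fun c => ?_
  split_ifs
  exacts [jump_add _ _ _ _, rfl]

lemma AI.neg (h : AI K A) (S : Set G) (x y : V) : Phi K A S y x = - Phi K A S x y := by
  have := h.add S x y x
  rw [Phi_self] at this
  omega

/-- translation of the two points is translation of the set of cosets -/
lemma AI.shift (h : AI K A) {S S' : Set G} (hS : ∀ k ∈ K, ∀ g, k * g ∈ S' ↔ g ∈ S') (z : G)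
    (e : ∀ g, g * z ∈ S' ↔ g ∈ S) (x y : V) : Phi K A S (z • x) (z • y) = Phi K A S' x y := by
  unfold Phi
  refine (finsum_congr fun c => ?_).trans (finsum_comp_equiv (sh (K := K) z))
  obtain ⟨k, hk, e'⟩ := sh_out z c
  rw [e', h.jump_left hk, jump_mul]
  classical
  exact if_congr ((e _).symm.trans (hS k hk _).symm) rfl rfl

lemma AI.smul (h : AI K A) {L : Subgroup G} (hl : K ≤ L) {z : G} (hz : z ∈ L) (x y : V) :
    Phi K A L (z • x) (z • y) = Phi K A L x y :=
  h.shift (fun _ hk _ => L.mul_mem_cancel_left (hl hk)) z (fun _ => L.mul_mem_cancel_right hz) x y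

/-- Lower bound: `P` are inequivalent elements with jump `1`, and `T` meets every coset with jump
`-1`.  Exchanging `x` and `y` gives the upper bound. -/
lemma AI.le (h : AI K A) {S : Set G} (hS : ∀ k ∈ K, ∀ g, k * g ∈ S ↔ g ∈ S) (x y : V)
    (P T : Finset G) (hP : ∀ g ∈ P, g ∈ S ∧ g • x ∉ A ∧ g • y ∈ A)
    (hP' : ∀ g ∈ P, ∀ g' ∈ P, g' * g⁻¹ ∈ K → g = g')
    (hT : ∀ g ∈ S, g • x ∈ A → g • y ∉ A → ∃ k ∈ K, k * g ∈ T) :
    (P.card : ℤ) - T.card ≤ Phi K A S x y := by
  classical
  set F : Finset (RC K) := (h.supp S x y).toFinset ∪ (P.image (rc K) ∪ T.image (rc K))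
  have e1 : Phi K A S x y = ∑ c ∈ F, if c.out ∈ S then jump A x y c.out else 0 :=
    finsum_eq_sum_of_support_subset _ fun c hc => by
      simpa [F] using Or.inl (by simpa using hc)
  have e2 : ∀ X : Finset (RC K), X ⊆ F → ∑ c ∈ F, (if c ∈ X then (1 : ℤ) else 0) = X.card :=
    fun X hX => by simp [Finset.inter_eq_right.2 hX]
  have e3 : (P.image (rc K)).card = P.card :=
    Finset.card_image_of_injOn fun g hg g' hg' e => hP' g hg g' hg' (rc_eq.1 e)
  have e4 : ((T.image (rc K)).card : ℤ) ≤ T.card := by exact_mod_cast Finset.card_image_le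
  have e5 : ∑ c ∈ F, ((if c ∈ P.image (rc K) then (1 : ℤ) else 0) -
      if c ∈ T.image (rc K) then 1 else 0) ≤ Phi K A S x y := by
    rw [e1]
    refine Finset.sum_le_sum fun c _ => ?_
    by_cases c1 : c ∈ P.image (rc K)
    · obtain ⟨g, hg, rfl⟩ := Finset.mem_image.1 c1
      obtain ⟨k, hk, e⟩ := out_rc (K := K) g
      obtain ⟨a1, a2, a3⟩ := hP g hg
      rw [e, if_pos c1, if_pos ((hS k hk g).2 a1), h.jump_left hk, jump, if_pos a3, if_neg a2]
      split_ifs <;> omega
    · rw [if_neg c1]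
      by_cases c2 : c ∈ T.image (rc K)
      · rw [if_pos c2, jump]; split_ifs <;> omega
      · rw [if_neg c2, jump]
        split_ifs with a1 a2 a3 a3 <;> try omega
        obtain ⟨k, hk, e⟩ := hT _ a1 a3 a2
        exact (c2 (Finset.mem_image.2 ⟨_, e, by
          rw [← rc_out c, rc_eq]; simpa [rc_out] using hk⟩)).elim
  rw [Finset.sum_sub_distrib, e2 _ (Finset.subset_union_left.trans Finset.subset_union_right),
    e2 _ (Finset.subset_union_right.trans Finset.subset_union_right), e3] at e5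
  omega

/-- ETA: the counting homomorphism of a subgroup `L ≥ K` -/
noncomputable def AI.eta (h : AI K A) {L : Subgroup G} (hl : K ≤ L) (o : V) : Dg L :=
  MonoidHom.mk' (fun z => .ofAdd (Phi K A L o ((z : G) • o))) fun z w => by
    rw [← ofAdd_add, ← h.smul hl z.2 o ((w : G) • o), h.add, Subgroup.coe_mul, mul_smul]

lemma AI.dg_eta (h : AI K A) {L : Subgroup G} (hl : K ≤ L) (o x : V) (z : L) :
    dg (h.eta hl o) z = Phi K A L x ((z : G) • x) := by
  show Phi K A L o _ = _
  rw [← h.add L x o, ← h.add L o ((z : G) • o) ((z : G) • x), h.smul hl z.2, h.neg L o x]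
  ring

lemma AI.eta_fix (h : AI K A) {L : Subgroup G} (hl : K ≤ L) (o : V) {z : L} {x : V}
    (e : (z : G) • x = x) : h.eta hl o z = 1 := by
  have := h.dg_eta hl o x z
  rwa [e, Phi_self] at this

/-- the potential of the counting homomorphism -/
lemma AI.ht (h : AI K A) {L : Subgroup G} (hl : K ≤ L) (o : V) (z : L) (x : V) :
    Phi K A L o (z • x) = dg (h.eta hl o) z + Phi K A L o x := by
  rw [h.dg_eta hl o x, add_comm, h.add]; rfl

/-- Transfer: the count over `L'` is the sum of the counts over `L`, for a system `R` of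
representatives of the right cosets of `L` in `L'`. -/
lemma AI.transfer (h : AI K A) {L : Subgroup G} (hl : K ≤ L) {L' : Set G} (R : Finset G)
    (h1 : ∀ g, g ∈ L' ↔ ∃ r ∈ R, g * r⁻¹ ∈ L) (h2 : ∀ r ∈ R, ∀ r' ∈ R, r' * r⁻¹ ∈ L → r = r')
    (x y : V) : Phi K A L' x y = ∑ r ∈ R, Phi K A L (r • x) (r • y) := by
  classical
  have e1 : ∀ r, Phi K A L (r • x) (r • y) = Phi K A {g | g * r⁻¹ ∈ L} x y := fun r =>
    h.shift (fun k hk g => by
      simp only [Set.mem_ofPred_eq, mul_assoc, L.mul_mem_cancel_left (hl hk)]) r (by simp) x y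
  simp only [e1]
  unfold Phi
  rw [← finsum_sum_comm _ _ fun r _ => h.supp _ x y]
  refine finsum_congr fun c => ?_
  by_cases hc : c.out ∈ L'
  · obtain ⟨r, hr, e⟩ := (h1 _).1 hc
    rw [if_pos hc, Finset.sum_eq_single_of_mem r hr]
    · exact (if_pos e).symm
    · exact fun r' hr' ne => if_neg fun e' => ne (h2 r' hr' r hr (by
        simpa using L.mul_mem (L.inv_mem e) e'))
  · rw [if_neg hc]
    exact (Finset.sum_eq_zero fun r hr => if_neg fun e => hc ((h1 _).2 ⟨r, hr, e⟩)).symm

/-- Almost invariance has to be checked only along a connected relation. -/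
lemma ai_of_rel (inv : ∀ k ∈ K, ∀ a ∈ A, k • a ∈ A) (R : V → V → Prop)
    (conn : ∀ x y, Relation.ReflTransGen R x y)
    (fin : ∀ x y, R x y → ∃ T : Set G, T.Finite ∧
      ∀ g : G, g • x ∉ A → g • y ∈ A → ∃ k ∈ K, k * g ∈ T) : AI K A := by
  refine ⟨inv, fun x y => ?_⟩
  induction conn x y with
  | refl => exact ⟨∅, Set.finite_empty, fun g h1 h2 => (h1 h2).elim⟩
  | @tail y z _ e ih =>
    obtain ⟨T, hT, h⟩ := ih
    obtain ⟨T', hT', h'⟩ := fin _ _ e
    refine ⟨T ∪ T', hT.union hT', fun g h1 h2 => ?_⟩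
    by_cases h3 : g • y ∈ A
    · exact let ⟨k, a, b⟩ := h g h1 h3; ⟨k, a, .inl b⟩
    · exact let ⟨k, a, b⟩ := h' g h3 h2; ⟨k, a, .inr b⟩

end Pool.Agent.Lib.FBC.Eta
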