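import Pool.Agent.Lib.FBC.X3.Blue

/-!
Ping-pong of the wall group with a loxodromic element.
-/

namespace Pool.Agent.Lib.FBC.X3

section

variable {G : Type} [Group G] {X : Type} [MulAction G X]

/-- the letter `s` or its inverse -/
def ppaT (s : G) : Bool → G
  | true => s
  | false => s⁻¹

/-- reduced words that start with the letter `ppaT s e` -/
inductive ppaW (K : Subgroup G) (s : G) : G → Bool → Prop
  | base (e : Bool) (k : G) : k ∈ K → ppaW K s (ppaT s e * k) e
  | same (e : Bool) (w : G) : ppaW K s w e → ppaW K s (ppaT s e * w) e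
  | step (e e' : Bool) (k w : G) : k ∈ K → k ≠ 1 → ppaW K s w e' → ppaW K s (ppaT s e * k * w) e

variable {K : Subgroup G} {s : G}

lemma ppa_cancel (e : Bool) (w : G) : ppaT s (!e) * (ppaT s e * w) = w := by
  cases e <;> simp [ppaT]

lemma ppa_left (e : Bool) {q : G} (h : q ∈ K ∨ ∃ k ∈ K, ∃ w e', ppaW K s w e' ∧ q = k * w) :
    ppaT s e * q ∈ K ∨ ∃ k ∈ K, ∃ w e', ppaW K s w e' ∧ ppaT s e * q = k * w := by
  rcases h with h | ⟨k, hk, w, e', hw, rfl⟩
  · exact .inr ⟨1, K.one_mem, _, e, .base e q h, (one_mul _).symm⟩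
  by_cases k1 : k = 1
  · subst k1
    rw [one_mul]
    by_cases ee : e = e'
    · subst ee
      exact .inr ⟨1, K.one_mem, _, e, .same e w hw, (one_mul _).symm⟩
    obtain rfl : e = !e' := by cases e <;> cases e' <;> simp_all
    cases hw with
    | base _ k hk => exact .inl (by rwa [ppa_cancel])
    | same _ w hw => exact .inr ⟨1, K.one_mem, w, e', hw, by rw [ppa_cancel, one_mul]⟩
    | step _ e'' k w hk _ hw => exact .inr ⟨k, hk, w, e'', hw, by rw [mul_assoc, ppa_cancel]⟩
  · exact .inr ⟨1, K.one_mem, _, e, .step e e' k w hk k1 hw, by rw [one_mul, mul_assoc]⟩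

lemma ppa_nf {q : G} (hq : q ∈ K ⊔ Subgroup.zpowers s) :
    q ∈ K ∨ ∃ k ∈ K, ∃ w e, ppaW K s w e ∧ q = k * w := by
  have e : K ⊔ Subgroup.zpowers s = Subgroup.closure ((K : Set G) ∪ {s}) := by
    rw [Subgroup.closure_union, Subgroup.closure_eq, Subgroup.zpowers_eq_closure]
  rw [e] at hq
  have kl : ∀ a ∈ K, ∀ y : G, (y ∈ K ∨ ∃ k ∈ K, ∃ w e, ppaW K s w e ∧ y = k * w) →
      (a * y ∈ K ∨ ∃ k ∈ K, ∃ w e, ppaW K s w e ∧ a * y = k * w) := by
    rintro a ha y (h | ⟨k, hk, w, e, hw, rfl⟩)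
    · exact .inl (K.mul_mem ha h)
    · exact .inr ⟨a * k, K.mul_mem ha hk, w, e, hw, (mul_assoc _ _ _).symm⟩
  induction hq using Subgroup.closure_induction_left with
  | one => exact .inl K.one_mem
  | mul_left a ha y _ ih =>
    rcases ha with ha | rfl
    · exact kl a ha y ih
    · exact ppa_left true ih
  | inv_mul_cancel a ha y _ ih =>
    rcases ha with ha | rfl
    · exact kl _ (K.inv_mem ha) y ih
    · exact ppa_left false ih

lemma ppa_right {w : G} {e : Bool} (h : ppaW K s w e) : w * s = 1 ∨ ppaW K s (w * s) e := by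
  have b : ppaW K s s true := by simpa [ppaT] using ppaW.base (K := K) (s := s) true 1 K.one_mem
  induction h with
  | base e k hk =>
    by_cases k1 : k = 1
    · subst k1
      cases e
      · exact .inl (by simp [ppaT])
      · exact .inr (by simpa using ppaW.same true s b)
    · exact .inr (.step e true k s hk k1 b)
  | same e w _ ih =>
    rw [mul_assoc]
    rcases ih with ih | ih
    · exact .inr (by rw [ih]; exact .base e 1 K.one_mem)
    · exact .inr (.same e _ ih)
  | step e e' k w hk k1 _ ih =>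
    rw [mul_assoc]
    rcases ih with ih | ih
    · exact .inr (by rw [ih, mul_one]; exact .base e k hk)
    · exact .inr (.step e e' k _ hk k1 ih)

end

theorem stPPA : St_PPA := by
  intro G _ X _ K s Dm Dp h1 hd hk q hq x hx
  have hT : ∀ (e : Bool) (z : X), z ∉ cond e Dm Dp → ppaT s e • z ∈ cond e Dp Dm := by
    intro e z hz
    cases e
    · by_contra hc
      exact hz (by simpa [ppaT] using (h1 _).1 hc)
    · exact (h1 z).1 hz
  have sub : ∀ (e : Bool) (z : X), (z ∈ cond e Dp Dm ∨ z ∈ cond e Dm Dp) → z ∈ Dm ∪ Dp := by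
    intro e z hz
    cases e <;> simpa [or_comm] using hz
  have hW : ∀ w e, ppaW K s w e → w • x ∈ cond e Dp Dm := by
    intro w e h
    induction h with
    | base e k hk' =>
      rw [mul_smul]
      exact hT e _ fun hc => hx k hk' (sub e _ (.inr hc))
    | same e w _ ih =>
      rw [mul_smul]
      refine hT e _ fun hc => ?_
      cases e
      · exact Set.disjoint_left.1 hd ih hc
      · exact Set.disjoint_left.1 hd hc ih
    | step e e' k w hk' k1 _ ih =>
      rw [mul_smul, mul_smul]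
      exact hT e _ fun hc => k1 (hk k hk' _ (sub e' _ (.inl ih)) (sub e _ (.inr hc)))
  rcases ppa_nf hq with h | ⟨k, hk', w, e, hw, rfl⟩
  · exact ⟨.inl h, .inl h⟩
  refine ⟨.inr ⟨k⁻¹, K.inv_mem hk', ?_⟩, .inr ?_⟩
  · rw [inv_mul_cancel_left]
    exact sub e _ (.inl (hW w e hw))
  rcases ppa_right hw with h | h
  · exact .inl (by rwa [mul_assoc, h, mul_one])
  refine .inr ⟨k⁻¹, K.inv_mem hk', ?_⟩
  rw [inv_mul_cancel_left]
  cases e
  · exact .inl ⟨hW _ _ hw, hW _ _ h⟩
  · exact .inr ⟨hW _ _ hw, hW _ _ h⟩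

end Pool.Agent.Lib.FBC.X3
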